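import Pool.Agent.R775.HS.Ener

/-!
# Energies with an arbitrary exponent; level sets

Adaptation of `Pool/Agent/R775/HS/Ener.lean`.
-/

set_option autoImplicit false
set_option linter.unusedSectionVars false

open MeasureTheory Set Metric Filter Topology
open scoped ENNReal NNReal

namespace Pool.Agent.H78HS

open Pool.Agent.Y485.HS Pool.Agent.Y489.SP Pool.Agent.R775.HS

/-- the sum of the `m`-th powers of the distances of the images of pairs of points of `Q` in balls
of radius `r` with `r`-separated centres in `Q` is at most `b` -/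
def En (m : ℕ) {n : ℕ} {W : Type} [PseudoMetricSpace W] (Q : Set (E n)) (r b : ℝ)
    (f : E n → W) : Prop :=
  ∀ (A : Finset (E n)) (x y : E n → E n),
    (∀ a ∈ A, a ∈ Q ∧ x a ∈ Q ∧ y a ∈ Q ∧ dist (x a) a ≤ r ∧ dist (y a) a ≤ r) →
    (∀ a ∈ A, ∀ a' ∈ A, a ≠ a' → r ≤ dist a a') → ∑ a ∈ A, dist (f (x a)) (f (y a)) ^ m ≤ b

theorem en_mono {m n : ℕ} {W : Type} [PseudoMetricSpace W] {Q Q' : Set (E n)} {r b b' : ℝ}
    {f : E n → W} (hQ : Q ⊆ Q') (hb : b' ≤ b) (h : En m Q' r b' f) : En m Q r b f := by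
  intro A x y h1 h2
  refine (h A x y (fun a ha => ?_) h2).trans hb
  obtain ⟨q1, q2, q3, q4⟩ := h1 a ha
  exact ⟨hQ q1, hQ q2, hQ q3, q4⟩

theorem en_pair {m n : ℕ} {W W' : Type} [PseudoMetricSpace W] [PseudoMetricSpace W']
    {Q : Set (E n)} {r b b' : ℝ} {f : E n → W} {f' : E n → W'} (h : En m Q r b f)
    (h' : En m Q r b' f') : En m Q r (b + b') (fun x => (f x, f' x)) := by
  intro A x y h1 h2
  refine le_trans ?_ (add_le_add (h A x y h1 h2) (h' A x y h1 h2))
  rw [← Finset.sum_add_distrib]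
  refine Finset.sum_le_sum fun a _ => ?_
  rw [Prod.dist_eq]
  have e1 : 0 ≤ dist (f (x a)) (f (y a)) ^ m := pow_nonneg dist_nonneg _
  have e2 : 0 ≤ dist (f' (x a)) (f' (y a)) ^ m := pow_nonneg dist_nonneg _
  rcases max_cases (dist (f (x a)) (f (y a))) (dist (f' (x a)) (f' (y a))) with ⟨h, -⟩ | ⟨h, -⟩
  · simp only [h]
    linarith
  · simp only [h]
    linarith

section
variable {W : Type} [NormedAddCommGroup W] [NormedSpace ℝ W] [FiniteDimensional ℝ W]
  [MeasureSpace W] [BorelSpace W] [(volume : Measure W).IsAddHaarMeasure]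

theorem vol_le' (S : Set W) (hb : Bornology.IsBounded S) :
    volume S ≤ ENNReal.ofReal (diam S ^ Module.finrank ℝ W) * volume (ball (0 : W) 1) := by
  rcases S.eq_empty_or_nonempty with h | ⟨x, hx⟩
  · rw [h, measure_empty]
    exact bot_le
  · have h1 : S ⊆ closedBall x (diam S) := fun y hy => dist_le_diam_of_mem hb hy hx
    refine (measure_mono h1).trans (le_of_eq ?_)
    exact Measure.addHaar_closedBall _ _ diam_nonneg

theorem slice_null' {n : ℕ} {Q : Set (E n)} (hQ : IsCompact Q) {f : E n → W}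
    (hf : ContinuousOn f Q) {r b : ℕ → ℝ} (hr : ∀ j, 0 < r j)
    (hrb : Tendsto (fun j => r j * b j) atTop (𝓝 0))
    (hE : ∀ j, En (Module.finrank ℝ W) Q (r j) (b j) f)
    (i : Fin n) : ∀ᵐ t : ℝ, volume (f '' {x | x ∈ Q ∧ x i = t}) = 0 := by
  classical
  choose A hA1 hA2 hA3 using fun j : ℕ => net' hQ (hr j)
  have hmax : ∀ j a, ∃ q : E n × E n, a ∈ Q → (q.1 ∈ closedBall a (r j) ∩ Q ∧
      q.2 ∈ closedBall a (r j) ∩ Q ∧ ∀ z ∈ closedBall a (r j) ∩ Q,
        ∀ z' ∈ closedBall a (r j) ∩ Q, dist (f z) (f z') ≤ dist (f q.1) (f q.2)) := by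
    intro j a
    by_cases ha : a ∈ Q
    · have hK : IsCompact (closedBall a (r j) ∩ Q) := (isCompact_closedBall a (r j)).inter hQ
      have hne : (closedBall a (r j) ∩ Q).Nonempty := ⟨a, mem_closedBall_self (hr j).le, ha⟩
      have hc : ContinuousOn (fun q : E n × E n => dist (f q.1) (f q.2))
          ((closedBall a (r j) ∩ Q) ×ˢ (closedBall a (r j) ∩ Q)) := by
        have hf' := hf.mono (inter_subset_right (s := closedBall a (r j)) (t := Q))
        exact continuous_dist.comp_continuousOn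
          ((hf'.comp continuousOn_fst fun q hq => hq.1).prodMk
            (hf'.comp continuousOn_snd fun q hq => hq.2))
      obtain ⟨q, hq, hmaxq⟩ := (hK.prod hK).exists_isMaxOn (hne.prod hne) hc
      refine ⟨q, fun _ => ⟨hq.1, hq.2, fun z hz z' hz' => ?_⟩⟩
      exact hmaxq (mk_mem_prod hz hz')
    · exact ⟨(a, a), fun h => (ha h).elim⟩
  choose q hq using hmax
  set D : ℕ → E n → ℝ := fun j a => dist (f (q j a).1) (f (q j a).2) ^ Module.finrank ℝ W with hD
  have hD0 : ∀ j a, 0 ≤ D j a := fun j a => pow_nonneg dist_nonneg _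
  have hDs : ∀ j, ∑ a ∈ A j, D j a ≤ b j := fun j =>
    hE j (A j) (fun a => (q j a).1) (fun a => (q j a).2) (fun a ha => by
      obtain ⟨h1, h2, -⟩ := hq j a (hA1 j a ha)
      exact ⟨hA1 j a ha, h1.2, h2.2, mem_closedBall.1 h1.1, mem_closedBall.1 h2.1⟩) (hA2 j)
  set κ : ℝ≥0∞ := volume (ball (0 : W) 1) with hκ
  have hκt : κ ≠ ∞ := measure_ball_lt_top.ne
  set g : ℕ → ℝ → ℝ≥0∞ := fun j t => ∑ a ∈ A j,
    (Icc (a i - r j) (a i + r j)).indicator (fun _ => ENNReal.ofReal (D j a) * κ) t with hg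
  have hgm : ∀ j, Measurable (g j) := by
    intro j
    refine Finset.measurable_fun_sum _ fun a _ => ?_
    exact measurable_const.indicator measurableSet_Icc
  have hint : ∀ j, ∫⁻ t, g j t ≤ ENNReal.ofReal (2 * (r j * b j)) * κ := by
    intro j
    have h1 : ∫⁻ t, g j t = ∑ a ∈ A j,
        ENNReal.ofReal (D j a) * κ * ENNReal.ofReal (2 * r j) := by
      simp only [hg]
      rw [lintegral_finsetSum _ fun a _ => measurable_const.indicator measurableSet_Icc]
      refine Finset.sum_congr rfl fun a _ => ?_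
      rw [lintegral_indicator measurableSet_Icc, lintegral_const,
        Measure.restrict_apply MeasurableSet.univ, univ_inter, Real.volume_Icc]
      congr 2
      ring
    have h2 : ∑ a ∈ A j, ENNReal.ofReal (D j a) * κ * ENNReal.ofReal (2 * r j)
        = ENNReal.ofReal ((∑ a ∈ A j, D j a) * (2 * r j)) * κ := by
      rw [ENNReal.ofReal_mul (Finset.sum_nonneg fun a _ => hD0 j a),
        ENNReal.ofReal_sum_of_nonneg fun a _ => hD0 j a, Finset.sum_mul, Finset.sum_mul]
      refine Finset.sum_congr rfl fun a _ => ?_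
      ring
    rw [h1, h2]
    refine mul_le_mul' (ENNReal.ofReal_le_ofReal ?_) le_rfl
    have h3 := hDs j
    have h4 := hr j
    nlinarith
  have hlim : ∫⁻ t, liminf (fun j => g j t) atTop = 0 := by
    refine le_antisymm ?_ bot_le
    refine (lintegral_liminf_le hgm).trans ?_
    have hz : Tendsto (fun j => ENNReal.ofReal (2 * (r j * b j)) * κ) atTop (𝓝 0) := by
      have h1 : Tendsto (fun j => 2 * (r j * b j)) atTop (𝓝 0) := by
        simpa using hrb.const_mul 2
      have h2 := ENNReal.tendsto_ofReal h1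
      have h3 := ENNReal.Tendsto.mul_const h2 (b := κ) (Or.inr hκt)
      simpa using h3
    calc liminf (fun j => ∫⁻ t, g j t) atTop
        ≤ liminf (fun j => ENNReal.ofReal (2 * (r j * b j)) * κ) atTop :=
          liminf_le_liminf (Eventually.of_forall hint)
      _ = 0 := hz.liminf_eq
  have hae := (lintegral_eq_zero_iff (Measurable.liminf hgm)).1 hlim
  filter_upwards [hae] with t ht
  have key : ∀ j, volume (f '' {x | x ∈ Q ∧ x i = t}) ≤ g j t := by
    intro j
    have hsub : f '' {x | x ∈ Q ∧ x i = t} ⊆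
        ⋃ a ∈ (A j).filter (fun a => t ∈ Icc (a i - r j) (a i + r j)),
          f '' (closedBall a (r j) ∩ Q) := by
      rintro y ⟨x, ⟨hx, hxt⟩, rfl⟩
      obtain ⟨a, haA, hxa⟩ := hA3 j x hx
      have h1 := Pool.Agent.Y401.SPN.coord x a i
      rw [hxt, abs_le] at h1
      refine mem_biUnion (x := a) ?_ ⟨x, ⟨mem_closedBall.2 hxa, hx⟩, rfl⟩
      rw [Finset.mem_coe, Finset.mem_filter]
      exact ⟨haA, by linarith [h1.1], by linarith [h1.2]⟩
    refine (measure_mono hsub).trans ((measure_biUnion_finset_le _ _).trans ?_)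
    have hb : ∀ a ∈ A j, volume (f '' (closedBall a (r j) ∩ Q)) ≤
        ENNReal.ofReal (D j a) * κ := by
      intro a ha
      have haQ := hA1 j a ha
      obtain ⟨-, -, hm⟩ := hq j a haQ
      have hbd : Bornology.IsBounded (f '' (closedBall a (r j) ∩ Q)) :=
        ((((isCompact_closedBall a (r j)).inter hQ)).image_of_continuousOn
          (hf.mono inter_subset_right)).isBounded
      refine (vol_le' _ hbd).trans ?_
      gcongr
      simp only [hD]
      refine pow_le_pow_left₀ diam_nonneg ?_ _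
      refine Metric.diam_le_of_forall_dist_le dist_nonneg ?_
      rintro _ ⟨z, hz, rfl⟩ _ ⟨z', hz', rfl⟩
      exact hm z hz z' hz'
    calc ∑ a ∈ (A j).filter (fun a => t ∈ Icc (a i - r j) (a i + r j)),
          volume (f '' (closedBall a (r j) ∩ Q))
        ≤ ∑ a ∈ (A j).filter (fun a => t ∈ Icc (a i - r j) (a i + r j)),
          ENNReal.ofReal (D j a) * κ :=
          Finset.sum_le_sum fun a ha => hb a (Finset.mem_filter.1 ha).1
      _ = g j t := by
          rw [Finset.sum_filter]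
          simp only [hg, Set.indicator_apply]
  refine le_antisymm ?_ bot_le
  calc volume (f '' {x | x ∈ Q ∧ x i = t}) ≤ liminf (fun j => g j t) atTop :=
        le_liminf_of_le (by isBoundedDefault) (Eventually.of_forall key)
    _ = 0 := ht

end

/-- For almost every fibre, almost all level sets of countably many functions are totally
disconnected. -/
theorem ae_level {n : ℕ} {Q : Set (E n)} (hQ : IsCompact Q) {f : E n → E n}
    (hf : ContinuousOn f Q) {ι : Type} [Countable ι] {ρ : ι → E n → ℝ}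
    (hρ : ∀ k, ContinuousOn (ρ k) Q) {r b : ℕ → ℝ} (hr : ∀ j, 0 < r j)
    (hrb : Tendsto (fun j => r j * b j) atTop (𝓝 0)) (hE : ∀ j, En (n + 1) Q (r j) (b j) f)
    (hE' : ∀ k j, En (n + 1) Q (r j) (b j) (ρ k)) :
    ∀ᵐ y : E n, ∀ k, ∀ᵐ s : ℝ, ∀ C ⊆ Q, IsPreconnected C → (∀ x ∈ C, f x = y) →
      (∀ x ∈ C, ρ k x = s) → C.Subsingleton := by
  have hfin : Module.finrank ℝ (E n × ℝ) = n + 1 := by simp
  have hhaar : (volume : Measure (E n × ℝ)).IsAddHaarMeasure := by
    rw [Measure.volume_eq_prod]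
    infer_instance
  have h1 : ∀ i : Fin n, ∃ T : Set ℝ, T.Countable ∧ Dense T ∧ ∀ t ∈ T, ∀ k,
      volume ((fun x => (f x, ρ k x)) '' {x | x ∈ Q ∧ x i = t}) = 0 := by
    intro i
    have h2 : ∀ᵐ t : ℝ, ∀ k, volume ((fun x => (f x, ρ k x)) '' {x | x ∈ Q ∧ x i = t}) = 0 := by
      rw [ae_all_iff]
      intro k
      refine slice_null' (W := E n × ℝ) hQ (hf.prodMk (hρ k)) hr (b := fun j => b j + b j) ?_ ?_ i
      · have h3 := hrb.add hrb
        rw [add_zero] at h3
        refine h3.congr fun j => ?_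
        ring
      · intro j
        rw [hfin]
        exact en_pair (hE j) (hE' k j)
    obtain ⟨T, hT1, hT2, hT3⟩ := (Measure.dense_of_ae h2).exists_countable_dense_subset
    exact ⟨T, hT2, hT3, fun t ht k => hT1 ht k⟩
  choose T hT1 hT2 hT3 using h1
  have h2 : ∀ᵐ y : E n, ∀ k, ∀ i : Fin n, ∀ t ∈ T i, ∀ᵐ s : ℝ,
      (y, s) ∉ (fun x => (f x, ρ k x)) '' {x | x ∈ Q ∧ x i = t} := by
    rw [ae_all_iff]
    intro k
    rw [ae_all_iff]
    intro i
    rw [ae_ball_iff (hT1 i)]
    intro t ht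
    have h3 := measure_eq_zero_iff_ae_notMem.1 (hT3 i t ht k)
    rw [Measure.volume_eq_prod] at h3
    exact Measure.ae_ae_of_ae_prod h3
  filter_upwards [h2] with y hy k
  have h3 : ∀ᵐ s : ℝ, ∀ i : Fin n, ∀ t ∈ T i,
      (y, s) ∉ (fun x => (f x, ρ k x)) '' {x | x ∈ Q ∧ x i = t} := by
    rw [ae_all_iff]
    intro i
    rw [ae_ball_iff (hT1 i)]
    exact hy k i
  filter_upwards [h3] with s hs C hCQ hC hCy hCs x hx x' hx'
  refine PiLp.ext fun i => ?_
  by_contra hne
  have hIm : IsPreconnected ((fun z : E n => z i) '' C) :=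
    hC.image _ (by fun_prop : Continuous (fun z : E n => z i)).continuousOn
  have hord : (( fun z : E n => z i) '' C).OrdConnected := hIm.ordConnected
  have hbtw : ∀ u ∈ C, ∀ v ∈ C, u i < v i → False := by
    intro u hu v hv huv
    obtain ⟨t, htT, ht1, ht2⟩ := (hT2 i).exists_between huv
    obtain ⟨z, hz, hzt⟩ := hord.out (mem_image_of_mem _ hu) (mem_image_of_mem _ hv)
      ⟨ht1.le, ht2.le⟩
    exact hs i t htT ⟨z, ⟨hCQ hz, hzt⟩, by simp only [hCy z hz, hCs z hz]⟩
  rcases lt_or_gt_of_ne hne with h3 | h3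
  · exact hbtw x hx x' hx' h3
  · exact hbtw x' hx' x hx h3

/-- averages have small energy -/
theorem en_avg {m n : ℕ} {W : Type} [NormedAddCommGroup W] [NormedSpace ℝ W] [CompleteSpace W]
    {Q : Set (E n)} {r b : ℝ} {Ω : Type} [TopologicalSpace Ω]
    [CompactSpace Ω] [MeasurableSpace Ω] [BorelSpace Ω] [SecondCountableTopologyEither Ω W]
    (μ : Measure Ω) [IsProbabilityMeasure μ]
    (S : Ω → E n → W) (hS : ∀ u ∈ Q, Continuous (fun ω => S ω u))
    (hE : ∀ ω, En m Q r b (S ω)) : En m Q r b (fun u => ∫ ω, S ω u ∂μ) := by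
  intro A x y h1 h2
  have hci : ∀ f : Ω → ℝ, Continuous f → Integrable f μ := fun f hf =>
    hf.integrable_of_hasCompactSupport (HasCompactSupport.of_compactSpace _)
  have hcE : ∀ f : Ω → W, Continuous f → Integrable f μ := fun f hf =>
    hf.integrable_of_hasCompactSupport (HasCompactSupport.of_compactSpace _)
  have hdc : ∀ a ∈ A, Continuous (fun ω => dist (S ω (x a)) (S ω (y a))) := fun a ha =>
    (hS _ (h1 a ha).2.1).dist (hS _ (h1 a ha).2.2.1)
  have hterm : ∀ a ∈ A, dist (∫ ω, S ω (x a) ∂μ) (∫ ω, S ω (y a) ∂μ) ^ m ≤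
      ∫ ω, dist (S ω (x a)) (S ω (y a)) ^ m ∂μ := by
    intro a ha
    have e1 : dist (∫ ω, S ω (x a) ∂μ) (∫ ω, S ω (y a) ∂μ) ≤
        ∫ ω, dist (S ω (x a)) (S ω (y a)) ∂μ := by
      rw [dist_eq_norm, ← integral_sub (hcE _ (hS _ (h1 a ha).2.1)) (hcE _ (hS _ (h1 a ha).2.2.1))]
      refine (norm_integral_le_integral_norm _).trans (le_of_eq ?_)
      simp only [dist_eq_norm]
    have e2 := (convexOn_pow (𝕜 := ℝ) m).map_integral_le (μ := μ)
      (f := fun ω => dist (S ω (x a)) (S ω (y a))) (continuous_pow m).continuousOn isClosed_Ici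
      (Eventually.of_forall fun ω => dist_nonneg) (hci _ (hdc a ha))
      (hci _ ((hdc a ha).pow m))
    exact (pow_le_pow_left₀ dist_nonneg e1 m).trans e2
  calc ∑ a ∈ A, dist (∫ ω, S ω (x a) ∂μ) (∫ ω, S ω (y a) ∂μ) ^ m
      ≤ ∑ a ∈ A, ∫ ω, dist (S ω (x a)) (S ω (y a)) ^ m ∂μ := Finset.sum_le_sum hterm
    _ = ∫ ω, ∑ a ∈ A, dist (S ω (x a)) (S ω (y a)) ^ m ∂μ := by
        rw [integral_finsetSum]
        intro a ha
        exact hci _ ((hdc a ha).pow m)
    _ ≤ ∫ _ω, b ∂μ := by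
        refine integral_mono (hci _ (continuous_finsetSum _ fun a ha => (hdc a ha).pow m))
          (integrable_const _) fun ω => ?_
        exact hE ω A x y h1 h2
    _ = b := by simp

end Pool.Agent.H78HS
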