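import Pool.Agent.R775.HS.Face2
import Pool.Agent.H78HS.Mor

/-!
# Oscillation of fractional Sobolev embeddings on balls

Adaptation of `Pool/Agent/R775/HS/Face2.lean`.
-/

set_option autoImplicit false

open MeasureTheory Set Metric Filter Topology
open scoped ENNReal NNReal

noncomputable section

namespace Pool.Agent.H78HS

open Pool.Agent.Y485.HS Pool.Agent.Y489.SP Pool.Agent.Y566.SP Pool.Agent.R775.HS

/-- the fractional Hajlasz condition -/
def HajS (θ : ℝ) {n : ℕ} (S : Set (E n)) (f : E n → E n) (g : E n → ℝ≥0∞) : Prop :=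
  ∀ x ∈ S, ∀ y ∈ S, edist (f x) (f y) ≤ edist x y ^ θ * (g x + g y)

theorem face_estS {m : ℕ} {q θ : ℝ} (hq0 : 0 ≤ q) (hθ0 : 0 ≤ θ) {C : ℝ≥0}
    (hC : ∀ (Y : Type) [MetricSpace Y] (a : Fin m → ℝ) (l : ℝ), 0 < l →
      ∀ (u : (Fin m → ℝ) → Y) (g : (Fin m → ℝ) → ℝ≥0∞),
      ContinuousOn u (Icc a (fun i => a i + l)) → Measurable g →
      (∀ x ∈ Icc a (fun i => a i + l), ∀ y ∈ Icc a (fun i => a i + l),
        edist (u x) (u y) ≤ edist x y ^ θ * (g x + g y)) →
      ∀ x ∈ Icc a (fun i => a i + l), ∀ y ∈ Icc a (fun i => a i + l),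
        edist (u x) (u y) ^ q ≤ C * ENNReal.ofReal (l ^ (θ * q - m)) *
          ∫⁻ z in Icc a (fun i => a i + l), g z ^ q)
    {Z : Set (E (m + 1))} {u : E (m + 1) → E (m + 1)} {g : E (m + 1) → ℝ≥0∞} (hg : Measurable g) {a : E (m + 1)}
    {t : ℝ} (ht : 0 < t) (hQB : Q a t ⊆ Z) (huc : ContinuousOn u (Z))
    (hh : HajS θ (Z) u g) (i : Fin (m + 1)) {c : ℝ} (hci : |c - a i| ≤ t)
    {x y : E (m + 1)} (hx : x ∈ Q a t) (hy : y ∈ Q a t) (hxi : x i = c) (hyi : y i = c) :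
    edist (u x) (u y) ^ q ≤ C * ENNReal.ofReal ((2 * t) ^ (θ * q - m)) *
      ((((m + 1 : ℕ) : ℝ≥0∞) ^ θ) ^ q *
        ∫⁻ v : Fin m → ℝ, (Q a t).indicator (fun z => g z ^ q) (P i c v)) := by
  set a' : Fin m → ℝ := fun j => a (i.succAbove j) - t with ha'
  have hmemI : ∀ v : Fin m → ℝ, v ∈ Icc a' (fun j => a' j + 2 * t) ↔
      ∀ j, |v j - a (i.succAbove j)| ≤ t := by
    intro v
    constructor
    · rintro ⟨h1, h2⟩ j
      have h1 := h1 j
      have h2 := h2 j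
      simp only [ha'] at h1 h2
      rw [abs_le]
      constructor <;> linarith
    · intro hv
      constructor
      · intro j
        have := (abs_le.1 (hv j)).1
        simp only [ha']
        linarith
      · intro j
        have := (abs_le.1 (hv j)).2
        simp only [ha']
        linarith
  have hPQ : ∀ v ∈ Icc a' (fun j => a' j + 2 * t), P i c v ∈ Q a t := by
    intro v hv k
    rcases Fin.eq_self_or_eq_succAbove i k with h | ⟨j, h⟩
    · rw [h, P_same]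
      exact hci
    · rw [h, P_succ]
      exact (hmemI v).1 hv j
  have hcut : ∀ z ∈ Q a t, z i = c → ∃ v ∈ Icc a' (fun j => a' j + 2 * t), P i c v = z := by
    intro z hz hzi
    refine ⟨fun j => z (i.succAbove j), (hmemI _).2 fun j => hz _, ?_⟩
    rw [← hzi]
    exact P_eta i z
  obtain ⟨v, hv, rfl⟩ := hcut x hx hxi
  obtain ⟨w, hw, rfl⟩ := hcut y hy hyi
  have hmeas : Measurable (fun v => g (P i c v)) := hg.comp (meas_P i c).measurable
  have key := hC (E (m + 1)) a' (2 * t) (by positivity) (fun v => u (P i c v))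
    (fun v => ((m + 1 : ℕ) : ℝ≥0∞) ^ θ * g (P i c v))
    (huc.comp (meas_P i c).continuousOn (fun v hv => hQB (hPQ v hv)))
    (hmeas.const_mul _) (by
      intro v hv w hw
      refine (hh _ (hQB (hPQ v hv)) _ (hQB (hPQ w hw))).trans ?_
      calc edist (P i c v) (P i c w) ^ θ * (g (P i c v) + g (P i c w))
          ≤ (((m + 1 : ℕ) : ℝ≥0∞) * edist v w) ^ θ * (g (P i c v) + g (P i c w)) :=
            mul_le_mul_left (ENNReal.rpow_le_rpow (edist_P i c v w) hθ0) _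
        _ = _ := by
          rw [ENNReal.mul_rpow_of_nonneg _ _ hθ0]
          ring) v hv w hw
  refine key.trans ?_
  apply mul_le_mul_right
  have h1 : ∀ v : Fin m → ℝ, (((m + 1 : ℕ) : ℝ≥0∞) ^ θ * g (P i c v)) ^ q =
      (((m + 1 : ℕ) : ℝ≥0∞) ^ θ) ^ q * g (P i c v) ^ q :=
    fun v => ENNReal.mul_rpow_of_nonneg _ _ hq0
  simp only [h1]
  rw [lintegral_const_mul _ (hmeas.pow_const q)]
  apply mul_le_mul_right
  rw [← lintegral_indicator measurableSet_Icc]
  apply lintegral_mono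
  intro v
  by_cases hv : v ∈ Icc a' (fun j => a' j + 2 * t)
  · simp only [indicator_of_mem hv, indicator_of_mem (hPQ v hv)]
    exact le_rfl
  · simp only [indicator_of_notMem hv]
    exact bot_le

theorem faceS (n : ℕ) (hn : 2 ≤ n) (q θ : ℝ) (hq00 : 0 < q) (hq : (n : ℝ) - 1 < θ * q) :
    ∃ C : ℝ≥0,
    ∀ (u : OpenPartialHomeomorph (E n) (E n)) (g : E n → ℝ≥0∞), Measurable g →
    HajS θ u.source u g → ∀ (a : E n) (r : ℝ), 0 < r → closedBall a (2 * n * r) ⊆ u.source →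
    ENNReal.ofReal (Metric.diam (u '' closedBall a r)) ^ q ≤
      C * ENNReal.ofReal (r ^ (θ * q - n)) * ∫⁻ z in closedBall a (2 * n * r), g z ^ q := by
  obtain ⟨m, rfl⟩ : ∃ m, n = m + 1 := ⟨n - 1, by omega⟩
  have hm : 1 ≤ m := by omega
  have hq' : (m : ℝ) < θ * q := by push_cast at hq; linarith
  have hq0 : 0 ≤ q := hq00.le
  have hθ0 : 0 ≤ θ := by
    by_contra hcon
    have h1 : θ * q ≤ 0 := mul_nonpos_of_nonpos_of_nonneg (not_le.1 hcon).le hq0
    have h2 : (0 : ℝ) ≤ m := Nat.cast_nonneg m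
    linarith
  obtain ⟨C, hC⟩ := morS m hm q θ hq00 hq'
  set K : ℝ≥0∞ := 3 ^ q * (C * ENNReal.ofReal (4 ^ (θ * q - m)) *
    (((m + 1 : ℕ) : ℝ≥0∞) ^ θ) ^ q) *
    (((m + 1 : ℕ) : ℝ≥0∞) * 2) with hKdef
  have hKt : K ≠ ∞ := by
    have h1 : (3 : ℝ≥0∞) ^ q ≠ ∞ := ENNReal.rpow_ne_top_of_nonneg hq0 (by norm_num)
    have h2 : (((m + 1 : ℕ) : ℝ≥0∞) ^ θ) ^ q ≠ ∞ :=
      ENNReal.rpow_ne_top_of_nonneg hq0
        (ENNReal.rpow_ne_top_of_nonneg hθ0 (ENNReal.natCast_ne_top _))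
    exact ENNReal.mul_ne_top (ENNReal.mul_ne_top h1 (ENNReal.mul_ne_top (ENNReal.mul_ne_top
      ENNReal.coe_ne_top ENNReal.ofReal_ne_top) h2)) (ENNReal.mul_ne_top
      (ENNReal.natCast_ne_top _) (by norm_num))
  refine ⟨K.toNNReal, ?_⟩
  rw [ENNReal.coe_toNNReal hKt]
  intro u g hg hh a r hr hrn
  have hm1 : (0 : ℝ) < (m : ℝ) + 1 := by positivity
  set G : E (m + 1) → ℝ≥0∞ := (Q a (2 * r)).indicator (fun z => g z ^ q) with hG
  have hGm : Measurable G := (hg.pow_const q).indicator (isClosed_Q a (2 * r)).measurableSet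
  set L : ℝ≥0∞ := ENNReal.ofReal (Metric.diam (u '' closedBall a r)) ^ q with hL
  set A : ℝ≥0∞ := 3 ^ q * (C * ENNReal.ofReal ((4 * r) ^ (θ * q - m)) *
    (((m + 1 : ℕ) : ℝ≥0∞) ^ θ) ^ q) with hA
  -- one value of t
  have hone : ∀ t ∈ Icc r (2 * r), L ≤ A * ∑ i : Fin (m + 1),
      ((∫⁻ v : Fin m → ℝ, G (P i (a i + 1 * t) v)) +
        ∫⁻ v : Fin m → ℝ, G (P i (a i + (-1) * t) v)) := by
    intro t ht
    have ht0 : 0 < t := lt_of_lt_of_le hr ht.1
    have hQ1 : Q a t ⊆ u.source := by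
      refine (Q_sub_ball a ht0.le).trans ((closedBall_subset_closedBall ?_).trans hrn)
      have := mul_le_mul_of_nonneg_left ht.2 hm1.le
      push_cast
      linarith
    obtain ⟨i, s, x, y, hs, hx, hy, hxi, hyi, hall⟩ := faces' hm u ht0.le hQ1
    have hd : Metric.diam (u '' closedBall a r) ≤ 3 * dist (u x) (u y) := by
      apply Metric.diam_le_of_forall_dist_le (by positivity)
      rintro _ ⟨z, hz, rfl⟩ _ ⟨z', hz', rfl⟩
      exact hall z (ball_sub_Q a ht.1 hz) z' (ball_sub_Q a ht.1 hz')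
    have h1 : L ≤ 3 ^ q * edist (u x) (u y) ^ q := by
      rw [← ENNReal.mul_rpow_of_nonneg _ _ hq0]
      apply ENNReal.rpow_le_rpow _ hq0
      rw [edist_dist]
      have h3 : (3 : ℝ≥0∞) = ENNReal.ofReal 3 := by simp
      rw [h3, ← ENNReal.ofReal_mul (by norm_num)]
      exact ENNReal.ofReal_le_ofReal hd
    have hci : |a i + s * t - a i| ≤ t := by
      rw [add_sub_cancel_left, abs_mul, hs, one_mul, abs_of_pos ht0]
    have h2 := face_estS hq0 hθ0 hC hg ht0 hQ1 u.continuousOn hh i hci hx hy hxi hyi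
    have h3 : (∫⁻ v : Fin m → ℝ, (Q a t).indicator (fun z => g z ^ q) (P i (a i + s * t) v)) ≤
        ∫⁻ v : Fin m → ℝ, G (P i (a i + s * t) v) := by
      apply lintegral_mono
      intro v
      exact indicator_le_indicator_of_subset (Q_mono a ht.2) (fun _ => bot_le) _
    have h4 : (∫⁻ v : Fin m → ℝ, G (P i (a i + s * t) v)) ≤ ∑ i : Fin (m + 1),
      ((∫⁻ v : Fin m → ℝ, G (P i (a i + 1 * t) v)) +
        ∫⁻ v : Fin m → ℝ, G (P i (a i + (-1) * t) v)) := by
      refine le_trans ?_ (Finset.single_le_sum (f := fun i : Fin (m + 1) =>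
        ((∫⁻ v : Fin m → ℝ, G (P i (a i + 1 * t) v)) +
        ∫⁻ v : Fin m → ℝ, G (P i (a i + (-1) * t) v))) (fun _ _ => bot_le) (Finset.mem_univ i))
      rcases (abs_eq (zero_le_one' ℝ)).1 hs with h | h
      · rw [h]
        exact le_self_add
      · rw [h]
        exact le_add_self
    have h5 : ENNReal.ofReal ((2 * t) ^ (θ * q - m)) ≤
        ENNReal.ofReal ((4 * r) ^ (θ * q - m)) := by
      apply ENNReal.ofReal_le_ofReal
      apply Real.rpow_le_rpow (by positivity) (by linarith [ht.2]) (by linarith)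
    calc L ≤ 3 ^ q * edist (u x) (u y) ^ q := h1
      _ ≤ 3 ^ q * (C * ENNReal.ofReal ((4 * r) ^ (θ * q - m)) *
          ((((m + 1 : ℕ) : ℝ≥0∞) ^ θ) ^ q * ∑ i : Fin (m + 1),
      ((∫⁻ v : Fin m → ℝ, G (P i (a i + 1 * t) v)) +
        ∫⁻ v : Fin m → ℝ, G (P i (a i + (-1) * t) v)))) := by
          apply mul_le_mul_right
          refine h2.trans ?_
          exact mul_le_mul' (mul_le_mul_right h5 _) (mul_le_mul_right (h3.trans h4) _)
      _ = _ := by rw [hA]; ring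
  -- integrate
  have hAt : A ≠ ∞ := by
    have h1 : (3 : ℝ≥0∞) ^ q ≠ ∞ := ENNReal.rpow_ne_top_of_nonneg hq0 (by norm_num)
    have h2 : (((m + 1 : ℕ) : ℝ≥0∞) ^ θ) ^ q ≠ ∞ :=
      ENNReal.rpow_ne_top_of_nonneg hq0
        (ENNReal.rpow_ne_top_of_nonneg hθ0 (ENNReal.natCast_ne_top _))
    exact ENNReal.mul_ne_top h1 (ENNReal.mul_ne_top (ENNReal.mul_ne_top
      ENNReal.coe_ne_top ENNReal.ofReal_ne_top) h2)
  have hint : L * ENNReal.ofReal r ≤ A * (((m + 1 : ℕ) : ℝ≥0∞) * (2 * ∫⁻ z, G z)) := by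
    calc L * ENNReal.ofReal r = ∫⁻ _t in Icc r (2 * r), L := by
          rw [setLIntegral_const, Real.volume_Icc]
          congr 2
          ring
      _ ≤ ∫⁻ t in Icc r (2 * r), A * ∑ i : Fin (m + 1),
      ((∫⁻ v : Fin m → ℝ, G (P i (a i + 1 * t) v)) +
        ∫⁻ v : Fin m → ℝ, G (P i (a i + (-1) * t) v)) :=
          setLIntegral_mono' measurableSet_Icc hone
      _ ≤ ∫⁻ t : ℝ, A * ∑ i : Fin (m + 1),
      ((∫⁻ v : Fin m → ℝ, G (P i (a i + 1 * t) v)) +
        ∫⁻ v : Fin m → ℝ, G (P i (a i + (-1) * t) v)) := setLIntegral_le_lintegral _ _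
      _ = A * ∑ i : Fin (m + 1), ((∫⁻ t : ℝ, ∫⁻ v : Fin m → ℝ, G (P i (a i + 1 * t) v)) +
        ∫⁻ t : ℝ, ∫⁻ v : Fin m → ℝ, G (P i (a i + (-1) * t) v)) := by
          rw [lintegral_const_mul' _ _ hAt, lintegral_finsetSum]
          · congr 1
            apply Finset.sum_congr rfl
            intro i _
            exact lintegral_add_left (meas_slice i G hGm (a i) 1) _
          · intro i _
            exact (meas_slice i G hGm (a i) 1).add (meas_slice i G hGm (a i) (-1))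
      _ = A * (((m + 1 : ℕ) : ℝ≥0∞) * (2 * ∫⁻ z, G z)) := by
          congr 1
          have : ∀ i : Fin (m + 1), ((∫⁻ t : ℝ, ∫⁻ v : Fin m → ℝ, G (P i (a i + 1 * t) v)) +
              ∫⁻ t : ℝ, ∫⁻ v : Fin m → ℝ, G (P i (a i + (-1) * t) v)) = 2 * ∫⁻ z, G z := by
            intro i
            rw [lint_face i G hGm (a i) 1 (by simp), lint_face i G hGm (a i) (-1) (by simp),
              two_mul]
          simp only [this]
          rw [Finset.sum_const, Finset.card_univ, Fintype.card_fin, nsmul_eq_mul]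
  have hGI : ∫⁻ z, G z ≤ ∫⁻ z in closedBall a (2 * ((m + 1 : ℕ) : ℝ) * r), g z ^ q := by
    rw [hG, lintegral_indicator (isClosed_Q a (2 * r)).measurableSet]
    apply lintegral_mono_set
    refine (Q_sub_ball a (by positivity)).trans (closedBall_subset_closedBall (le_of_eq ?_))
    ring
  have hpow : ENNReal.ofReal ((4 * r) ^ (θ * q - m)) = ENNReal.ofReal (4 ^ (θ * q - m)) *
      ENNReal.ofReal (r ^ (θ * q - ((m + 1 : ℕ) : ℝ))) * ENNReal.ofReal r := by
    rw [← ENNReal.ofReal_mul (by positivity), ← ENNReal.ofReal_mul (by positivity)]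
    congr 1
    rw [Real.mul_rpow (by norm_num) hr.le, mul_assoc]
    congr 1
    have : θ * q - m = (θ * q - ((m + 1 : ℕ) : ℝ)) + 1 := by push_cast; ring
    rw [this, Real.rpow_add hr, Real.rpow_one]
  have hfin : L * ENNReal.ofReal r ≤ (K * ENNReal.ofReal (r ^ (θ * q - ((m + 1 : ℕ) : ℝ))) *
      ∫⁻ z in closedBall a (2 * ((m + 1 : ℕ) : ℝ) * r), g z ^ q) * ENNReal.ofReal r := by
    refine hint.trans ?_
    calc A * (((m + 1 : ℕ) : ℝ≥0∞) * (2 * ∫⁻ z, G z))
        ≤ A * (((m + 1 : ℕ) : ℝ≥0∞) *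
          (2 * ∫⁻ z in closedBall a (2 * ((m + 1 : ℕ) : ℝ) * r), g z ^ q)) :=
          mul_le_mul_right (mul_le_mul_right (mul_le_mul_right hGI _) _) _
      _ = _ := by rw [hA, hKdef, hpow]; ring
  have hr0 : ENNReal.ofReal r ≠ 0 := by simpa using hr
  exact (ENNReal.mul_le_mul_iff_left hr0 ENNReal.ofReal_ne_top).1 hfin

end Pool.Agent.H78HS
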