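import Pool.Agent.R775.HS.Sob2
import Pool.Agent.H78HS.Face
import Pool.Agent.H78HS.En

/-!
# Fractional Sobolev embeddings have small energies

Adaptation of `Pool/Agent/R775/HS/Sob2.lean`.
-/

set_option autoImplicit false

open MeasureTheory Set Metric Filter Topology
open scoped ENNReal NNReal Classical

noncomputable section

namespace Pool.Agent.H78HS

open Pool.Agent.Y485.HS Pool.Agent.Y489.SP Pool.Agent.R775.HS

/-- reduction to exponents at most `n + 1` -/
theorem reduceS {n : ℕ} {q θ : ℝ} (hq0 : 0 < q) (hq : (n : ℝ) - 1 < θ * q)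
    (hθ : (n : ℝ) - 1 < θ * (n + 1)) {g : E n → ℝ≥0∞} {z : E n} {R : ℝ}
    (hg : ∫⁻ x in closedBall z R, g x ^ q < ∞) :
    ∃ q' : ℝ, 0 < q' ∧ (n : ℝ) - 1 < θ * q' ∧ q' ≤ n + 1 ∧
      ∫⁻ x in closedBall z R, g x ^ q' < ∞ := by
  rcases le_or_gt q (n + 1) with h | h
  · exact ⟨q, hq0, hq, h, hg⟩
  · refine ⟨n + 1, by positivity, hθ, le_rfl, ?_⟩
    have hle : ∫⁻ x in closedBall z R, g x ^ ((n : ℝ) + 1) ≤
        ∫⁻ x in closedBall z R, (1 + g x ^ q) := by
      apply lintegral_mono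
      intro x
      rcases le_or_gt (g x) 1 with h1 | h1
      · calc g x ^ ((n : ℝ) + 1) ≤ 1 ^ ((n : ℝ) + 1) := ENNReal.rpow_le_rpow h1 (by positivity)
          _ = 1 := ENNReal.one_rpow _
          _ ≤ _ := le_self_add
      · exact (ENNReal.rpow_le_rpow_of_exponent_le h1.le h.le).trans le_add_self
    refine lt_of_le_of_lt hle ?_
    rw [lintegral_add_left measurable_const, lintegral_const, one_mul, Measure.restrict_apply_univ]
    exact ENNReal.add_lt_top.2 ⟨measure_closedBall_lt_top, hg⟩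

theorem sob_enS {n : ℕ} (hn : 2 ≤ n) (u : OpenPartialHomeomorph (E n) (E n)) {q0 θ : ℝ}
    (hq00 : 0 < q0) (hq0 : (n : ℝ) - 1 < θ * q0) (hθ : (n : ℝ) - 1 < θ * (n + 1))
    {g : E n → ℝ≥0∞} (hgm : Measurable g) (hHaj : HajS θ u.source u g)
    (hgq0 : ∫⁻ x in u.source, g x ^ q0 < ∞) {z0 : E n} {ρ : ℝ} (hρ : 0 < ρ)
    (hz0 : closedBall z0 (2 * ρ) ⊆ u.source) :
    ∃ m : ℕ, ∀ j, m ≤ j → En (n + 1) (closedBall z0 ρ) ((1 / 2) ^ j) (2 ^ j / (j + 1)) u := by
  classical
  have hgB : ∫⁻ x in closedBall z0 (2 * ρ), g x ^ q0 < ∞ :=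
    lt_of_le_of_lt (lintegral_mono_set hz0) hgq0
  obtain ⟨q, hq0', hq, hqn, hgq⟩ := reduceS hq00 hq0 hθ hgB
  obtain ⟨C, hC⟩ := faceS n hn q θ hq0' hq
  have hn1 : (2 : ℝ) ≤ n := by exact_mod_cast hn
  set G : ℝ := (∫⁻ x in closedBall z0 (2 * ρ), g x ^ q).toReal with hG
  have hG0 : 0 ≤ G := ENNReal.toReal_nonneg
  have hGe : ∫⁻ x in closedBall z0 (2 * ρ), g x ^ q = ENNReal.ofReal G :=
    (ENNReal.ofReal_toReal hgq.ne).symm
  set M : ℝ := (4 * n + 1) ^ n with hM
  have hM0 : 0 ≤ M := by positivity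
  have hcomp : IsCompact (u '' closedBall z0 (2 * ρ)) :=
    (isCompact_closedBall _ _).image_of_continuousOn (u.continuousOn.mono hz0)
  set D : ℝ := Metric.diam (u '' closedBall z0 (2 * ρ)) with hD
  have hD0 : 0 ≤ D := diam_nonneg
  set C1 : ℝ := D ^ ((n : ℝ) + 1 - q) * (C * M * G) with hC1
  have hC10 : 0 ≤ C1 := by positivity
  set r0 : ℝ := ρ / (2 * n) with hr0
  have hr0p : 0 < r0 := by positivity
  -- one radius
  have hone : ∀ r : ℝ, 0 < r → r ≤ r0 →
      En (n + 1) (closedBall z0 ρ) r (C1 * r ^ (θ * q - n)) u := by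
    intro r hr hrr A x y h1 hsep
    have h2n : 2 * n * r ≤ ρ := by
      calc 2 * n * r ≤ 2 * n * r0 := by gcongr
        _ = ρ := by rw [hr0]; field_simp
    have hr_le : r ≤ 2 * n * r := by nlinarith
    have hsubB : ∀ a ∈ A, closedBall a (2 * n * r) ⊆ closedBall z0 (2 * ρ) := by
      intro a ha
      have h3 := (h1 a ha).1
      rw [mem_closedBall] at h3
      exact closedBall_subset_closedBall' (by linarith)
    have hMz : ∀ z : E n, ((A.filter fun a => z ∈ closedBall a (2 * n * r)).card : ℝ≥0∞) ≤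
        ENNReal.ofReal M := by
      intro z
      rw [← ENNReal.ofReal_natCast]
      apply ENNReal.ofReal_le_ofReal
      have := Pool.Agent.Y662.SP.SOB.pack z hr (R := 2 * n * r) (by positivity)
        (A.filter fun a => z ∈ closedBall a (2 * n * r))
        (fun a ha => by
          have := (Finset.mem_filter.1 ha).2
          rw [mem_closedBall] at this
          rw [dist_comm]; exact this)
        (fun a ha b hb hab => hsep a (Finset.mem_filter.1 ha).1 b (Finset.mem_filter.1 hb).1 hab)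
      refine this.trans (le_of_eq ?_)
      rw [hM]
      congr 1
      field_simp
      ring
    have hov := overlap' (F := fun z => g z ^ q) (hgm.pow_const q) A hsubB hMz
    have hsum : ∑ a ∈ A, ENNReal.ofReal (diam (u '' closedBall a r)) ^ q ≤
        C * ENNReal.ofReal (r ^ (θ * q - n)) * (ENNReal.ofReal M * ENNReal.ofReal G) := by
      calc ∑ a ∈ A, ENNReal.ofReal (diam (u '' closedBall a r)) ^ q
          ≤ ∑ a ∈ A, C * ENNReal.ofReal (r ^ (θ * q - n)) *
            ∫⁻ z in closedBall a (2 * n * r), g z ^ q :=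
            Finset.sum_le_sum (fun a ha => hC u g hgm hHaj a r hr ((hsubB a ha).trans hz0))
        _ = C * ENNReal.ofReal (r ^ (θ * q - n)) *
            ∑ a ∈ A, ∫⁻ z in closedBall a (2 * n * r), g z ^ q := by rw [Finset.mul_sum]
        _ ≤ C * ENNReal.ofReal (r ^ (θ * q - n)) * (ENNReal.ofReal M * ENNReal.ofReal G) := by
            rw [← hGe]
            exact mul_le_mul' le_rfl hov
    have hrn : 0 ≤ r ^ (θ * q - n) := Real.rpow_nonneg hr.le _
    have hsumR : ∑ a ∈ A, diam (u '' closedBall a r) ^ q ≤ C * r ^ (θ * q - n) * (M * G) := by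
      have e1 : ∑ a ∈ A, ENNReal.ofReal (diam (u '' closedBall a r)) ^ q =
          ENNReal.ofReal (∑ a ∈ A, diam (u '' closedBall a r) ^ q) := by
        rw [ENNReal.ofReal_sum_of_nonneg (fun a _ => Real.rpow_nonneg diam_nonneg _)]
        exact Finset.sum_congr rfl
          (fun a _ => ENNReal.ofReal_rpow_of_nonneg diam_nonneg hq0'.le)
      have e2 : (C : ℝ≥0∞) * ENNReal.ofReal (r ^ (θ * q - n)) *
          (ENNReal.ofReal M * ENNReal.ofReal G) =
          ENNReal.ofReal (C * r ^ (θ * q - n) * (M * G)) := by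
        rw [ENNReal.ofReal_mul (by positivity), ENNReal.ofReal_mul (by positivity),
          ENNReal.ofReal_mul hM0, ENNReal.ofReal_coe_nnreal]
      rw [e1, e2] at hsum
      exact (ENNReal.ofReal_le_ofReal_iff (by positivity)).1 hsum
    have hterm : ∀ a ∈ A, dist (u (x a)) (u (y a)) ^ (n + 1) ≤
        D ^ ((n : ℝ) + 1 - q) * diam (u '' closedBall a r) ^ q := by
      intro a ha
      obtain ⟨-, -, -, g4, g5⟩ := h1 a ha
      have hsub1 : closedBall a r ⊆ closedBall z0 (2 * ρ) :=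
        (closedBall_subset_closedBall hr_le).trans (hsubB a ha)
      have hbd : Bornology.IsBounded (u '' closedBall a r) :=
        hcomp.isBounded.subset (image_mono hsub1)
      have hd1 : dist (u (x a)) (u (y a)) ≤ diam (u '' closedBall a r) :=
        dist_le_diam_of_mem hbd (mem_image_of_mem _ (mem_closedBall.2 g4))
          (mem_image_of_mem _ (mem_closedBall.2 g5))
      have hd2 : diam (u '' closedBall a r) ≤ D := diam_mono (image_mono hsub1) hcomp.isBounded
      have h5 : dist (u (x a)) (u (y a)) ^ (n + 1) ≤ diam (u '' closedBall a r) ^ (n + 1) :=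
        pow_le_pow_left₀ dist_nonneg hd1 _
      refine h5.trans ?_
      rcases (diam_nonneg (s := u '' closedBall a r)).eq_or_lt with h0 | h0
      · rw [← h0, Real.zero_rpow hq0'.ne', mul_zero, zero_pow (by omega)]
      · have e : diam (u '' closedBall a r) ^ (n + 1) =
            diam (u '' closedBall a r) ^ ((n : ℝ) + 1 - q) * diam (u '' closedBall a r) ^ q := by
          rw [← Real.rpow_add h0, sub_add_cancel, ← Real.rpow_natCast]
          push_cast
          rfl
        have h3 : diam (u '' closedBall a r) ^ ((n : ℝ) + 1 - q) ≤ D ^ ((n : ℝ) + 1 - q) :=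
          Real.rpow_le_rpow h0.le hd2 (by linarith)
        rw [e]
        exact mul_le_mul_of_nonneg_right h3 (Real.rpow_nonneg h0.le _)
    calc ∑ a ∈ A, dist (u (x a)) (u (y a)) ^ (n + 1)
        ≤ ∑ a ∈ A, D ^ ((n : ℝ) + 1 - q) * diam (u '' closedBall a r) ^ q :=
          Finset.sum_le_sum hterm
      _ = D ^ ((n : ℝ) + 1 - q) * ∑ a ∈ A, diam (u '' closedBall a r) ^ q := by
          rw [Finset.mul_sum]
      _ ≤ D ^ ((n : ℝ) + 1 - q) * (C * r ^ (θ * q - n) * (M * G)) := by gcongr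
      _ = C1 * r ^ (θ * q - n) := by rw [hC1]; ring
  -- the sequence
  set δ : ℝ := θ * q - n + 1 with hδ
  have hδ0 : 0 < δ := by rw [hδ]; linarith
  set s : ℝ := (1 / 2 : ℝ) ^ δ with hs
  have hs0 : 0 ≤ s := by positivity
  have hs1 : s < 1 := Real.rpow_lt_one (by norm_num) (by norm_num) hδ0
  have hl1 : Tendsto (fun j : ℕ => (j : ℝ) * s ^ j) atTop (𝓝 0) :=
    tendsto_self_mul_const_pow_of_lt_one hs0 hs1
  have hl2 : Tendsto (fun j : ℕ => s ^ j) atTop (𝓝 0) := tendsto_pow_atTop_nhds_zero_of_lt_one hs0 hs1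
  have hl3 : Tendsto (fun j : ℕ => C1 * ((j : ℝ) * s ^ j + s ^ j)) atTop (𝓝 0) := by
    simpa using (hl1.add hl2).const_mul C1
  have hl4 : Tendsto (fun j : ℕ => (1 / 2 : ℝ) ^ j) atTop (𝓝 0) :=
    tendsto_pow_atTop_nhds_zero_of_lt_one (by norm_num) (by norm_num)
  obtain ⟨m, hm⟩ := eventually_atTop.1 ((hl3.eventually (gt_mem_nhds one_pos)).and
    (hl4.eventually (gt_mem_nhds hr0p)))
  refine ⟨m, fun j hj => ?_⟩
  obtain ⟨k1, k2⟩ := hm j hj
  refine en_mono subset_rfl ?_ (hone _ (by positivity) k2.le)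
  have hj1 : (0 : ℝ) < (j : ℝ) + 1 := by positivity
  have e1 : ((1 / 2 : ℝ) ^ j) ^ (θ * q - n) = s ^ j * 2 ^ j := by
    have e2 : θ * q - n = δ - 1 := by rw [hδ]; ring
    rw [e2, Real.rpow_sub_one (by positivity), hs, Real.rpow_pow_comm (by norm_num)]
    rw [div_eq_mul_inv, ← inv_pow]
    norm_num
  rw [e1, le_div_iff₀ hj1]
  have h2j : (0 : ℝ) < 2 ^ j := by positivity
  calc C1 * (s ^ j * 2 ^ j) * (j + 1) = (C1 * ((j : ℝ) * s ^ j + s ^ j)) * 2 ^ j := by ring
    _ ≤ 1 * 2 ^ j := by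
        apply mul_le_mul_of_nonneg_right k1.le h2j.le
    _ = 2 ^ j := one_mul _

end Pool.Agent.H78HS
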