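import Pool.Agent.N512.HS.A2
import Pool.Agent.H78HS.En

/-!
# Averages with values in a Banach space
-/

set_option autoImplicit false
set_option linter.unusedSectionVars false

open MeasureTheory Set Metric Filter Topology
open scoped ENNReal NNReal

namespace Pool.Agent.H78HS

open Pool.Agent.Y485.HS Pool.Agent.Y489.SP Pool.Agent.Y475.HS Pool.Agent.R775.HS
  Pool.Agent.R775.HC Pool.Agent.N512.HS

/-- the averaging operator for functions with values in a Banach space -/
theorem exists_avgW {n : ℕ} (W : Type) [NormedAddCommGroup W] [NormedSpace ℝ W] [CompleteSpace W]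
    [SecondCountableTopology W] {X : Type} [TopologicalSpace X] [T2Space X] {H : Type} [Group H]
    [TopologicalSpace H] [IsTopologicalGroup H] [T2Space H] [MulAction H X] [ContinuousSMul H X]
    {φ : OpenPartialHomeomorph X (E n)} {g : H}
    (hcomp : IsCompact ((Subgroup.zpowers g).topologicalClosure : Set H))
    (hs : Small φ ((Subgroup.zpowers g).topologicalClosure : Set H)) :
    ∃ A : C(E n, W) → E n → W,
      (∀ ψ, ContinuousOn (A ψ) (closedBall 0 4)) ∧
      (∀ ψ, ∀ v ∈ closedBall (0 : E n) 3, ∀ k ∈ (Subgroup.zpowers g).topologicalClosure,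
        A ψ (φ (k • φ.symm v)) = A ψ v) ∧
      (∀ ψ (a : W), ∀ v ∈ closedBall (0 : E n) 4,
        (∀ k ∈ (Subgroup.zpowers g).topologicalClosure, ψ (φ (k • φ.symm v)) = a) →
          A ψ v = a) ∧
      (∀ ψ (a : W) (c : ℝ), ∀ v ∈ closedBall (0 : E n) 4,
        (∀ k ∈ (Subgroup.zpowers g).topologicalClosure, ‖ψ (φ (k • φ.symm v)) - a‖ ≤ c) →
          ‖ψ v - a‖ < c → ‖A ψ v - a‖ < c) ∧
      ∀ ψ (m : ℕ) (Q : Set (E n)) (r b : ℝ) (σ : E n → E n),
        (∀ u ∈ Q, σ u ∈ closedBall (0 : E n) 4) →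
        (∀ q ∈ (Subgroup.zpowers g).topologicalClosure,
          En m Q r b (fun u => ψ (φ (q • φ.symm (σ u))))) →
        En m Q r b (fun u => A ψ (σ u)) := by
  set K : Subgroup H := (Subgroup.zpowers g).topologicalClosure with hKdef
  have hT := locAct_of_small K hs
  set T : K → E n → E n := fun h v => φ ((h : H) • φ.symm v) with hTdef
  have hKcomp : CompactSpace K := isCompact_iff_compactSpace.1 hcomp
  let _ : MeasurableSpace K := borel K
  have _ : BorelSpace K := ⟨rfl⟩
  let μ : Measure K := Measure.haarMeasure ⊤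
  have hμ1 : IsProbabilityMeasure μ := ⟨by
    have := Measure.haarMeasure_self (K₀ := (⊤ : TopologicalSpace.PositiveCompacts K))
    simpa using this⟩
  let S : C(E n, W) → K → E n → W := fun ψ k x => ψ (T k⁻¹ x)
  have hScont : ∀ ψ, ContinuousOn (fun q : K × E n => S ψ q.1 q.2) (univ ×ˢ BB n) := by
    intro ψ
    have hc : Continuous (fun q : K × E n => (q.1⁻¹, q.2)) := by fun_prop
    refine ψ.continuous.comp_continuousOn (hT.cont.comp hc.continuousOn ?_)
    rintro ⟨k, x⟩ ⟨-, hx⟩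
    exact ⟨mem_univ _, hx⟩
  have hSc1 : ∀ ψ, ∀ x ∈ BB n, Continuous (fun k => S ψ k x) := by
    intro ψ x hx
    have hc : Continuous (fun k : K => (k, x)) := by fun_prop
    exact (hScont ψ).comp_continuous hc (fun k => ⟨mem_univ _, hx⟩)
  have hSint : ∀ ψ, ∀ x ∈ BB n, Integrable (fun k => S ψ k x) μ := fun ψ x hx =>
    (hSc1 ψ x hx).integrable_of_hasCompactSupport (HasCompactSupport.of_compactSpace _)
  have hinvm : ∀ k : K, ((k⁻¹ : K) : H) ∈ K := fun k => (k⁻¹).2
  refine ⟨fun ψ x => ∫ k, S ψ k x ∂μ, ?_, ?_, ?_, ?_, ?_⟩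
  · intro ψ
    let Φ : C(K, C(BB n, W)) :=
      ContinuousMap.curry ⟨fun q : K × BB n => S ψ q.1 q.2, by
        have h2 : Continuous (fun q : K × BB n => ((q.1, (q.2 : E n)) : K × E n)) :=
          continuous_fst.prodMk (continuous_subtype_val.comp continuous_snd)
        exact (hScont ψ).comp_continuous h2 (fun q => ⟨mem_univ _, q.2.2⟩)⟩
    have hint : Integrable (fun ω => Φ ω) μ :=
      Φ.continuous.integrable_of_hasCompactSupport (HasCompactSupport.of_compactSpace _)
    have heval : ∀ x : BB n, ∫ ω, S ψ ω x.1 ∂μ = (∫ ω, Φ ω ∂μ : C(BB n, W)) x := by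
      intro x
      have := (ContinuousMap.evalCLM ℝ x : C(BB n, W) →L[ℝ] W).integral_comp_comm hint
      exact this
    show ContinuousOn (fun x => ∫ ω, S ψ ω x ∂μ) (BB n)
    rw [continuousOn_iff_continuous_domRestrict]
    have : (BB n).domRestrict (fun x => ∫ ω, S ψ ω x ∂μ) = (∫ ω, Φ ω ∂μ : C(BB n, W)) := by
      ext1 x
      exact heval x
    rw [this]
    exact (∫ ω, Φ ω ∂μ : C(BB n, W)).continuous
  · intro ψ v hv k0 hk0
    have hvn : ‖v‖ ≤ 3 := by simpa using hv
    have hv4 : v ∈ BB n := closedBall_subset_closedBall (by norm_num) hv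
    have h2 := norm_T_le hT ⟨k0, hk0⟩ hv4
    have hgv : T ⟨k0, hk0⟩ v ∈ BB n := mem_BB.2 (by linarith)
    have h1 : ∀ k' : K, S ψ k' (T ⟨k0, hk0⟩ v) = S ψ (⟨k0, hk0⟩⁻¹ * k') v := by
      intro k'
      show ψ (T k'⁻¹ (T ⟨k0, hk0⟩ v)) = ψ (T (⟨k0, hk0⟩⁻¹ * k')⁻¹ v)
      rw [← hT.mul _ _ v hv4 hgv]
      congr 2
      simp
    show ∫ k', S ψ k' (T ⟨k0, hk0⟩ v) ∂μ = ∫ k', S ψ k' v ∂μ
    simp_rw [h1]
    exact integral_mul_left_eq_self (fun k' => S ψ k' v) (⟨k0, hk0⟩⁻¹ : K)
  · intro ψ a v hv ha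
    have h1 : ∀ k : K, S ψ k v = a := fun k => ha _ (hinvm k)
    show ∫ k, S ψ k v ∂μ = a
    simp_rw [h1]
    simp
  · intro ψ a c v hv hle0 hlt0
    have h1 : (∫ k, S ψ k v ∂μ) - a = ∫ k, (S ψ k v - a) ∂μ := by
      rw [integral_sub (hSint _ v hv) (integrable_const _)]
      simp
    show ‖(∫ k, S ψ k v ∂μ) - a‖ < c
    rw [h1]
    have hc : Continuous (fun k : K => ‖S ψ k v - a‖) :=
      ((hSc1 _ v hv).sub continuous_const).norm
    have hle : ∀ k : K, ‖S ψ k v - a‖ ≤ c := fun k => hle0 _ (hinvm k)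
    refine lt_of_le_of_lt (norm_integral_le_integral_norm _) ?_
    have hci : ∀ f : K → ℝ, Continuous f → Integrable f μ := fun f hf =>
      hf.integrable_of_hasCompactSupport (HasCompactSupport.of_compactSpace _)
    have hpos : 0 < ∫ k : K, (c - ‖S ψ k v - a‖) ∂μ := by
      refine (continuous_const.sub hc).integral_pos_of_hasCompactSupport_nonneg_nonzero (x := 1)
        (HasCompactSupport.of_compactSpace _) (fun k => sub_nonneg.2 (hle k)) ?_
      have h3 : S ψ (1 : K) v = ψ v := by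
        show ψ (T (1 : K)⁻¹ v) = ψ v
        rw [inv_one]
        exact congrArg ψ (hT.one v hv)
      rw [h3]
      exact (sub_pos.2 hlt0).ne'
    rw [integral_sub (integrable_const _) (hci _ hc)] at hpos
    simp only [integral_const, probReal_univ, one_smul] at hpos
    linarith
  · intro ψ m Q r b σ hσ hE
    exact en_avg μ (fun k u => S ψ k (σ u)) (fun u hu => hSc1 _ _ (hσ u hu))
      (fun k => hE _ (hinvm k))

end Pool.Agent.H78HS
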