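import Pool.Agent.H78HS.Eig

/-!
# Local eigenfunctions; existence of eigenfunctions without zeros
-/

set_option autoImplicit false
set_option linter.unusedSectionVars false

open Set Filter Topology

namespace Pool.Agent.H78HS

section
variable {K Y : Type} [Group K] [TopologicalSpace K] [IsTopologicalGroup K] [CompactSpace K]
  [T2Space K] [TotallyDisconnectedSpace K]
  [TopologicalSpace Y] [CompactSpace Y] [T2Space Y] [MulAction K Y] [ContinuousSMul K Y]

/-- a generator up to elements of the closure of the `p`-th powers -/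
theorem fix_of_fix {p : ℕ} (hp : p.Prime) {g : K}
    (hg : Tendsto (fun j : ℕ => g ^ p ^ j) atTop (𝓝 1)) {x : Y} {d : ℤ} (hd : ¬ (p : ℤ) ∣ d)
    {l : K} (hl : l ∈ (Subgroup.zpowers (g ^ p)).topologicalClosure)
    (h : (g ^ d * l) • x = x) : g • x = x := by
  by_contra hne
  have hW : IsOpen {u : K | (g * u) • x ≠ x} := by
    have hc : Continuous (fun u : K => (g * u) • x) := by fun_prop
    exact isOpen_ne.preimage hc
  obtain ⟨U, hU⟩ := ProfiniteGrp.exist_openNormalSubgroup_sub_open_nhds_of_one hW (by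
    show (g * 1) • x ≠ x
    rw [mul_one]
    exact hne)
  have hUn : U.toSubgroup.Normal := U.isNormal'
  have hUo : IsOpen (U.toSubgroup : Set K) := U.isOpen'
  obtain ⟨t, ht⟩ : ∃ t : ℤ, ((g ^ p) ^ t)⁻¹ * l ∈ U.toSubgroup := by
    rw [← SetLike.mem_coe, Subgroup.topologicalClosure_coe, _root_.mem_closure_iff] at hl
    have hc2 : Continuous (fun u : K => u⁻¹ * l) := by fun_prop
    obtain ⟨_, h1, ⟨t, rfl⟩⟩ := hl _ (hUo.preimage hc2) (by
      show l⁻¹ * l ∈ (U.toSubgroup : Set K)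
      rw [inv_mul_cancel]
      exact U.toSubgroup.one_mem)
    exact ⟨t, h1⟩
  obtain ⟨j, hj⟩ : ∃ j : ℕ, g ^ p ^ j ∈ U.toSubgroup :=
    (hg.eventually (hUo.mem_nhds U.toSubgroup.one_mem)).exists
  have hcop : IsCoprime (d + (p : ℤ) * t) ((p : ℤ) ^ j) := by
    apply IsCoprime.pow_right
    have hpp : Prime (p : ℤ) := Nat.prime_iff_prime_int.1 hp
    rw [isCoprime_comm, hpp.coprime_iff_not_dvd]
    intro hdvd
    exact hd ((dvd_add_left (dvd_mul_right _ _)).1 hdvd)
  obtain ⟨a, b, hab⟩ := hcop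
  have hmem : g⁻¹ * (g ^ d * l) ^ a ∈ U.toSubgroup := by
    rw [← QuotientGroup.eq]
    have hd' : (l : K ⧸ U.toSubgroup) = ((g : K ⧸ U.toSubgroup) ^ p) ^ t := by
      have h1 := (QuotientGroup.eq (s := U.toSubgroup)).2 ht
      rw [← h1]
      simp
    have hg' : (g : K ⧸ U.toSubgroup) ^ p ^ j = 1 := by
      rw [← QuotientGroup.mk_pow, QuotientGroup.eq_one_iff]
      exact hj
    rw [QuotientGroup.mk_zpow, QuotientGroup.mk_mul, hd', QuotientGroup.mk_zpow]
    set γ : K ⧸ U.toSubgroup := (g : K ⧸ U.toSubgroup)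
    have h2 : γ ^ d * (γ ^ p) ^ t = γ ^ (d + (p : ℤ) * t) := by
      rw [zpow_add, zpow_mul, zpow_natCast]
    have h3 : (γ ^ (d + (p : ℤ) * t)) ^ a = γ := by
      have h4 : γ = γ ^ (a * (d + (p : ℤ) * t) + b * (p : ℤ) ^ j) := by rw [hab, zpow_one]
      have h5 : γ ^ (b * (p : ℤ) ^ j) = 1 := by
        rw [mul_comm, zpow_mul]
        have h6 : γ ^ ((p : ℤ) ^ j) = 1 := by
          have := hg'
          rw [← zpow_natCast] at this
          push_cast at this
          exact this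
        rw [h6, one_zpow]
      have h7 : γ ^ (a * (d + (p : ℤ) * t) + b * (p : ℤ) ^ j) = γ ^ (a * (d + (p : ℤ) * t)) := by
        rw [zpow_add, h5, mul_one]
      rw [h7] at h4
      rw [← zpow_mul, mul_comm]
      exact h4.symm
    rw [h2, h3]
  have h7 : (g * (g⁻¹ * (g ^ d * l) ^ a)) • x ≠ x := hU hmem
  rw [mul_inv_cancel_left] at h7
  apply h7
  have h8 : g ^ d * l ∈ MulAction.stabilizer K x := h
  exact (MulAction.stabilizer K x).zpow_mem h8 a

/-- local eigenfunctions -/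
theorem local_eig {p : ℕ} (hp : p.Prime) {g : K}
    (hg : Tendsto (fun j : ℕ => g ^ p ^ j) atTop (𝓝 1))
    (hgK : (Subgroup.zpowers g).topologicalClosure = ⊤) {c : ℂ} (hc : c ^ p = 1) {x : Y}
    (hx : g • x ≠ x) : ∃ O : Set Y, IsOpen O ∧ Inv K O ∧ x ∈ O ∧ Eig g c O := by
  classical
  have hp0 : 0 < p := hp.pos
  set L : Subgroup K := (Subgroup.zpowers (g ^ p)).topologicalClosure with hL
  have hLc : IsCompact (L : Set K) := (Subgroup.isClosed_topologicalClosure _).isCompact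
  have hgp : g ^ p ∈ L := Subgroup.le_topologicalClosure _ (Subgroup.mem_zpowers _)
  have hcomm : ∀ l ∈ L, ∀ m : ℤ, g ^ m * l = l * g ^ m := by
    intro l hl m
    have h1 : IsClosed {l : K | g ^ m * l = l * g ^ m} := by
      have hc1 : Continuous (fun l : K => g ^ m * l) := by fun_prop
      have hc2 : Continuous (fun l : K => l * g ^ m) := by fun_prop
      exact isClosed_eq hc1 hc2
    rw [hL, ← SetLike.mem_coe, Subgroup.topologicalClosure_coe] at hl
    refine closure_minimal ?_ h1 hl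
    rintro _ ⟨i, rfl⟩
    show g ^ m * (g ^ p) ^ i = (g ^ p) ^ i * g ^ m
    rw [← zpow_natCast, ← zpow_mul, ← zpow_add, ← zpow_add, add_comm]
  -- all elements
  have hall : ∀ k : K, ∃ i < p, ∃ l ∈ L, k = g ^ i * l := by
    intro k
    have h1 : IsClosed {k : K | ∃ i < p, ∃ l ∈ L, k = g ^ i * l} := by
      have h2 : {k : K | ∃ i < p, ∃ l ∈ L, k = g ^ i * l} =
          ⋃ i ∈ Finset.range p, (fun l : K => g ^ i * l) '' (L : Set K) := by
        ext k
        simp only [mem_ofPred_eq, mem_iUnion, Finset.mem_range, mem_image, exists_prop,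
          SetLike.mem_coe]
        constructor
        · rintro ⟨i, hi, l, hl, rfl⟩
          exact ⟨i, hi, l, hl, rfl⟩
        · rintro ⟨i, hi, l, hl, rfl⟩
          exact ⟨i, hi, l, hl, rfl⟩
      rw [h2]
      refine isClosed_biUnion_finset fun i _ => ?_
      have hc : Continuous (fun l : K => g ^ i * l) := by fun_prop
      exact (hLc.image hc).isClosed
    have h2 : k ∈ ((Subgroup.zpowers g).topologicalClosure : Set K) := by
      rw [hgK]
      trivial
    rw [Subgroup.topologicalClosure_coe] at h2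
    refine closure_minimal ?_ h1 h2
    rintro _ ⟨m, rfl⟩
    have hp' : (0 : ℤ) < p := by exact_mod_cast hp0
    have h0 := Int.emod_nonneg m hp'.ne'
    have h3 := Int.emod_lt_of_pos m hp'
    refine ⟨(m % p).toNat, by omega, (g ^ p) ^ (m / p), L.zpow_mem hgp _, ?_⟩
    have e1 : g ^ ((m % p).toNat) = g ^ (m % p) := by
      rw [← zpow_natCast, Int.toNat_of_nonneg h0]
    show g ^ m = _
    rw [e1, ← zpow_natCast, ← zpow_mul, ← zpow_add, Int.emod_add_mul_ediv]
  -- elements without fixed points near `x`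
  set R : Set K := ⋃ i ∈ Finset.Ico 1 p, (fun l : K => g ^ i * l) '' (L : Set K) with hR
  have hRc : IsCompact R := (Finset.Ico 1 p).isCompact_biUnion fun i _ => by
    have hc : Continuous (fun l : K => g ^ i * l) := by fun_prop
    exact hLc.image hc
  have hRx : ∀ k ∈ R, k • x ≠ x := by
    intro k hk h
    simp only [hR, mem_iUnion, mem_image, exists_prop, Finset.mem_Ico] at hk
    obtain ⟨i, ⟨hi1, hi2⟩, l, hl, rfl⟩ := hk
    apply hx
    refine fix_of_fix hp hg (d := i) (fun hdvd => ?_) (l := l) hl (by rw [zpow_natCast]; exact h)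
    have h1 : p ∣ i := by exact_mod_cast hdvd
    exact absurd (Nat.le_of_dvd hi1 h1) (by omega)
  have hev : ∀ᶠ q : Y × Y in 𝓝 (x, x), ∀ k ∈ R, k • q.1 ≠ q.2 := by
    refine hRc.eventually_forall_of_forall_eventually
      (P := fun (q : Y × Y) (k : K) => k • q.1 ≠ q.2) ?_
    intro k hk
    have hc1 : Continuous (fun z : (Y × Y) × K => z.2 • z.1.1) := by fun_prop
    have hc2 : Continuous (fun z : (Y × Y) × K => z.1.2) := by fun_prop
    have ho : IsOpen {z : (Y × Y) × K | z.2 • z.1.1 ≠ z.1.2} := isOpen_ne_fun hc1 hc2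
    exact ho.mem_nhds (hRx k hk)
  obtain ⟨U1, hU1, U2, hU2, hUU⟩ := mem_nhds_prod_iff.1 hev
  set B : Set Y := interior (U1 ∩ U2) with hB
  have hBo : IsOpen B := isOpen_interior
  have hxB : x ∈ B := mem_interior_iff_mem_nhds.2 (inter_mem hU1 hU2)
  have hBR : ∀ k ∈ R, ∀ b ∈ B, ∀ b' ∈ B, k • b ≠ b' := by
    intro k hk b hb b' hb'
    exact hUU (⟨(interior_subset hb).1, (interior_subset hb').2⟩ : (b, b') ∈ U1 ×ˢ U2) k hk
  -- uniqueness
  have huniq : ∀ i j : ℕ, ∀ l ∈ L, ∀ l' ∈ L, ∀ b ∈ B, ∀ b' ∈ B,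
      (g ^ i * l) • b = (g ^ j * l') • b' → c ^ i = c ^ j := by
    intro i j l hl l' hl' b hb b' hb' he
    by_cases hij : (p : ℤ) ∣ (j : ℤ) - i
    · obtain ⟨m, hm⟩ := hij
      have hc0 : c ≠ 0 := by
        rintro rfl
        rw [zero_pow hp0.ne'] at hc
        exact zero_ne_one hc
      have h1 : c ^ (j : ℤ) = c ^ (i : ℤ) := by
        have h2 : (j : ℤ) = i + p * m := by omega
        rw [h2, zpow_add₀ hc0, zpow_mul, zpow_natCast c p, hc, one_zpow, mul_one]
      rw [zpow_natCast, zpow_natCast] at h1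
      exact h1.symm
    · exfalso
      have hp' : (0 : ℤ) < p := by exact_mod_cast hp0
      set d : ℤ := (j : ℤ) - i with hd
      have h0 := Int.emod_nonneg d hp'.ne'
      have h3 := Int.emod_lt_of_pos d hp'
      have h4 : d % p ≠ 0 := fun h => hij (Int.dvd_of_emod_eq_zero h)
      have hb1 : b = (g ^ (d % p).toNat * ((g ^ p) ^ (d / p) * (l⁻¹ * l'))) • b' := by
        have e1 : b = (l⁻¹ * (g ^ (i : ℤ))⁻¹) • (g ^ j * l') • b' := by
          rw [← he, smul_smul]
          have : l⁻¹ * (g ^ (i : ℤ))⁻¹ * (g ^ i * l) = 1 := by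
            rw [zpow_natCast]
            group
          rw [this, one_smul]
        rw [e1, smul_smul]
        congr 1
        have e2 : g ^ ((d % p).toNat) = g ^ (d % p) := by
          rw [← zpow_natCast, Int.toNat_of_nonneg h0]
        have e3 : g ^ (d % (p : ℤ)) * (g ^ p) ^ (d / (p : ℤ)) = g ^ d := by
          rw [← zpow_natCast g p, ← zpow_mul, ← zpow_add, Int.emod_add_mul_ediv]
        have e4 : (g ^ (i : ℤ))⁻¹ * g ^ j = g ^ d := by
          rw [← zpow_natCast g j, ← zpow_neg, ← zpow_add, hd]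
          congr 1
          ring
        calc l⁻¹ * (g ^ (i : ℤ))⁻¹ * (g ^ j * l') = l⁻¹ * ((g ^ (i : ℤ))⁻¹ * g ^ j) * l' := by
              group
          _ = g ^ d * l⁻¹ * l' := by rw [e4, hcomm _ (L.inv_mem hl) d]
          _ = g ^ (d % (p : ℤ)).toNat * ((g ^ p) ^ (d / (p : ℤ)) * (l⁻¹ * l')) := by
              rw [e2, ← mul_assoc (g ^ (d % (p : ℤ))), e3, mul_assoc]
      refine hBR _ ?_ b' hb' b hb hb1.symm
      simp only [hR, mem_iUnion, mem_image, exists_prop, Finset.mem_Ico]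
      exact ⟨(d % p).toNat, ⟨by omega, by omega⟩, _,
        L.mul_mem (L.zpow_mem hgp _) (L.mul_mem (L.inv_mem hl) hl'), rfl⟩
  -- the function
  let P : Y → ℕ → Prop := fun y i => ∃ l ∈ L, ∃ b ∈ B, y = (g ^ i * l) • b
  set O : Set Y := ⋃ k : K, (fun y => k⁻¹ • y) ⁻¹' B with hO
  have hOP : ∀ y ∈ O, ∃ i, P y i := by
    intro y hy
    obtain ⟨k, hk⟩ := mem_iUnion.1 hy
    obtain ⟨i, -, l, hl, rfl⟩ := hall k
    exact ⟨i, l, hl, _, hk, by rw [smul_inv_smul]⟩
  let Ψ : Y → ℂ := fun y => if h : ∃ i, P y i then c ^ h.choose else 0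
  have hΨ : ∀ y i, P y i → Ψ y = c ^ i := by
    intro y i hi
    have h : ∃ i, P y i := ⟨i, hi⟩
    have h1 : Ψ y = c ^ h.choose := dif_pos h
    rw [h1]
    obtain ⟨l, hl, b, hb, e1⟩ := h.choose_spec
    obtain ⟨l', hl', b', hb', e2⟩ := hi
    exact huniq _ _ l hl l' hl' b hb b' hb' (e1.symm.trans e2)
  have hc0 : c ≠ 0 := by
    rintro rfl
    rw [zero_pow hp0.ne'] at hc
    exact zero_ne_one hc
  refine ⟨O, isOpen_iUnion fun k => hBo.preimage (continuous_const_smul _), ?_, ?_, Ψ, ?_, ?_⟩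
  · intro k y hy
    obtain ⟨k', hk'⟩ := mem_iUnion.1 hy
    refine mem_iUnion.2 ⟨k * k', ?_⟩
    show (k * k')⁻¹ • k • y ∈ B
    rw [mul_inv_rev, mul_smul, inv_smul_smul]
    exact hk'
  · refine mem_iUnion.2 ⟨1, ?_⟩
    show (1 : K)⁻¹ • x ∈ B
    rw [inv_one, one_smul]
    exact hxB
  · intro y hy
    obtain ⟨i, l, hl, b, hb, rfl⟩ := hOP y hy
    have h1 : ∀ᶠ z in 𝓝 ((g ^ i * l) • b), Ψ z = c ^ i := by
      have h2 : IsOpen ((fun z => (g ^ i * l)⁻¹ • z) ⁻¹' B) :=
        hBo.preimage (continuous_const_smul _)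
      filter_upwards [h2.mem_nhds (by
        show (g ^ i * l)⁻¹ • (g ^ i * l) • b ∈ B
        rw [inv_smul_smul]
        exact hb)] with z hz
      exact hΨ z i ⟨l, hl, _, hz, by rw [smul_inv_smul]⟩
    have h3 : ContinuousAt Ψ ((g ^ i * l) • b) := by
      have h4 : ContinuousAt (fun _ : Y => c ^ i) ((g ^ i * l) • b) := continuousAt_const
      exact h4.congr (h1.mono fun z hz => hz.symm)
    exact h3.continuousWithinAt
  · intro y hy
    obtain ⟨i, hi⟩ := hOP y hy
    rw [hΨ y i hi]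
    refine ⟨pow_ne_zero _ hc0, ?_⟩
    obtain ⟨l, hl, b, hb, rfl⟩ := hi
    rw [hΨ _ (i + 1) ⟨l, hl, b, hb, by rw [smul_smul, pow_succ', mul_assoc]⟩, pow_succ']

/-- Eigenfunctions without zeros exist if there are enough invariant functions with totally
disconnected level sets. -/
theorem exists_eig {p : ℕ} (hp : p.Prime) {g : K}
    (hg : Tendsto (fun j : ℕ => g ^ p ^ j) atTop (𝓝 1))
    (hgK : (Subgroup.zpowers g).topologicalClosure = ⊤) {c : ℂ} (hc : c ^ p = 1)
    (hfix : ∀ y : Y, g • y ≠ y)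
    (hb : ∀ y : Y, ∀ O : Set Y, IsOpen O → Inv K O → y ∈ O → ∃ (ρ : Y → ℝ) (t : ℝ),
      Continuous ρ ∧ (∀ (k : K) (z : Y), ρ (k • z) = ρ z) ∧ t < ρ y ∧ (∀ z, t ≤ ρ z → z ∈ O) ∧
      IsTotallyDisconnected {z | ρ z = t}) : Eig g c (univ : Set Y) := by
  classical
  have hc0 : c ≠ 0 := by
    rintro rfl
    rw [zero_pow hp.pos.ne'] at hc
    exact zero_ne_one hc
  have h1 : ∀ y : Y, ∃ (ρ : Y → ℝ) (t : ℝ), Continuous ρ ∧
      (∀ (k : K) (z : Y), ρ (k • z) = ρ z) ∧ t < ρ y ∧ Eig g c {z | t ≤ ρ z} ∧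
      IsTotallyDisconnected {z | ρ z = t} := by
    intro y
    obtain ⟨O, hO, hOi, hyO, hOE⟩ := local_eig hp hg hgK hc (hfix y)
    obtain ⟨ρ, t, a1, a2, a3, a4, a5⟩ := hb y O hO hOi hyO
    exact ⟨ρ, t, a1, a2, a3, hOE.mono fun z hz => a4 z hz, a5⟩
  choose ρ t a1 a2 a3 a4 a5 using h1
  obtain ⟨F, -, hF⟩ := isCompact_univ.elim_nhds_subcover (fun y => {z | t y < ρ y z})
    (fun y _ => (isOpen_lt continuous_const (a1 y)).mem_nhds (a3 y))
  have key : ∀ F : Finset Y, Eig g c (⋃ y ∈ F, {z | t y ≤ ρ y z}) := by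
    intro F
    induction F using Finset.induction_on with
    | empty => exact ⟨fun _ => 0, by simp, by simp⟩
    | insert a F _ ih =>
      have hAc : IsClosed (⋃ y ∈ F, {z | t y ≤ ρ y z}) :=
        isClosed_biUnion_finset fun y _ => isClosed_le continuous_const (a1 y)
      have hAi : Inv K (⋃ y ∈ F, {z | t y ≤ ρ y z}) := by
        intro k z hz
        simp only [mem_iUnion, mem_ofPred_eq, exists_prop] at hz ⊢
        obtain ⟨y, hy, hz⟩ := hz
        exact ⟨y, hy, by rw [a2]; exact hz⟩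
      have h2 := glue (K := K) (g := g) hgK hc0
        (A := (⋃ y ∈ F, {z | t y ≤ ρ y z}) ∩ {z | ρ a z ≤ t a}) (B := {z | t a ≤ ρ a z})
        (C := {z | ρ a z = t a}) (hAc.inter (isClosed_le (a1 a) continuous_const))
        (isClosed_le continuous_const (a1 a))
        (hAi.inter fun k z hz => by
          show ρ a (k • z) ≤ t a
          rw [a2]
          exact hz)
        (fun k z hz => by
          show t a ≤ ρ a (k • z)
          rw [a2]
          exact hz)
        (a5 a) (fun z hz => le_antisymm hz.1.2 hz.2) (ih.mono inter_subset_left) (a4 a)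
      refine h2.mono ?_
      intro z hz
      rw [Finset.set_biUnion_insert] at hz
      by_cases h3 : t a ≤ ρ a z
      · exact Or.inr h3
      · exact Or.inl ⟨hz.resolve_left h3, (not_le.1 h3).le⟩
  refine (key F).mono fun z hz => ?_
  have h2 := hF hz
  simp only [mem_iUnion, mem_ofPred_eq, exists_prop] at h2 ⊢
  obtain ⟨y, hy, h3⟩ := h2
  exact ⟨y, hy, h3.le⟩

end

end Pool.Agent.H78HS
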