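import Pool.Agent.N512.CC.E3
import Pool.Agent.H78HS.Avg
import Pool.Agent.H78HS.Eig2

/-!
# Eigenfunctions on the fibres of averages
-/

set_option autoImplicit false
set_option linter.unusedSectionVars false

open MeasureTheory Set Metric Filter Topology TopologicalSpace
open scoped ENNReal NNReal

namespace Pool.Agent.H78HS

open Pool.Agent.Y485.HS Pool.Agent.Y489.SP Pool.Agent.Y475.HS Pool.Agent.R775.HS
  Pool.Agent.R775.HC Pool.Agent.N512.HS Pool.Agent.N512.CC

/-- the closure of the powers, as a subgroup of itself -/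
theorem closure_self {H : Type} [Group H] [TopologicalSpace H] [IsTopologicalGroup H] (g : H)
    (hg : g ∈ (Subgroup.zpowers g).topologicalClosure) :
    (Subgroup.zpowers (⟨g, hg⟩ : (Subgroup.zpowers g).topologicalClosure)).topologicalClosure
      = ⊤ := by
  rw [eq_top_iff]
  intro k _
  rw [← SetLike.mem_coe, Subgroup.topologicalClosure_coe, closure_subtype]
  have h1 := k.2
  rw [← SetLike.mem_coe, Subgroup.topologicalClosure_coe] at h1
  refine closure_mono ?_ h1
  rintro _ ⟨j, rfl⟩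
  exact ⟨(⟨g, hg⟩ : (Subgroup.zpowers g).topologicalClosure) ^ j, ⟨j, rfl⟩, by simp⟩

section
variable {n : ℕ} {X : Type} [TopologicalSpace X] [T2Space X] {H : Type} [Group H]
  [TopologicalSpace H] [IsTopologicalGroup H] [T2Space H] [TotallyDisconnectedSpace H]
  [MulAction H X] [ContinuousSMul H X]

/-- The eigenfunction on one fibre. -/
theorem fib_eig {φ : OpenPartialHomeomorph X (E n)} {g : H} {p : ℕ} (hp : p.Prime)
    (hg : Tendsto (fun j : ℕ => g ^ p ^ j) atTop (𝓝 1))
    (hcomp : IsCompact ((Subgroup.zpowers g).topologicalClosure : Set H))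
    (hs : Small φ ((Subgroup.zpowers g).topologicalClosure : Set H)) {F : E n → E n}
    (hF1 : ContinuousOn F (closedBall 0 4))
    (hF2 : ∀ v ∈ closedBall (0 : E n) 4, dist (F v) v < 1 / 4)
    (hF3 : ∀ v ∈ closedBall (0 : E n) 3, ∀ k ∈ (Subgroup.zpowers g).topologicalClosure,
      F (φ (k • φ.symm v)) = F v)
    (hF4 : ∀ v ∈ closedBall (0 : E n) 3, g • φ.symm v = φ.symm v → F v = v)
    {ι : Type} {ρ : ι → E n → ℝ} (hρ1 : ∀ i, ContinuousOn (ρ i) (closedBall 0 4))
    (hρ2 : ∀ i, ∀ v ∈ closedBall (0 : E n) 3, ∀ k ∈ (Subgroup.zpowers g).topologicalClosure,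
      ρ i (φ (k • φ.symm v)) = ρ i v)
    (hρ3 : ∀ v ∈ closedBall (0 : E n) 3, ∀ δ : ℝ, 0 < δ → ∃ i, 0 < ρ i v ∧
      ∀ w ∈ closedBall (0 : E n) 3, 0 < ρ i w →
        ∃ k ∈ (Subgroup.zpowers g).topologicalClosure, dist (φ (k • φ.symm w)) v < δ)
    {y : E n} (hy : y ∈ ball (0 : E n) 1) (hgy : g • φ.symm y ≠ φ.symm y)
    (hlev : ∀ i, ∀ᵐ s : ℝ, ∀ C ⊆ closedBall (0 : E n) 3, IsPreconnected C →
      (∀ v ∈ C, φ.symm v ∈ closure {x : X | InfOrbit g x}) → (∀ v ∈ C, F v = y) →
      (∀ v ∈ C, ρ i v = s) → C.Subsingleton) :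
    ∃ Ψ : E n → ℂ, ContinuousOn Ψ {v | v ∈ closedBall (0 : E n) 3 ∧ F v = y ∧
          φ.symm v ∈ closure {x : X | InfOrbit g x}} ∧
        ∀ v ∈ {v | v ∈ closedBall (0 : E n) 3 ∧ F v = y ∧
          φ.symm v ∈ closure {x : X | InfOrbit g x}}, Ψ v ≠ 0 ∧
            Ψ (φ (g • φ.symm v)) = Complex.exp (2 * Real.pi * Complex.I / p) * Ψ v := by
  classical
  obtain ⟨ht, hsm⟩ := hs
  have h34 : closedBall (0 : E n) 3 ⊆ closedBall 0 4 := closedBall_subset_closedBall (by norm_num)
  have hgmem : g ∈ (Subgroup.zpowers g).topologicalClosure :=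
    Subgroup.le_topologicalClosure _ (Subgroup.mem_zpowers g)
  set K : Subgroup H := (Subgroup.zpowers g).topologicalClosure with hKdef
  set I : Set X := closure {x : X | InfOrbit g x} with hI
  -- the fibre
  set Y : Set X := {x | x ∈ φ.source ∧ φ x ∈ closedBall (0 : E n) 3 ∧ F (φ x) = y ∧ x ∈ I} with hY
  have hyn : ‖y‖ < 1 := by simpa using hy
  have hYn : ∀ x ∈ Y, ‖φ x‖ < 5 / 4 := by
    rintro x ⟨-, h2, h3, -⟩
    have h4 := hF2 _ (h34 h2)
    rw [h3, dist_eq_norm] at h4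
    calc ‖φ x‖ = ‖y - (y - φ x)‖ := by congr 1; abel
      _ ≤ ‖y‖ + ‖y - φ x‖ := norm_sub_le _ _
      _ < 5 / 4 := by linarith
  have hYinv : ∀ k ∈ K, ∀ x ∈ Y, k • x ∈ Y := by
    intro k hk x hx
    have hxn := hYn x hx
    obtain ⟨h1, h2, h3, h4⟩ := hx
    have h5 := hsm k hk (φ x) (h34 h2)
    rw [φ.left_inv h1] at h5
    have h6 := hF3 (φ x) h2 k hk
    rw [φ.left_inv h1] at h6
    refine ⟨h5.1, ?_, by rw [h6]; exact h3, ?_⟩
    · have h7 := h5.2
      rw [dist_eq_norm] at h7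
      rw [mem_closedBall, dist_zero_right]
      calc ‖φ (k • x)‖ = ‖(φ (k • x) - φ x) + φ x‖ := by congr 1; abel
        _ ≤ ‖φ (k • x) - φ x‖ + ‖φ x‖ := norm_add_le _ _
        _ ≤ 3 := by linarith
    · exact clI_closure hk h4
  have hYimg : Y = φ.symm '' {v | v ∈ closedBall (0 : E n) 3 ∧ F v = y ∧ φ.symm v ∈ I} := by
    ext x
    constructor
    · rintro ⟨h1, h2, h3, h4⟩
      exact ⟨φ x, ⟨h2, h3, by rw [φ.left_inv h1]; exact h4⟩, φ.left_inv h1⟩
    · rintro ⟨v, ⟨h1, h2, h3⟩, rfl⟩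
      have h4 := ht (h34 h1)
      refine ⟨φ.map_target h4, ?_, ?_, h3⟩
      · rw [φ.right_inv h4]
        exact h1
      · rw [φ.right_inv h4]
        exact h2
  have hsc : ContinuousOn φ.symm (closedBall (0 : E n) 3) := φ.continuousOn_symm.mono (h34.trans ht)
  have hYc : IsCompact Y := by
    rw [hYimg]
    refine IsCompact.image_of_continuousOn ?_ (hsc.mono fun v hv => hv.1)
    have h1 : {v | v ∈ closedBall (0 : E n) 3 ∧ F v = y ∧ φ.symm v ∈ I} =
        (closedBall (0 : E n) 3 ∩ F ⁻¹' {y}) ∩ (closedBall (0 : E n) 3 ∩ φ.symm ⁻¹' I) := by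
      ext v
      simp only [mem_ofPred_eq, mem_inter_iff, mem_preimage, mem_singleton_iff]
      tauto
    rw [h1]
    refine IsCompact.of_isClosed_subset (isCompact_closedBall 0 3) ?_
      (inter_subset_left.trans inter_subset_left)
    refine IsClosed.inter ?_ ?_
    · exact (hF1.mono h34).preimage_isClosed_of_isClosed isClosed_closedBall isClosed_singleton
    · exact hsc.preimage_isClosed_of_isClosed isClosed_closedBall isClosed_closure
  have hKc : CompactSpace K := isCompact_iff_compactSpace.1 hcomp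
  have hYcs : CompactSpace Y := isCompact_iff_compactSpace.1 hYc
  let _ : MulAction K Y :=
    { smul := fun k x => ⟨(k : H) • (x : X), hYinv k k.2 x x.2⟩
      one_smul := fun x => Subtype.ext (one_smul H (x : X))
      mul_smul := fun k k' x => Subtype.ext (mul_smul (k : H) (k' : H) (x : X)) }
  have hsmul : ∀ (k : K) (x : Y), ((k • x : Y) : X) = (k : H) • (x : X) := fun _ _ => rfl
  have _ : ContinuousSMul K Y := ⟨by
    refine Continuous.subtype_mk ?_ _
    fun_prop⟩
  have hKt : TotallyDisconnectedSpace K := inferInstance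
  set g' : K := ⟨g, hgmem⟩ with hg'
  have hgt : Tendsto (fun j : ℕ => g' ^ p ^ j) atTop (𝓝 1) := by
    rw [tendsto_subtype_rng]
    exact hg
  have hgK : (Subgroup.zpowers g').topologicalClosure = ⊤ := closure_self g hgmem
  have hc : Complex.exp (2 * Real.pi * Complex.I / p) ^ p = 1 := by
    rw [← Complex.exp_nat_mul]
    have h1 : (p : ℂ) ≠ 0 := by exact_mod_cast hp.ne_zero
    rw [mul_div_cancel₀ _ h1]
    exact Complex.exp_two_pi_mul_I
  have hφY : Continuous (fun x : Y => φ (x : X)) :=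
    φ.continuousOn.comp_continuous continuous_subtype_val fun x => x.2.1
  obtain ⟨Ψ, hΨ1, hΨ2⟩ := exists_eig (K := K) (Y := Y) hp hgt hgK hc (by
    intro x hx
    have h1 : g • (x : X) = x := by
      have := congrArg Subtype.val hx
      exact this
    obtain ⟨h2, h3, h4, h5⟩ := x.2
    have h6 := hF4 (φ x) h3 (by rw [φ.left_inv h2]; exact h1)
    rw [h4] at h6
    apply hgy
    rw [h6, φ.left_inv h2]
    exact h1) (by
    intro x O hO hOi hxO
    obtain ⟨O', hO', hOO'⟩ := isOpen_induced_iff.1 hO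
    obtain ⟨h2, h3, h4, h5⟩ := x.2
    have hxO' : (x : X) ∈ O' := by
      rw [← hOO'] at hxO
      exact hxO
    have h6 : φ.symm ⁻¹' O' ∈ 𝓝 (φ x) := by
      have h7 : ContinuousAt φ.symm (φ x) := φ.continuousAt_symm (φ.map_source h2)
      apply h7
      rw [φ.left_inv h2]
      exact hO'.mem_nhds hxO'
    obtain ⟨δ, hδ, hball⟩ := Metric.mem_nhds_iff.1 h6
    obtain ⟨i, hi1, hi2⟩ := hρ3 (φ x) h3 δ hδ
    have h8 : (Ioo 0 (ρ i (φ x))) ∈ 𝓝 (ρ i (φ x) / 2) :=
      isOpen_Ioo.mem_nhds ⟨by linarith, by linarith⟩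
    obtain ⟨t, ht1, ht2⟩ := (mem_closure_iff_nhds.1 (Measure.dense_of_ae (hlev i)
      (ρ i (φ x) / 2))) _ h8
    refine ⟨fun z => ρ i (φ (z : X)), t, ?_, ?_, ht1.2, ?_, ?_⟩
    · exact (hρ1 i).comp_continuous hφY fun z => h34 z.2.2.1
    · intro k z
      have h9 := hρ2 i (φ (z : X)) z.2.2.1 k k.2
      rw [φ.left_inv z.2.1] at h9
      exact h9
    · intro z hz
      obtain ⟨k, hk, hkd⟩ := hi2 (φ (z : X)) z.2.2.1 (lt_of_lt_of_le ht1.1 hz)
      rw [φ.left_inv z.2.1] at hkd
      have h9 : (⟨k, hk⟩ : K) • z ∈ O := by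
        rw [← hOO']
        show k • (z : X) ∈ O'
        have h10 := hball hkd
        rw [mem_preimage, φ.left_inv (hYinv k hk z z.2).1] at h10
        exact h10
      have h10 := hOi (⟨k, hk⟩ : K)⁻¹ _ h9
      rwa [inv_smul_smul] at h10
    · intro S hS hSp
      have h9 : ((fun x : Y => φ (x : X)) '' S).Subsingleton := by
        refine ht2 _ ?_ (hSp.image _ hφY.continuousOn) ?_ ?_ ?_
        · rintro _ ⟨z, -, rfl⟩
          exact z.2.2.1
        · rintro _ ⟨z, -, rfl⟩
          simp only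
          rw [φ.left_inv z.2.1]
          exact z.2.2.2.2
        · rintro _ ⟨z, -, rfl⟩
          exact z.2.2.2.1
        · rintro _ ⟨z, hz, rfl⟩
          exact hS hz
      intro a ha b hb
      exact Subtype.ext (φ.injOn a.2.1 b.2.1 (h9 (mem_image_of_mem _ ha) (mem_image_of_mem _ hb))))
  -- back to the chart
  have hVY : ∀ v ∈ {v | v ∈ closedBall (0 : E n) 3 ∧ F v = y ∧ φ.symm v ∈ I},
      φ.symm v ∈ Y := by
    intro v hv
    rw [hYimg]
    exact ⟨v, hv, rfl⟩
  set Ψ' : E n → ℂ := fun v => if h : φ.symm v ∈ Y then Ψ ⟨φ.symm v, h⟩ else 0 with hΨ'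
  have hΨ'v : ∀ v (h : φ.symm v ∈ Y), Ψ' v = Ψ ⟨φ.symm v, h⟩ := fun v h => dif_pos h
  refine ⟨Ψ', ?_, ?_⟩
  · rw [continuousOn_iff_continuous_domRestrict]
    have h1 : Continuous (fun v : {v | v ∈ closedBall (0 : E n) 3 ∧ F v = y ∧ φ.symm v ∈ I} =>
        (⟨φ.symm (v : E n), hVY v v.2⟩ : Y)) := by
      refine Continuous.subtype_mk ?_ _
      exact hsc.comp_continuous continuous_subtype_val fun v => v.2.1
    have h2 : Continuous Ψ := continuousOn_univ.1 hΨ1
    refine (h2.comp h1).congr fun v => ?_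
    exact (hΨ'v v (hVY v v.2)).symm
  · intro v hv
    have h1 := hVY v hv
    have h2 := hYinv g hgmem _ h1
    have h3 : φ.symm (φ (g • φ.symm v)) = g • φ.symm v := φ.left_inv h2.1
    have h4 : φ.symm (φ (g • φ.symm v)) ∈ Y := by rw [h3]; exact h2
    rw [hΨ'v v h1, hΨ'v _ h4]
    have h5 : (⟨φ.symm (φ (g • φ.symm v)), h4⟩ : Y) = g' • ⟨φ.symm v, h1⟩ :=
      Subtype.ext h3
    rw [h5]
    exact hΨ2 _ (mem_univ _)

/-- The main lemma: the average and the invariant functions. -/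
theorem exists_circ {φ : OpenPartialHomeomorph X (E n)} {g : H} {p : ℕ} (hp : p.Prime)
    (hg : Tendsto (fun j : ℕ => g ^ p ^ j) atTop (𝓝 1))
    (hcomp : IsCompact ((Subgroup.zpowers g).topologicalClosure : Set H))
    (hs : Small φ ((Subgroup.zpowers g).topologicalClosure : Set H)) :
    ∃ (F : E n → E n) (ρ : ℕ × ℕ → E n → ℝ), ContinuousOn F (closedBall 0 4) ∧
      (∀ i, ContinuousOn (ρ i) (closedBall 0 4)) ∧
      (∀ (Q : Set (E n)) (r b : ℝ) (σ : E n → E n), (∀ u ∈ Q, σ u ∈ closedBall (0 : E n) 4) →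
        (∀ q ∈ (Subgroup.zpowers g).topologicalClosure,
          En (n + 1) Q r b (fun u => φ (q • φ.symm (σ u)))) →
        En (n + 1) Q r b (fun u => F (σ u)) ∧ ∀ i, En (n + 1) Q r b (fun u => ρ i (σ u))) ∧
      ((∀ᵐ y : E n, ∀ i, ∀ᵐ s : ℝ, ∀ C ⊆ closedBall (0 : E n) 3, IsPreconnected C →
        (∀ v ∈ C, φ.symm v ∈ closure {x : X | InfOrbit g x}) → (∀ v ∈ C, F v = y) →
        (∀ v ∈ C, ρ i v = s) → C.Subsingleton) → GoodCirc φ g p) := by
  classical
  obtain ⟨A, hA1, hA2, hA3, hA4, hA5⟩ := exists_avgW (E n) hcomp hs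
  obtain ⟨B, hB1, hB2, hB3, hB4, hB5⟩ := exists_avgW ℝ hcomp hs
  have ht := hs.1
  have hsm := hs.2
  have hgmem : g ∈ (Subgroup.zpowers g).topologicalClosure :=
    Subgroup.le_topologicalClosure _ (Subgroup.mem_zpowers g)
  have h34 : closedBall (0 : E n) 3 ⊆ closedBall 0 4 := closedBall_subset_closedBall (by norm_num)
  let ψ : ℕ × ℕ → C(E n, ℝ) := fun i =>
    ⟨fun z => max 0 (1 / ((i.2 : ℝ) + 1) - dist z (denseSeq (E n) i.1)), by fun_prop⟩
  have hψ : ∀ i z, ψ i z = max 0 (1 / ((i.2 : ℝ) + 1) - dist z (denseSeq (E n) i.1)) :=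
    fun _ _ => rfl
  have hψ0 : ∀ i z, 0 ≤ ψ i z := fun i z => le_max_left _ _
  have hψ1 : ∀ i z, ψ i z ≤ 1 / ((i.2 : ℝ) + 1) := by
    intro i z
    rw [hψ]
    refine max_le (by positivity) ?_
    have := dist_nonneg (x := z) (y := denseSeq (E n) i.1)
    linarith
  have hψd : ∀ i z z', dist (ψ i z) (ψ i z') ≤ dist z z' := by
    intro i z z'
    have h1 := dist_triangle z z' (denseSeq (E n) i.1)
    have h2 := dist_triangle_left z' (denseSeq (E n) i.1) z
    rw [hψ, hψ, Real.dist_eq]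
    refine (abs_max_sub_max_le_max _ _ _ _).trans (max_le ?_ ?_)
    · rw [sub_self, abs_zero]
      exact dist_nonneg
    · rw [abs_le]
      constructor <;> linarith
  refine ⟨A (ContinuousMap.id _), fun i => B (ψ i), hA1 _, fun i => hB1 _, ?_, ?_⟩
  · intro Q r b σ hσ hE
    refine ⟨hA5 _ _ Q r b σ hσ hE, fun i => hB5 _ _ Q r b σ hσ fun q hq => ?_⟩
    intro F x y h1 h2
    refine le_trans (Finset.sum_le_sum fun a _ => ?_) (hE q hq F x y h1 h2)
    exact pow_le_pow_left₀ dist_nonneg (hψd i _ _) _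
  · intro hae
    have hfixall : ∀ v ∈ closedBall (0 : E n) 3, g • φ.symm v = φ.symm v →
        A (ContinuousMap.id _) v = v := by
      intro v hv hgv
      refine hA3 _ _ v (h34 hv) fun k hk => ?_
      show φ (k • φ.symm v) = v
      rw [fix_closure hk hgv, φ.right_inv (ht (h34 hv))]
    have hclose : ∀ v ∈ closedBall (0 : E n) 4, dist (A (ContinuousMap.id _) v) v < 1 / 4 := by
      intro v hv
      rw [dist_eq_norm]
      refine hA4 _ v (1 / 4) v hv (fun k hk => ?_) ?_
      · rw [← dist_eq_norm]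
        exact (hsm k hk v hv).2
      · simp
    refine ⟨A (ContinuousMap.id _), hA1 _, hclose, fun v hv => hA2 _ v hv g hgmem, hfixall, ?_⟩
    intro y0 hy0
    rw [mem_closure_iff_nhds]
    intro U hU
    obtain ⟨y, ⟨hyU, hy1⟩, hy⟩ := (mem_closure_iff_nhds.1 (Measure.dense_of_ae hae y0)) _
      (inter_mem hU (isOpen_ball.mem_nhds hy0))
    refine ⟨y, hyU, hy1, ?_⟩
    by_cases hgy : g • φ.symm y = φ.symm y
    · exact Or.inl hgy
    right
    refine fib_eig hp hg hcomp hs (hA1 _) hclose (hA2 _) hfixall (ρ := fun i => B (ψ i))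
      (fun i => hB1 _) (fun i => hB2 _) ?_ hy1 hgy hy
    intro v hv δ hδ
    obtain ⟨m, hm⟩ := exists_nat_one_div_lt (half_pos hδ)
    obtain ⟨w, hw, a, rfl⟩ := (denseRange_denseSeq (E n)).inter_open_nonempty
      (ball v (1 / ((m : ℝ) + 1))) isOpen_ball ⟨v, mem_ball_self (by positivity)⟩
    rw [mem_ball, dist_comm] at hw
    refine ⟨(a, m), ?_, ?_⟩
    · -- positivity
      have h1 : ‖B (ψ (a, m)) v - 1 / ((m : ℝ) + 1)‖ < 1 / ((m : ℝ) + 1) := by
        refine hB4 _ _ _ v (h34 hv) (fun k _ => ?_) ?_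
        · rw [Real.norm_eq_abs, abs_le]
          constructor
          · linarith [hψ0 (a, m) (φ (k • φ.symm v))]
          · have := hψ1 (a, m) (φ (k • φ.symm v))
            have h3 : 0 < 1 / ((m : ℝ) + 1) := by positivity
            simp only at this
            linarith
        · have h2 : 0 < ψ (a, m) v := by
            rw [hψ]
            refine lt_max_of_lt_right ?_
            simp only
            linarith
          have := hψ1 (a, m) v
          simp only at this
          rw [Real.norm_eq_abs, abs_lt]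
          constructor
          · linarith
          · have h3 : 0 < 1 / ((m : ℝ) + 1) := by positivity
            linarith
      rw [Real.norm_eq_abs, abs_lt] at h1
      linarith [h1.1]
    · intro w hw3 hwpos
      by_contra hcon
      push Not at hcon
      have h1 : B (ψ (a, m)) w = 0 := by
        refine hB3 _ _ w (h34 hw3) fun k hk => ?_
        rw [hψ]
        refine max_eq_left ?_
        have h2 := hcon k hk
        have h3 := dist_triangle_right (φ (k • φ.symm w)) v (denseSeq (E n) a)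
        simp only
        linarith
      linarith

end

end Pool.Agent.H78HS
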