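import Pool.Agent.H78HS.Coset

/-!
# Cosets with small energies on the closure of the infinite orbits, two charts

Adaptation of `Pool/Agent/H78HS/Coset.lean`.
-/

set_option autoImplicit false
set_option linter.unusedSectionVars false

open MeasureTheory Set Metric Filter Topology TopologicalSpace
open scoped ENNReal NNReal

namespace Pool.Agent.H78HS

open Pool.Agent.Y485.HS Pool.Agent.Y489.SP Pool.Agent.Y475.HS Pool.Agent.R775.HS
  Pool.Agent.R775.HC Pool.Agent.N512.HS Pool.Agent.N512.CC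

section
variable {n : ℕ} {X : Type} [TopologicalSpace X]

/-- the part of the set `B` of a chart in the set `Z` -/
def zs (ψ : OpenPartialHomeomorph X (E n)) (Z : Set X) (B : Set (E n)) : Set (E n) :=
  {v | v ∈ B ∧ ψ.symm v ∈ Z}

/-- a coset with small energies on the closure of the set of the points of infinite orbit -/
theorem coset_triv (hn : 1 ≤ n) [T2Space X] {S : Type} [Group S] [TopologicalSpace S]
    [IsTopologicalGroup S] [CompactSpace S] [T2Space S] [TotallyDisconnectedSpace S]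
    [MulAction S X] [ContinuousSMul S X] {φ χ : OpenPartialHomeomorph X (E n)} {g s1 : S}
    {B : Set (E n)} (hBo : IsOpen B) (hBt : B ⊆ φ.target)
    (hs1 : ∀ v ∈ B, s1 • φ.symm v ∈ χ.source) {r b : ℕ → ℝ} (hr : ∀ j, 0 < r j)
    (hrb : Tendsto (fun j => r j * b j) atTop (𝓝 0)) {m : ℕ} {K : Subgroup S}
    (hKc : IsClosed (K : Set S)) (hKg : ∀ k ∈ K, k ∈ (Subgroup.zpowers g).topologicalClosure)
    (hK : ∀ k ∈ K, ∀ j, m ≤ j →
      En (n + 1) (zs φ (closure {x : X | InfOrbit g x}) B) (r j) (b j)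
        (fun v => χ ((s1 * k) • φ.symm v))) {v1 : E n}
    (hv1 : v1 ∈ B) :
    ∃ K1 : Subgroup K, IsOpen (K1 : Set K) ∧
      ∀ᶠ x in 𝓝 (φ.symm v1), ∀ k ∈ K1, k • x = x := by
  have : CompactSpace K := isCompact_iff_compactSpace.1 hKc.isCompact
  let A : Set (OpenPartialHomeomorph X (E n)) := {φ' | φ'.source ⊆ φ.source ∩ φ ⁻¹' B ∧
    ∃ L : ℝ, 0 ≤ L ∧ ∀ a ∈ φ'.source, ∀ a' ∈ φ'.source,
      dist (φ' a) (φ' a') ≤ L * dist (χ (s1 • a)) (χ (s1 • a'))}
  have hA : Stable n A := by
    rintro φ' ⟨h1, L, hL0, hL⟩ e ⟨L', hL'⟩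
    have hsub : (φ'.trans e).source ⊆ φ'.source := by
      rw [OpenPartialHomeomorph.trans_source]
      exact inter_subset_left
    refine ⟨hsub.trans h1, |L'| * L, by positivity, fun a ha a' ha' => ?_⟩
    have ha2 := ha
    have ha2' := ha'
    rw [OpenPartialHomeomorph.trans_source] at ha2 ha2'
    have e1 := (hL' (φ' a) ha2.2 (φ' a') ha2'.2).1
    have e2 := hL a (hsub ha) a' (hsub ha')
    calc dist ((φ'.trans e) a) ((φ'.trans e) a') ≤ L' * dist (φ' a) (φ' a') := e1
      _ ≤ |L'| * dist (φ' a) (φ' a') := mul_le_mul_of_nonneg_right (le_abs_self _) dist_nonneg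
      _ ≤ |L'| * (L * dist (χ (s1 • a)) (χ (s1 • a'))) := by gcongr
      _ = _ := by ring
  have hO : IsOpen (φ.source ∩ φ ⁻¹' B) := φ.isOpen_inter_preimage hBo
  have hx1 : φ.symm v1 ∈ RegA A := by
    refine ⟨((Homeomorph.smul s1).toOpenPartialHomeomorph.trans χ).restrOpen _ hO, ⟨?_, 1,
      zero_le_one, ?_⟩, ?_⟩
    · rw [OpenPartialHomeomorph.restrOpen_source]
      exact inter_subset_right
    · intro a _ a' _
      rw [one_mul]
      exact le_of_eq rfl
    · rw [OpenPartialHomeomorph.restrOpen_source, OpenPartialHomeomorph.trans_source]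
      refine ⟨⟨mem_univ _, ?_⟩, φ.map_target (hBt hv1), ?_⟩
      · show s1 • φ.symm v1 ∈ χ.source
        exact hs1 v1 hv1
      · show φ (φ.symm v1) ∈ B
        rw [φ.right_inv (hBt hv1)]
        exact hv1
  have hcrit : ∀ k : K, CritK A k := by
    intro k p' hp' hkp' hcomp φ' hφ' hsm
    obtain ⟨hφs, L, hL0, hL⟩ := hφ'
    obtain ⟨F0, ρ, f1, f2, f3, f4⟩ := exists_circ (H := K) hp' hkp' hcomp hsm
    refine triv_of_good hCIRC hn hp' hkp' hcomp hsm (f4 ?_)
    have h34 : closedBall (0 : E n) 3 ⊆ closedBall 0 4 :=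
      closedBall_subset_closedBall (by norm_num)
    have ht3 : closedBall (0 : E n) 3 ⊆ φ'.target := h34.trans hsm.1
    have hτs : ∀ v ∈ closedBall (0 : E n) 3, φ'.symm v ∈ φ'.source := fun v hv =>
      φ'.map_target (ht3 hv)
    have hτφ : ∀ v ∈ closedBall (0 : E n) 3, φ.symm (φ (φ'.symm v)) = φ'.symm v := fun v hv =>
      φ.left_inv (hφs (hτs v hv)).1
    -- the coordinates
    set τ : E n → E n := fun v => φ (φ'.symm v) with hτ
    set σ : E n → E n := fun u => φ' (φ.symm u) with hσ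
    have hτc : ContinuousOn τ (closedBall 0 3) :=
      φ.continuousOn.comp (φ'.continuousOn_symm.mono ht3) fun v hv => (hφs (hτs v hv)).1
    have hστ : ∀ v ∈ closedBall (0 : E n) 3, σ (τ v) = v := by
      intro v hv
      show φ' (φ.symm (φ (φ'.symm v))) = v
      rw [hτφ v hv, φ'.right_inv (ht3 hv)]
    have hτB : τ '' closedBall 0 3 ⊆ B := by
      rintro _ ⟨v, hv, rfl⟩
      exact (hφs (hτs v hv)).2
    have hτcomp : IsCompact (τ '' closedBall 0 3) :=
      (isCompact_closedBall 0 3).image_of_continuousOn hτc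
    set Q : Set (E n) := τ '' closedBall 0 3 ∩ φ.symm ⁻¹' (closure {x : X | InfOrbit g x}) with hQ
    have hQc : IsCompact Q := by
      refine hτcomp.of_isClosed_subset ?_ inter_subset_left
      exact (φ.continuousOn_symm.mono (hτB.trans hBt)).preimage_isClosed_of_isClosed
        hτcomp.isClosed isClosed_closure
    have hσc : ContinuousOn σ (τ '' closedBall 0 3) := by
      refine φ'.continuousOn.comp (φ.continuousOn_symm.mono ?_) ?_
      · rintro _ ⟨v, hv, rfl⟩
        exact φ.map_source (hφs (hτs v hv)).1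
      · rintro _ ⟨v, hv, rfl⟩
        show φ.symm (φ (φ'.symm v)) ∈ φ'.source
        rw [hτφ v hv]
        exact hτs v hv
    have hσm : ∀ u ∈ Q, σ u ∈ closedBall (0 : E n) 4 := by
      rintro _ ⟨⟨v, hv, rfl⟩, -⟩
      rw [hστ v hv]
      exact h34 hv
    have hval : ∀ u ∈ Q, u ∈ zs φ (closure {x : X | InfOrbit g x}) B ∧ φ'.symm (σ u) = φ.symm u ∧
        ∀ q : K, q ∈ (Subgroup.zpowers k).topologicalClosure →
          (q : S) • φ.symm u ∈ φ'.source := by
      rintro _ ⟨⟨v, hv, rfl⟩, hvP⟩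
      have e1 := hτφ v hv
      refine ⟨⟨(hφs (hτs v hv)).2, hvP⟩, ?_, fun q hq => ?_⟩
      · show φ'.symm (φ' (φ.symm (φ (φ'.symm v)))) = φ.symm (φ (φ'.symm v))
        rw [e1, φ'.left_inv (hτs v hv)]
      · show (q : S) • φ.symm (φ (φ'.symm v)) ∈ φ'.source
        rw [e1]
        exact (hsm.2 q hq v (h34 hv)).1
    have hen : ∀ j, En (n + 1) Q (r (j + m)) (L ^ (n + 1) * b (j + m)) (fun u => F0 (σ u)) ∧
        ∀ i, En (n + 1) Q (r (j + m)) (L ^ (n + 1) * b (j + m)) (fun u => ρ i (σ u)) := by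
      intro j
      refine f3 Q _ _ σ hσm fun q hq => ?_
      intro F x y h1 h2
      have h3 := hK (q : S) q.2 (j + m) (by omega) F x y (fun a ha => by
        obtain ⟨g1, g2, g3, g4⟩ := h1 a ha
        exact ⟨(hval _ g1).1, (hval _ g2).1, (hval _ g3).1, g4⟩) h2
      calc ∑ a ∈ F, dist (φ' (q • φ'.symm (σ (x a)))) (φ' (q • φ'.symm (σ (y a)))) ^ (n + 1)
          ≤ ∑ a ∈ F, L ^ (n + 1) * dist (χ ((s1 * (q : S)) • φ.symm (x a)))
              (χ ((s1 * (q : S)) • φ.symm (y a))) ^ (n + 1) := by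
            refine Finset.sum_le_sum fun a ha => ?_
            obtain ⟨-, g2, g3, -⟩ := h1 a ha
            obtain ⟨-, hx2, hx3⟩ := hval _ g2
            obtain ⟨-, hy2, hy3⟩ := hval _ g3
            rw [hx2, hy2, ← mul_pow, mul_smul, mul_smul]
            exact pow_le_pow_left₀ dist_nonneg (hL _ (hx3 q hq) _ (hy3 q hq)) _
        _ = L ^ (n + 1) * ∑ a ∈ F, dist (χ ((s1 * (q : S)) • φ.symm (x a)))
              (χ ((s1 * (q : S)) • φ.symm (y a))) ^ (n + 1) := by rw [Finset.mul_sum]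
        _ ≤ L ^ (n + 1) * b (j + m) := by gcongr
    have hrb' : Tendsto (fun j => r (j + m) * (L ^ (n + 1) * b (j + m))) atTop (𝓝 0) := by
      have h1 := (tendsto_add_atTop_iff_nat m).2 hrb
      have h2 := h1.const_mul (L ^ (n + 1))
      rw [mul_zero] at h2
      refine h2.congr fun j => ?_
      ring
    have hae := ae_level hQc (f := fun u => F0 (σ u)) (ρ := fun i u => ρ i (σ u))
      (f1.comp (hσc.mono inter_subset_left) hσm)
      (fun i => (f2 i).comp (hσc.mono inter_subset_left) hσm) (fun j => hr (j + m)) hrb'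
      (fun j => (hen j).1) (fun i j => (hen j).2 i)
    filter_upwards [hae] with y hy i
    filter_upwards [hy i] with s hs C hC3 hCp hCZ hCy hCs
    by_contra hns
    obtain ⟨i1, i2, i3, i4⟩ := cont_image (φ := φ) (B := B) hsm.1 hφs hC3 hCp
    have hsub : {x : X | InfOrbit k x} ⊆ {x : X | InfOrbit g x} := by
      intro x hx
      have hx' : InfOrbit (k : S) x := hx
      exact inf_of_mem (hKg _ k.2) hx'
    have hCP : (fun v => φ (φ'.symm v)) '' C ⊆ φ.symm ⁻¹' (closure {x : X | InfOrbit g x}) := by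
      rintro _ ⟨v, hv, rfl⟩
      rw [mem_preimage, i3 v hv]
      exact closure_mono hsub (hCZ v hv)
    refine hns (i4 (hs (τ '' C) ?_ i1 ?_ ?_))
    · exact subset_inter (image_mono hC3) hCP
    · rintro _ ⟨v, hv, rfl⟩
      show F0 (σ (τ v)) = y
      rw [hστ v (hC3 hv)]
      exact hCy v hv
    · rintro _ ⟨v, hv, rfl⟩
      show ρ i (σ (τ v)) = s
      rw [hστ v (hC3 hv)]
      exact hCs v hv
  exact locTriv3 hA (H := K) hcrit hx1

end

end Pool.Agent.H78HS
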