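import Pool.Agent.H78HS.Coset2
import Pool.Agent.N512.HS.A8

/-!
# Displacement and distortion
-/

set_option autoImplicit false
set_option linter.unusedSectionVars false

open MeasureTheory Set Metric Filter Topology TopologicalSpace
open scoped ENNReal NNReal

namespace Pool.Agent.H78HS

open Pool.Agent.Y485.HS Pool.Agent.Y489.SP Pool.Agent.Y475.HS Pool.Agent.R775.HS
  Pool.Agent.R775.HC Pool.Agent.N512.HS Pool.Agent.N512.CC
open Pool.Agent.W660.GY (NSS GY3)

/-- cosets of the closure of the group generated by a power -/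
theorem coset_closure {S : Type} [Group S] [TopologicalSpace S] [IsTopologicalGroup S] {h : S}
    {N : ℕ} (hN : 0 < N) {q : S} (hq : q ∈ (Subgroup.zpowers h).topologicalClosure) :
    ∃ b < N, ∃ q' ∈ (Subgroup.zpowers (h ^ N)).topologicalClosure, q = q' * h ^ b := by
  set D : Subgroup S := (Subgroup.zpowers (h ^ N)).topologicalClosure with hD
  have hDc : IsClosed (D : Set S) := Subgroup.isClosed_topologicalClosure _
  have hcl : IsClosed (⋃ b ∈ Finset.range N, (fun q' : S => q' * (h ^ b)⁻¹) ⁻¹' (D : Set S)) := by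
    refine isClosed_biUnion_finset fun b _ => ?_
    exact hDc.preimage (continuous_mul_const _)
  have hsub : ((Subgroup.zpowers h).topologicalClosure : Set S) ⊆
      ⋃ b ∈ Finset.range N, (fun q' : S => q' * (h ^ b)⁻¹) ⁻¹' (D : Set S) := by
    rw [Subgroup.topologicalClosure_coe]
    refine closure_minimal ?_ hcl
    rintro _ ⟨m, rfl⟩
    have hN' : (0 : ℤ) < N := by exact_mod_cast hN
    obtain ⟨b, hb⟩ : ∃ b : ℕ, (b : ℤ) = m % N :=
      ⟨(m % N).toNat, Int.toNat_of_nonneg (Int.emod_nonneg _ hN'.ne')⟩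
    have hbN : b < N := by
      have := Int.emod_lt_of_pos m hN'
      omega
    refine mem_biUnion (x := b) (Finset.mem_coe.2 (Finset.mem_range.2 hbN)) ?_
    show h ^ m * (h ^ b)⁻¹ ∈ D
    have h1 : h ^ m * (h ^ b)⁻¹ = (h ^ N) ^ (m / N) := by
      rw [← zpow_natCast, ← zpow_natCast, ← zpow_mul, ← zpow_neg, ← zpow_add]
      congr 1
      rw [hb]
      have := Int.emod_add_mul_ediv m N
      linarith
    rw [h1]
    exact Subgroup.le_topologicalClosure _ ⟨m / N, rfl⟩
  obtain ⟨b, hb, hqb⟩ := mem_iUnion₂.1 (hsub hq)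
  refine ⟨b, Finset.mem_range.1 hb, q * (h ^ b)⁻¹, hqb, ?_⟩
  rw [inv_mul_cancel_right]

/-- small displacement of the powers of `g ^ p ^ k` and small energies of the first `p ^ k`
iterates of `g` at the same scale, near the point `x0` -/
def Slow (n p : ℕ) {X : Type} [MetricSpace X] {S : Type} [Group S] [MulAction S X] (g : S)
    (x0 : X) : Prop :=
  ∃ W ∈ 𝓝 x0, ∀ (c : ℕ) (ε : ℝ), 0 < ε → ∃ᶠ k : ℕ in atTop, ∃ r : ℝ, 0 < r ∧ r < ε ∧
    (∀ h ∈ Subgroup.zpowers (g ^ p ^ k), ∀ x ∈ W ∩ closure {x : X | InfOrbit g x},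
      dist (h • x) x ≤ r) ∧
    ∀ a < p ^ k, ∀ (A : Finset X) (y z : X → X),
      (∀ x ∈ A, x ∈ W ∩ closure {x : X | InfOrbit g x} ∧
        y x ∈ W ∩ closure {x : X | InfOrbit g x} ∧ z x ∈ W ∩ closure {x : X | InfOrbit g x} ∧
        dist (y x) x ≤ c * r ∧ dist (z x) x ≤ c * r) →
      (∀ x ∈ A, ∀ x' ∈ A, x ≠ x' → r ≤ dist x x') →
      r * ∑ x ∈ A, dist (g ^ a • y x) (g ^ a • z x) ^ (n + 1) ≤ ε

section
variable {n : ℕ} {X : Type} [MetricSpace X]

/-- the closure of the set of the points of infinite orbit is invariant -/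
theorem inf_inv {S : Type} [Group S] [TopologicalSpace S] [IsTopologicalGroup S] [T2Space S]
    [MulAction S X] [ContinuousSMul S X] {g q : S}
    (hq : q ∈ (Subgroup.zpowers g).topologicalClosure) {x : X}
    (hx : x ∈ closure {x : X | InfOrbit g x}) : q • x ∈ closure {x : X | InfOrbit g x} := by
  have hgg : g ∈ (Subgroup.zpowers g).topologicalClosure :=
    Subgroup.le_topologicalClosure _ (Subgroup.mem_zpowers g)
  refine map_mem_closure (continuous_const_smul q) hx ?_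
  intro y hy m hm h
  apply hy m hm
  have h1 : g ^ m * q = q * g ^ m := (comm_closure (Subgroup.pow_mem _ hgg m) hq).eq
  have h2 : q • (g ^ m • y) = q • y := by
    rw [← mul_smul, ← h1, mul_smul]
    exact h
  exact smul_left_cancel _ h2

/-- the main theorem for one element -/
theorem no_slow (hn : 1 ≤ n) {S : Type} [Group S] [TopologicalSpace S] [IsTopologicalGroup S]
    [CompactSpace S] [T2Space S] [TotallyDisconnectedSpace S] [MulAction S X]
    [ContinuousSMul S X] {p : ℕ} (hp : p.Prime) {g : S}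
    (hg : Tendsto (fun j : ℕ => g ^ p ^ j) atTop (𝓝 1)) {x0 : X} (hx0 : x0 ∈ RegA (BL n X))
    (hx0Z : x0 ∈ closure {x : X | InfOrbit g x}) (hs : Slow n p g x0) : False := by
  classical
  obtain ⟨φ, hφ, hx0φ⟩ := hx0
  obtain ⟨L, hbl⟩ := hφ
  obtain ⟨W, hW, hWH⟩ := hs
  set Z : Set X := closure {x : X | InfOrbit g x} with hZ
  obtain ⟨K, hK⟩ : ∃ K : ℝ, K = max L 1 := ⟨_, rfl⟩
  have hLK : L ≤ K := by rw [hK]; exact le_max_left _ _
  have hK1 : 1 ≤ K := by rw [hK]; exact le_max_right _ _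
  have hK0 : 0 < K := by linarith
  have hlip : ∀ a ∈ φ.source, ∀ b ∈ φ.source, dist (φ a) (φ b) ≤ K * dist a b :=
    fun a ha b hb => ((hbl a ha b hb).1).trans (mul_le_mul_of_nonneg_right hLK dist_nonneg)
  have hlip' : ∀ a ∈ φ.target, ∀ b ∈ φ.target, dist (φ.symm a) (φ.symm b) ≤ K * dist a b := by
    intro a ha b hb
    have h1 := (hbl _ (φ.map_target ha) _ (φ.map_target hb)).2
    rw [φ.right_inv ha, φ.right_inv hb] at h1
    exact h1.trans (mul_le_mul_of_nonneg_right hLK dist_nonneg)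
  have hgg : g ∈ (Subgroup.zpowers g).topologicalClosure :=
    Subgroup.le_topologicalClosure _ (Subgroup.mem_zpowers g)
  -- a small ball and a small subgroup
  have hv0 : φ x0 ∈ φ.target := φ.map_source hx0φ
  have hleft : φ.symm (φ x0) = x0 := φ.left_inv hx0φ
  have hct : ContinuousAt (fun q : S × E n => q.1 • φ.symm q.2) (1, φ x0) := by
    have h1 : ContinuousAt φ.symm (φ x0) := φ.continuousAt_symm hv0
    have h2 : ContinuousAt (fun q : S × E n => φ.symm q.2) (1, φ x0) :=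
      ContinuousAt.comp (g := φ.symm) (f := Prod.snd) h1 continuousAt_snd
    exact continuousAt_fst.smul h2
  have hev : ∀ᶠ q : S × E n in 𝓝 (1, φ x0), q.1 • φ.symm q.2 ∈ φ.source ∩ W := by
    refine hct.eventually_mem ?_
    simp only [hleft, one_smul]
    exact inter_mem (φ.open_source.mem_nhds hx0φ) hW
  rw [nhds_prod_eq] at hev
  obtain ⟨P1, hP1, P2, hP2, hP⟩ := eventually_prod_iff.1 hev
  obtain ⟨O1, hO1s, hO1o, hO1⟩ := _root_.eventually_nhds_iff.1 hP1
  obtain ⟨U, hU⟩ := ProfiniteGrp.exist_openNormalSubgroup_sub_open_nhds_of_one hO1o hO1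
  have e1 : ∀ᶠ v in 𝓝 (φ x0), v ∈ φ.target := φ.open_target.mem_nhds hv0
  have e2 : ∀ᶠ v in 𝓝 (φ x0), v ∈ ball (φ x0) 1 := ball_mem_nhds (φ x0) one_pos
  obtain ⟨B, hBs, hBo, hvB⟩ := _root_.eventually_nhds_iff.1 (hP2.and (e1.and e2))
  have hUo : IsOpen (U.toSubgroup : Set S) := U.isOpen'
  have hUc : IsClosed (U.toSubgroup : Set S) := Subgroup.isClosed_of_isOpen _ hUo
  obtain ⟨J, hJ⟩ := (hg.eventually (hUo.mem_nhds U.toSubgroup.one_mem)).exists
  set D : Subgroup S := (Subgroup.zpowers (g ^ p ^ J)).topologicalClosure with hD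
  have hDU : ∀ d ∈ D, d ∈ U.toSubgroup := by
    intro d hd
    exact Subgroup.topologicalClosure_minimal _ ((Subgroup.zpowers_le).2 hJ) hUc hd
  have hDg : ∀ d ∈ D, d ∈ (Subgroup.zpowers g).topologicalClosure := by
    intro d hd
    exact Subgroup.topologicalClosure_minimal _
      ((Subgroup.zpowers_le).2 (Subgroup.pow_mem _ hgg _))
      (Subgroup.isClosed_topologicalClosure _) hd
  have hDB : ∀ d ∈ D, ∀ v ∈ B, d • φ.symm v ∈ φ.source ∩ W := fun d hd v hv =>
    hP (hO1s d (hU (hDU d hd))) (hBs v hv).1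
  have hBt : B ⊆ φ.target := fun v hv => (hBs v hv).2.1
  have hBb : B ⊆ closedBall (φ x0) 1 := fun v hv => ball_subset_closedBall (hBs v hv).2.2
  have hBW : ∀ v ∈ B, φ.symm v ∈ φ.source ∩ W := by
    intro v hv
    have := hDB 1 D.one_mem v hv
    rwa [one_smul] at this
  -- the scales
  obtain ⟨c, hc⟩ := exists_nat_ge (K ^ 2)
  have hseq : ∀ j : ℕ, ∃ k : ℕ, J ≤ k ∧ ∃ r : ℝ, 0 < r ∧ r < 1 / (K * (j + 1)) ∧
      (∀ h ∈ Subgroup.zpowers (g ^ p ^ k), ∀ x ∈ W ∩ Z, dist (h • x) x ≤ r) ∧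
      ∀ a < p ^ k, ∀ (A : Finset X) (y z : X → X),
        (∀ x ∈ A, x ∈ W ∩ Z ∧ y x ∈ W ∩ Z ∧ z x ∈ W ∩ Z ∧
          dist (y x) x ≤ c * r ∧ dist (z x) x ≤ c * r) →
        (∀ x ∈ A, ∀ x' ∈ A, x ≠ x' → r ≤ dist x x') →
        r * ∑ x ∈ A, dist (g ^ a • y x) (g ^ a • z x) ^ (n + 1) ≤ 1 / (K * (j + 1)) := by
    intro j
    obtain ⟨k, ⟨r, hr⟩, hk⟩ := ((hWH c (1 / (K * (j + 1))) (by positivity)).and_eventually
      (eventually_ge_atTop J)).exists
    exact ⟨k, hk, r, hr⟩
  choose k hkJ r hr0 hr1 hdis hen using hseq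
  have hinj : ∀ a ∈ B, ∀ b ∈ B, φ.symm a = φ.symm b → a = b := by
    intro a ha b hb hab
    rw [← φ.right_inv (hBt ha), hab, φ.right_inv (hBt hb)]
  have hKr : ∀ j, K * r j ≤ 1 := by
    intro j
    have h1 := hr1 j
    have h2 : 1 / (K * ((j : ℝ) + 1)) ≤ 1 / K := by
      apply one_div_le_one_div_of_le hK0
      have : (0 : ℝ) ≤ j := Nat.cast_nonneg j
      nlinarith
    have h3 : r j ≤ 1 / K := h1.le.trans h2
    rw [le_div_iff₀ hK0] at h3
    linarith
  have hEn : ∀ q ∈ D, ∀ j, 0 ≤ j → En (n + 1) (zs φ Z B) (K * r j)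
      (K ^ (n + 1) * (4 ^ (n + 1) * 3 ^ n * r j + 2 ^ (n + 1) * (1 / (K * (j + 1)) / r j)))
      (fun v => φ ((1 * q) • φ.symm v)) := by
    intro q hq j _ A y z h1 h2
    have hrj := hr0 j
    have hpk : 0 < p ^ (k j - J) := pow_pos hp.pos _
    obtain ⟨b, hb, q', hq', hqq⟩ := coset_closure hpk hq
    have hpow : (g ^ p ^ J) ^ p ^ (k j - J) = g ^ p ^ k j := by
      rw [← pow_mul, ← pow_add, Nat.add_sub_cancel' (hkJ j)]
    rw [hpow] at hq'
    have hbk : p ^ J * b < p ^ k j := by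
      have h3 : p ^ J * p ^ (k j - J) = p ^ k j := by rw [← pow_add, Nat.add_sub_cancel' (hkJ j)]
      rw [← h3]
      exact Nat.mul_lt_mul_of_pos_left hb (pow_pos hp.pos _)
    have hgb : (g ^ p ^ J) ^ b = g ^ (p ^ J * b) := by rw [← pow_mul]
    have hgbD : g ^ (p ^ J * b) ∈ D := by
      rw [← hgb]
      exact Subgroup.pow_mem _ (Subgroup.le_topologicalClosure _ (Subgroup.mem_zpowers _)) _
    -- displacement
    have hdisp : ∀ x ∈ W ∩ Z, dist (q' • x) x ≤ r j := by
      intro x hx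
      have hcl : IsClosed {q : S | dist (q • x) x ≤ r j} := by
        have h3 : Continuous (fun q : S => dist (q • x) x) := by fun_prop
        exact isClosed_le h3 continuous_const
      rw [← SetLike.mem_coe, Subgroup.topologicalClosure_coe] at hq'
      exact closure_minimal (fun h hh => hdis j h hh x hx) hcl hq'
    -- one point
    have hpt : ∀ v ∈ zs φ Z B, φ.symm v ∈ W ∩ Z ∧ g ^ (p ^ J * b) • φ.symm v ∈ W ∩ Z := by
      intro v hv
      exact ⟨⟨(hBW v hv.1).2, hv.2⟩, (hDB _ hgbD v hv.1).2, inf_inv (hDg _ hgbD) hv.2⟩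
    have hone : ∀ v ∈ zs φ Z B, dist (q • φ.symm v) (g ^ (p ^ J * b) • φ.symm v) ≤ r j := by
      intro v hv
      rw [hqq, hgb, mul_smul]
      exact hdisp _ (hpt v hv).2
    have hcard : (A.card : ℝ) ≤ 3 ^ n / r j ^ n := by
      have hR0 : 0 < K * r j := by positivity
      have h3 := Pool.Agent.Y662.SP.SOB.pack (φ x0) hR0 (R := 1) one_pos.le A (fun a ha => by
        have := hBb (h1 a ha).1.1
        rwa [mem_closedBall] at this) h2
      refine h3.trans ?_
      rw [← div_pow]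
      refine pow_le_pow_left₀ (by positivity) ?_ n
      have h4 : r j ≤ K * r j := by nlinarith
      calc 2 * 1 / (K * r j) + 1 ≤ 2 * 1 / r j + 1 := by gcongr
        _ ≤ 3 / r j := by
          have h5 : r j ≤ 1 := h4.trans (hKr j)
          rw [le_div_iff₀ hrj, add_mul, div_mul_cancel₀ _ hrj.ne']
          linarith
    have hmain := hen j (p ^ J * b) hbk (A.image φ.symm) (fun x => φ.symm (y (φ x)))
      (fun x => φ.symm (z (φ x))) (by
        intro x hx
        obtain ⟨a, ha, rfl⟩ := Finset.mem_image.1 hx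
        obtain ⟨e1, e2, e3, e4, e5⟩ := h1 a ha
        rw [φ.right_inv (hBt e1.1)]
        refine ⟨(hpt a e1).1, (hpt _ e2).1, (hpt _ e3).1, ?_, ?_⟩
        · calc dist (φ.symm (y a)) (φ.symm a) ≤ K * dist (y a) a := hlip' _ (hBt e2.1) _ (hBt e1.1)
            _ ≤ K * (K * r j) := by gcongr
            _ = K ^ 2 * r j := by ring
            _ ≤ c * r j := by gcongr
        · calc dist (φ.symm (z a)) (φ.symm a) ≤ K * dist (z a) a := hlip' _ (hBt e3.1) _ (hBt e1.1)
            _ ≤ K * (K * r j) := by gcongr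
            _ = K ^ 2 * r j := by ring
            _ ≤ c * r j := by gcongr) (by
        intro x hx x' hx' hne
        obtain ⟨a, ha, rfl⟩ := Finset.mem_image.1 hx
        obtain ⟨a', ha', rfl⟩ := Finset.mem_image.1 hx'
        have hne' : a ≠ a' := fun h => hne (by rw [h])
        have e1 := h2 a ha a' ha' hne'
        have hat := hBt (h1 a ha).1.1
        have hat' := hBt (h1 a' ha').1.1
        have e2 := hlip _ (φ.map_target hat) _ (φ.map_target hat')
        rw [φ.right_inv hat, φ.right_inv hat'] at e2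
        have e3 : K * r j ≤ K * dist (φ.symm a) (φ.symm a') := e1.trans e2
        exact le_of_mul_le_mul_left e3 hK0)
    rw [Finset.sum_image (fun a ha b hb hab => hinj a (h1 a ha).1.1 b (h1 b hb).1.1 hab)] at hmain
    have hterm : ∀ a ∈ A, dist (φ ((1 * q) • φ.symm (y a))) (φ ((1 * q) • φ.symm (z a))) ^ (n + 1) ≤
        K ^ (n + 1) * (4 ^ (n + 1) * r j ^ (n + 1) + 2 ^ (n + 1) *
          dist (g ^ (p ^ J * b) • φ.symm (y (φ (φ.symm a))))
            (g ^ (p ^ J * b) • φ.symm (z (φ (φ.symm a)))) ^ (n + 1)) := by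
      intro a ha
      obtain ⟨e1, e2, e3, e4, e5⟩ := h1 a ha
      rw [φ.right_inv (hBt e1.1), one_mul]
      set d : ℝ := dist (g ^ (p ^ J * b) • φ.symm (y a)) (g ^ (p ^ J * b) • φ.symm (z a)) with hd
      have hd0 : 0 ≤ d := dist_nonneg
      have f1 : dist (q • φ.symm (y a)) (q • φ.symm (z a)) ≤ 2 * r j + d := by
        have g1 := hone _ e2
        have g2 := hone _ e3
        have g3 := dist_triangle4 (q • φ.symm (y a)) (g ^ (p ^ J * b) • φ.symm (y a))
          (g ^ (p ^ J * b) • φ.symm (z a)) (q • φ.symm (z a))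
        rw [dist_comm (g ^ (p ^ J * b) • φ.symm (z a)) (q • φ.symm (z a))] at g3
        linarith
      have f2 : dist (φ (q • φ.symm (y a))) (φ (q • φ.symm (z a))) ≤ K * (2 * r j + d) :=
        (hlip _ (hDB q hq _ e2.1).1 _ (hDB q hq _ e3.1).1).trans (by gcongr)
      have f3 : (2 * r j + d) ^ (n + 1) ≤ (4 * r j) ^ (n + 1) + (2 * d) ^ (n + 1) := by
        rcases le_total (2 * r j) d with h | h
        · have : (2 * r j + d) ^ (n + 1) ≤ (2 * d) ^ (n + 1) := by
            gcongr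
            linarith
          have h0 : 0 ≤ (4 * r j) ^ (n + 1) := by positivity
          linarith
        · have : (2 * r j + d) ^ (n + 1) ≤ (4 * r j) ^ (n + 1) := by
            gcongr
            linarith
          have h0 : 0 ≤ (2 * d) ^ (n + 1) := by positivity
          linarith
      calc dist (φ (q • φ.symm (y a))) (φ (q • φ.symm (z a))) ^ (n + 1)
          ≤ (K * (2 * r j + d)) ^ (n + 1) := by gcongr
        _ = K ^ (n + 1) * (2 * r j + d) ^ (n + 1) := by rw [mul_pow]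
        _ ≤ K ^ (n + 1) * ((4 * r j) ^ (n + 1) + (2 * d) ^ (n + 1)) := by gcongr
        _ = _ := by rw [mul_pow 4 (r j), mul_pow 2 d]
    have hsum : ∑ a ∈ A, dist (g ^ (p ^ J * b) • φ.symm (y (φ (φ.symm a))))
            (g ^ (p ^ J * b) • φ.symm (z (φ (φ.symm a)))) ^ (n + 1) ≤
        1 / (K * (j + 1)) / r j := by
      rw [le_div_iff₀ hrj, mul_comm]
      exact hmain
    calc ∑ a ∈ A, dist (φ ((1 * q) • φ.symm (y a))) (φ ((1 * q) • φ.symm (z a))) ^ (n + 1)
        ≤ ∑ a ∈ A, K ^ (n + 1) * (4 ^ (n + 1) * r j ^ (n + 1) + 2 ^ (n + 1) *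
          dist (g ^ (p ^ J * b) • φ.symm (y (φ (φ.symm a))))
            (g ^ (p ^ J * b) • φ.symm (z (φ (φ.symm a)))) ^ (n + 1)) := Finset.sum_le_sum hterm
      _ = K ^ (n + 1) * (4 ^ (n + 1) * r j ^ (n + 1) * A.card + 2 ^ (n + 1) *
          ∑ a ∈ A, dist (g ^ (p ^ J * b) • φ.symm (y (φ (φ.symm a))))
            (g ^ (p ^ J * b) • φ.symm (z (φ (φ.symm a)))) ^ (n + 1)) := by
          rw [← Finset.mul_sum, Finset.sum_add_distrib, Finset.sum_const, ← Finset.mul_sum,
            nsmul_eq_mul]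
          ring
      _ ≤ K ^ (n + 1) * (4 ^ (n + 1) * 3 ^ n * r j + 2 ^ (n + 1) * (1 / (K * (j + 1)) / r j)) := by
          have f4 : r j ^ (n + 1) * A.card ≤ 3 ^ n * r j := by
            calc r j ^ (n + 1) * A.card ≤ r j ^ (n + 1) * (3 ^ n / r j ^ n) := by gcongr
              _ = (r j ^ n / r j ^ n) * (3 ^ n * r j) := by ring
              _ = 3 ^ n * r j := by rw [div_self (pow_pos hrj n).ne', one_mul]
          have f5 : 4 ^ (n + 1) * r j ^ (n + 1) * A.card ≤ 4 ^ (n + 1) * 3 ^ n * r j := by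
            calc (4 : ℝ) ^ (n + 1) * r j ^ (n + 1) * A.card =
                4 ^ (n + 1) * (r j ^ (n + 1) * A.card) := by ring
              _ ≤ 4 ^ (n + 1) * (3 ^ n * r j) := by gcongr
              _ = _ := by ring
          gcongr
  -- the limit
  have hlim : Tendsto (fun j : ℕ => K * r j *
      (K ^ (n + 1) * (4 ^ (n + 1) * 3 ^ n * r j + 2 ^ (n + 1) * (1 / (K * (j + 1)) / r j))))
      atTop (𝓝 0) := by
    have h1 : Tendsto (fun j : ℕ => 1 / ((j : ℝ) + 1)) atTop (𝓝 0) :=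
      tendsto_one_div_add_atTop_nhds_zero_nat
    have h2 : Tendsto (fun j : ℕ => K ^ (n + 2) * (4 ^ (n + 1) * 3 ^ n + 2 ^ (n + 1)) *
        (1 / ((j : ℝ) + 1))) atTop (𝓝 0) := by
      simpa using h1.const_mul (K ^ (n + 2) * (4 ^ (n + 1) * 3 ^ n + 2 ^ (n + 1)))
    refine squeeze_zero (fun j => ?_) (fun j => ?_) h2
    · have := hr0 j
      positivity
    · have hrj := hr0 j
      have hj0 : (0 : ℝ) < (j : ℝ) + 1 := by positivity
      have h3 : 1 / (K * ((j : ℝ) + 1)) ≤ 1 / ((j : ℝ) + 1) := by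
        apply one_div_le_one_div_of_le hj0
        nlinarith
      have h4 : r j ≤ 1 := by
        have := hKr j
        nlinarith
      have h5 : r j * r j ≤ 1 / ((j : ℝ) + 1) := by
        have : r j ≤ 1 / ((j : ℝ) + 1) := (hr1 j).le.trans h3
        nlinarith
      calc K * r j * (K ^ (n + 1) * (4 ^ (n + 1) * 3 ^ n * r j +
            2 ^ (n + 1) * (1 / (K * (j + 1)) / r j)))
          = K ^ (n + 2) * (4 ^ (n + 1) * 3 ^ n * (r j * r j) +
            2 ^ (n + 1) * (r j * (1 / (K * (j + 1)) / r j))) := by ring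
        _ = K ^ (n + 2) * (4 ^ (n + 1) * 3 ^ n * (r j * r j) +
            2 ^ (n + 1) * (1 / (K * (j + 1)))) := by rw [mul_div_cancel₀ _ hrj.ne']
        _ ≤ K ^ (n + 2) * (4 ^ (n + 1) * 3 ^ n * (1 / ((j : ℝ) + 1)) +
            2 ^ (n + 1) * (1 / ((j : ℝ) + 1))) := by gcongr
        _ = _ := by ring
  have hDc : IsClosed (D : Set S) := Subgroup.isClosed_topologicalClosure _
  obtain ⟨K1, hK1o, hK1t⟩ := coset_triv hn (φ := φ) (χ := φ) (g := g) (s1 := 1) hBo hBt
    (fun v hv => by rw [one_smul]; exact (hBW v hv).1)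
    (r := fun j => K * r j)
    (b := fun j => K ^ (n + 1) * (4 ^ (n + 1) * 3 ^ n * r j +
      2 ^ (n + 1) * (1 / (K * (j + 1)) / r j)))
    (fun j => mul_pos hK0 (hr0 j)) hlim (m := 0) hDc hDg hEn hvB
  -- a power in `K1`
  have hgJ : g ^ p ^ J ∈ D := Subgroup.le_topologicalClosure _ (Subgroup.mem_zpowers _)
  have ht2 : Tendsto (fun j : ℕ => (⟨g ^ p ^ J, hgJ⟩ : D) ^ p ^ j) atTop (𝓝 1) := by
    rw [tendsto_subtype_rng]
    refine ((tendsto_add_atTop_iff_nat J).2 hg).congr fun j => ?_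
    simp only [SubmonoidClass.coe_pow]
    rw [← pow_mul, ← pow_add, add_comm]
  obtain ⟨j1, hj1⟩ := (ht2.eventually (hK1o.mem_nhds K1.one_mem)).exists
  rw [hleft] at hK1t
  obtain ⟨x, hxt, hx⟩ := mem_closure_iff_nhds.1 hx0Z _ hK1t
  have h1 : (g ^ p ^ J) ^ p ^ j1 • x = x := hxt _ hj1
  rw [← pow_mul] at h1
  exact hx _ (Nat.mul_pos (pow_pos hp.pos _) (pow_pos hp.pos _)) h1

end

end Pool.Agent.H78HS
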