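import Pool.Agent.H78HS.Disp

/-!
# The theorem on displacement and distortion
-/

set_option autoImplicit false
set_option linter.unusedSectionVars false

open MeasureTheory Set Metric Filter Topology TopologicalSpace
open scoped ENNReal NNReal

namespace Pool.Agent.H78HS

open Pool.Agent.Y485.HS Pool.Agent.Y489.SP Pool.Agent.Y475.HS Pool.Agent.R775.HS
  Pool.Agent.R775.HC Pool.Agent.N512.HS Pool.Agent.N512.CC
open Pool.Agent.W660.GY (NSS GY3)

section
variable {n : ℕ} {X : Type} [MetricSpace X]

theorem regA_open (A : Set (OpenPartialHomeomorph X (E n))) : IsOpen (RegA A) := by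
  have h1 : RegA A = ⋃ φ ∈ A, φ.source := by
    ext x
    simp only [RegA, mem_ofPred_eq, mem_iUnion, exists_prop]
  rw [h1]
  exact isOpen_biUnion fun φ _ => φ.open_source

/-- The Hilbert-Smith conjecture for actions whose distortion at the scale of the displacement is
small somewhere along the infinite orbits -/
theorem lie_disp (hn : 1 ≤ n) (hdense : Dense (RegA (BL n X)))
    (hconn : IsPreconnected (RegA (BL n X))) {G : Type} [Group G] [TopologicalSpace G]
    [IsTopologicalGroup G] [LocallyCompactSpace G] [MulAction G X] [ContinuousSMul G X]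
    [FaithfulSMul G X] {V : Set G} (hV : V ∈ 𝓝 (1 : G))
    (hreg : ∀ (p : ℕ) (g : G), p.Prime → SmallPow V g →
      Tendsto (fun j : ℕ => g ^ p ^ j) atTop (𝓝 1) →
      (∃ x ∈ RegA (BL n X), InfOrbit g x) →
      ∃ x ∈ RegA (BL n X), x ∈ closure {x : X | InfOrbit g x} ∧ Slow n p g x) : IsLie G := by
  have hT2 : T2Space G := by
    refine ⟨fun g h hgh => ?_⟩
    obtain ⟨x, hx⟩ : ∃ x : X, g • x ≠ h • x := by
      by_contra hall
      push Not at hall
      exact hgh (eq_of_smul_eq_smul hall)
    obtain ⟨u, v, hu, hv, hgu, hhv, huv⟩ := t2_separation hx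
    have hc : Continuous (fun g : G => g • x) := by fun_prop
    exact ⟨_, _, hu.preimage hc, hv.preimage hc, hgu, hhv, huv.preimage _⟩
  have hN : NSS G := by
    refine nss_of_Z V hV ?_
    intro S _ _ _ _ _ _ i hi hinj hiV
    let _ : MulAction S X := MulAction.compHom X i
    have _ : ContinuousSMul S X := ⟨by
      have h : Continuous (fun q : S × X => i q.1 • q.2) := by fun_prop
      exact h⟩
    have hInf : ∀ (s : S) (x : X), InfOrbit s x ↔ InfOrbit (i s) x := by
      intro s x
      have h1 : ∀ m : ℕ, s ^ m • x = (i s) ^ m • x := by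
        intro m
        rw [← map_pow]
        rfl
      simp only [InfOrbit, h1]
    have hset : ∀ s : S, {x : X | InfOrbit s x} = {x : X | InfOrbit (i s) x} := by
      intro s
      ext x
      exact hInf s x
    have hcrit : ∀ s : S, Crit (BL n X) s := by
      intro s p hp hsp hcomp φ hφ hs
      obtain ⟨F0, -, -, -, h4⟩ := exists_good_inf hcomp hs
      apply h4
      intro y hy ε hε
      refine ⟨y, hy, by rwa [dist_self], ?_⟩
      intro C hC3 _ hCZ _ v hv
      exfalso
      have hvt : v ∈ φ.target := hs.1 (closedBall_subset_closedBall (by norm_num) (hC3 hv))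
      obtain ⟨x, hxR, hxI⟩ := mem_closure_iff_nhds.1 (hCZ v hv) (RegA (BL n X))
        ((regA_open _).mem_nhds ⟨φ, hφ, φ.map_target hvt⟩)
      have htend : Tendsto (fun j : ℕ => (i s) ^ p ^ j) atTop (𝓝 1) := by
        have h1 : Tendsto (fun j : ℕ => i (s ^ p ^ j)) atTop (𝓝 (i 1)) :=
          (hi.tendsto 1).comp hsp
        rw [map_one] at h1
        simpa only [map_pow] using h1
      obtain ⟨x0, hx0, hx0Z, W, hW, hWH⟩ := hreg p (i s) hp (smallPow_of_hom i hi hiV s) htend
        ⟨x, hxR, (hInf s x).1 hxI⟩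
      rw [← hset] at hx0Z
      refine no_slow hn hp hsp hx0 hx0Z ⟨W, hW, fun c ε hε => ?_⟩
      refine (hWH c ε hε).mono ?_
      rintro k ⟨r, hr0, hr1, hr2, hr3⟩
      rw [← hset] at hr2 hr3
      refine ⟨r, hr0, hr1, ?_, ?_⟩
      · rintro _ ⟨m, rfl⟩ x hx
        refine hr2 (i ((s ^ p ^ k) ^ m)) ⟨m, ?_⟩ x hx
        show (i s ^ p ^ k) ^ m = i ((s ^ p ^ k) ^ m)
        rw [map_zpow, map_pow]
      · intro a ha A y z h1 h2
        have h3 := hr3 a ha A y z h1 h2
        rw [← map_pow] at h3
        exact h3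
    obtain ⟨K, hKo, hKt⟩ := profinite' hn (stable_BL n X) hdense hconn
      hcrit (fun K P _ q hq =>
        crit_of_hom (K.subtype.comp P.subtype)
          (continuous_subtype_val.comp continuous_subtype_val) (fun _ _ => rfl) q hq)
    have hbot : K = ⊥ := by
      rw [eq_bot_iff]
      intro k hk
      rw [Subgroup.mem_bot]
      apply hinj
      refine eq_of_smul_eq_smul (α := X) fun x => ?_
      rw [map_one, one_smul]
      exact hKt k hk x
    rw [hbot] at hKo
    refine discreteTopology_of_isOpen_singleton_one ?_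
    convert hKo using 1
    ext x
    simp
  obtain ⟨E, i1, i2, i3, ⟨C⟩⟩ := Pool.Agent.Y328.HS.lga G hN
  let _ := i1
  let _ := i2
  have _ := i3
  exact Pool.Agent.Y286.HS.lgb G E C

end

end Pool.Agent.H78HS
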