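import Mathlib

/-!
# Eigenfunctions over orbit spaces of dimension at most one

Let a compact group `K` act on a compact Hausdorff space `Y`. If `Y` has enough invariant functions with
totally disconnected level sets, local eigenfunctions without zeros can be glued.
-/

set_option autoImplicit false
set_option linter.unusedSectionVars false

open Set Filter Topology

namespace Pool.Agent.H78HS

section
variable {K Y : Type} [Group K] [TopologicalSpace K] [IsTopologicalGroup K] [CompactSpace K]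
  [TopologicalSpace Y] [CompactSpace Y] [T2Space Y] [MulAction K Y] [ContinuousSMul K Y]

/-- invariant sets -/
def Inv (K : Type) {Y : Type} [Group K] [MulAction K Y] (A : Set Y) : Prop :=
  ∀ (k : K), ∀ y ∈ A, k • y ∈ A

theorem Inv.inter {A B : Set Y} (hA : Inv K A) (hB : Inv K B) : Inv K (A ∩ B) :=
  fun k y hy => ⟨hA k y hy.1, hB k y hy.2⟩

theorem Inv.compl {A : Set Y} (hA : Inv K A) : Inv K Aᶜ := by
  intro k y hy h
  apply hy
  have := hA k⁻¹ _ h
  rwa [inv_smul_smul] at this

/-- invariant clopen neighbourhoods in a totally disconnected closed invariant set -/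
theorem inv_clopen {S O : Set Y} (hS : IsClosed S) (hSi : Inv K S) (hSd : IsTotallyDisconnected S)
    (hO : IsOpen O) (hOi : ∀ k : K, ∀ y ∈ S ∩ O, k • y ∈ O) {x : Y} (hx : x ∈ S) (hxO : x ∈ O) :
    ∃ V ⊆ S ∩ O, x ∈ V ∧ IsClosed V ∧ IsClosed (S \ V) ∧ Inv K V := by
  have hSc : CompactSpace S := isCompact_iff_compactSpace.1 hS.isCompact
  have hSt : TotallyDisconnectedSpace S := totallyDisconnectedSpace_subtype_iff.2 hSd
  obtain ⟨D, hD, hxD, hDO⟩ := compact_exists_isClopen_in_isOpen (X := S) (x := ⟨x, hx⟩)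
    (U := Subtype.val ⁻¹' O) (hO.preimage continuous_subtype_val) hxO
  obtain ⟨W, hW, hWD⟩ := isOpen_induced_iff.1 hD.2
  have hDc : IsCompact (Subtype.val '' D : Set Y) :=
    hD.1.isCompact.image continuous_subtype_val
  have hDW : ∀ z, z ∈ (Subtype.val '' D : Set Y) ↔ z ∈ S ∧ z ∈ W := by
    intro z
    constructor
    · rintro ⟨w, hw, rfl⟩
      refine ⟨w.2, ?_⟩
      rw [← hWD] at hw
      exact hw
    · rintro ⟨h1, h2⟩
      refine ⟨⟨z, h1⟩, ?_, rfl⟩
      rw [← hWD]
      exact h2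
  set V : Set Y := (fun q : K × Y => q.1 • q.2) '' (univ ×ˢ (Subtype.val '' D)) with hV
  have hVm : ∀ z, z ∈ V ↔ ∃ k : K, ∃ d ∈ (Subtype.val '' D : Set Y), k • d = z := by
    intro z
    constructor
    · rintro ⟨⟨k, d⟩, ⟨-, hd⟩, rfl⟩
      exact ⟨k, d, hd, rfl⟩
    · rintro ⟨k, d, hd, rfl⟩
      exact ⟨(k, d), ⟨mem_univ _, hd⟩, rfl⟩
  refine ⟨V, ?_, ?_, ?_, ?_, ?_⟩
  · intro z hz
    obtain ⟨k, d, ⟨w, hw, rfl⟩, rfl⟩ := (hVm z).1 hz
    exact ⟨hSi k _ w.2, hOi k _ ⟨w.2, hDO hw⟩⟩
  · exact (hVm x).2 ⟨1, x, ⟨⟨x, hx⟩, hxD, rfl⟩, one_smul _ _⟩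
  · have hc : Continuous (fun q : K × Y => q.1 • q.2) := by fun_prop
    exact ((isCompact_univ.prod hDc).image hc).isClosed
  · have h1 : S \ V = S ∩ (⋃ k : K, (fun z => k⁻¹ • z) ⁻¹' W)ᶜ := by
      ext z
      simp only [Set.mem_sdiff, mem_inter_iff, mem_compl_iff, mem_iUnion, mem_preimage, not_exists]
      constructor
      · rintro ⟨hz, hzV⟩
        refine ⟨hz, fun k hk => hzV ?_⟩
        refine (hVm z).2 ⟨k, k⁻¹ • z, (hDW _).2 ⟨hSi _ _ hz, hk⟩, smul_inv_smul k z⟩
      · rintro ⟨hz, hzW⟩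
        refine ⟨hz, fun hzV => ?_⟩
        obtain ⟨k, d, hd, rfl⟩ := (hVm z).1 hzV
        apply hzW k
        rw [inv_smul_smul]
        exact ((hDW d).1 hd).2
    rw [h1]
    refine hS.inter (IsOpen.isClosed_compl ?_)
    exact isOpen_iUnion fun k => hW.preimage (continuous_const_smul _)
  · intro k z hz
    obtain ⟨k', d, hd, rfl⟩ := (hVm z).1 hz
    exact (hVm _).2 ⟨k * k', d, hd, mul_smul _ _ _⟩

/-- invariant logarithms on totally disconnected sets -/
theorem inv_log {S : Set Y} (hS : IsClosed S) (hSi : Inv K S) (hSd : IsTotallyDisconnected S)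
    {q : Y → ℂ} (hq : ContinuousOn q S) (hq0 : ∀ y ∈ S, q y ≠ 0)
    (hqi : ∀ k : K, ∀ y ∈ S, q (k • y) = q y) :
    ∃ l : Y → ℂ, ContinuousOn l S ∧ (∀ y ∈ S, Complex.exp (l y) = q y) ∧
      ∀ k : K, ∀ y ∈ S, l (k • y) = l y := by
  classical
  have key : ∃ V ⊆ S, S ⊆ V ∧ IsClosed V ∧ IsClosed (S \ V) ∧ Inv K V ∧ ∃ l : Y → ℂ,
      ContinuousOn l V ∧ (∀ y ∈ V, Complex.exp (l y) = q y) ∧
      ∀ k : K, ∀ y ∈ V, l (k • y) = l y := by
    refine hS.isCompact.induction_on (p := fun s => ∃ V ⊆ S, s ⊆ V ∧ IsClosed V ∧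
      IsClosed (S \ V) ∧ Inv K V ∧ ∃ l : Y → ℂ,
      ContinuousOn l V ∧ (∀ y ∈ V, Complex.exp (l y) = q y) ∧
      ∀ k : K, ∀ y ∈ V, l (k • y) = l y) ?_ ?_ ?_ ?_
    · exact ⟨∅, empty_subset _, empty_subset _, isClosed_empty, by simpa using hS,
        fun _ _ h => h.elim, fun _ => 0, continuousOn_empty _, fun _ h => h.elim,
        fun _ _ h => h.elim⟩
    · rintro s t hst ⟨V, h1, h2, h3⟩
      exact ⟨V, h1, hst.trans h2, h3⟩
    · rintro s t ⟨V, h1, h2, h3, h4, h5, l, h6, h7, h8⟩ ⟨V', h1', h2', h3', h4', h5', l', h6', h7',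
        h8'⟩
      refine ⟨V ∪ V', union_subset h1 h1', union_subset_union h2 h2', h3.union h3', ?_, ?_,
        fun y => if y ∈ V then l y else l' y, ?_, ?_, ?_⟩
      · have : S \ (V ∪ V') = (S \ V) ∩ (S \ V') := by
          ext z
          simp only [Set.mem_sdiff, mem_union, mem_inter_iff]
          tauto
        rw [this]
        exact h4.inter h4'
      · rintro k y (hy | hy)
        · exact Or.inl (h5 k y hy)
        · exact Or.inr (h5' k y hy)
      · have hun : V ∪ V' = V ∪ (V' ∩ (S \ V)) := by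
          ext z
          simp only [mem_union, mem_inter_iff, Set.mem_sdiff]
          constructor
          · rintro (hz | hz)
            · exact Or.inl hz
            · by_cases hzV : z ∈ V
              · exact Or.inl hzV
              · exact Or.inr ⟨hz, h1' hz, hzV⟩
          · rintro (hz | hz)
            · exact Or.inl hz
            · exact Or.inr hz.1
        rw [hun]
        refine ContinuousOn.union_of_isClosed ?_ ?_ h3 (h3'.inter h4)
        · exact h6.congr fun y hy => if_pos hy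
        · exact (h6'.mono inter_subset_left).congr fun y hy => if_neg hy.2.2
      · rintro y hy
        by_cases hyV : y ∈ V
        · simp only [if_pos hyV]
          exact h7 y hyV
        · simp only [if_neg hyV]
          exact h7' y (hy.resolve_left hyV)
      · rintro k y hy
        by_cases hyV : y ∈ V
        · simp only [if_pos hyV, if_pos (h5 k y hyV)]
          exact h8 k y hyV
        · have hkV : k • y ∉ V := fun h => hyV (by
            have := h5 k⁻¹ _ h
            rwa [inv_smul_smul] at this)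
          simp only [if_neg hyV, if_neg hkV]
          exact h8' k y (hy.resolve_left hyV)
    · intro x hx
      have hx0 := hq0 x hx
      -- the points where the quotient lies in the slit plane
      have hcont : ContinuousOn (fun z => q z / q x) S := hq.div_const _
      obtain ⟨O, hO, hOS⟩ : ∃ O : Set Y, IsOpen O ∧
          (fun z => q z / q x) ⁻¹' Complex.slitPlane ∩ S = O ∩ S :=
        (continuousOn_iff'.1 hcont) _ Complex.isOpen_slitPlane
      have hOm : ∀ z ∈ S, (z ∈ O ↔ q z / q x ∈ Complex.slitPlane) := by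
        intro z hz
        have h1 : z ∈ (fun z => q z / q x) ⁻¹' Complex.slitPlane ∩ S ↔ z ∈ O ∩ S := by rw [hOS]
        simp only [mem_inter_iff, mem_preimage, hz, and_true] at h1
        exact h1.symm
      obtain ⟨V, h1, h2, h3, h4, h5⟩ := inv_clopen (K := K) hS hSi hSd hO (by
        intro k y hy
        rw [hOm _ (hSi k y hy.1), hqi k y hy.1]
        exact (hOm _ hy.1).1 hy.2) hx ((hOm x hx).2 (by
          rw [div_self hx0]
          exact Complex.one_mem_slitPlane))
      have h1' : V ⊆ S := h1.trans inter_subset_left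
      refine ⟨V, ?_, V, h1', subset_rfl, h3, h4, h5,
        fun y => Complex.log (q y / q x) + Complex.log (q x), ?_, ?_, ?_⟩
      · rw [mem_nhdsWithin]
        refine ⟨(S \ V)ᶜ, h4.isOpen_compl, fun h => h.2 h2, ?_⟩
        rintro z ⟨hz1, hz2⟩
        by_contra hzV
        exact hz1 ⟨hz2, hzV⟩
      · refine ContinuousOn.add ?_ continuousOn_const
        refine (hcont.mono h1').clog fun y hy => ?_
        exact (hOm y (h1' hy)).1 (h1 hy).2
      · intro y hy
        rw [Complex.exp_add, Complex.exp_log (div_ne_zero (hq0 y (h1' hy)) hx0),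
          Complex.exp_log hx0, div_mul_cancel₀ _ hx0]
      · intro k y hy
        simp only [hqi k y (h1' hy)]
  obtain ⟨V, h1, h2, -, -, -, l, h3, h4, h5⟩ := key
  exact ⟨l, h3.mono h2, fun y hy => h4 y (h2 hy), fun k y hy => h5 k y (h2 hy)⟩

/-- the largest value on the orbit -/
theorem inv_sup (f : Y → ℝ) (hf : Continuous f) :
    Continuous (fun y => sSup ((fun k : K => f (k • y)) '' univ)) := by
  have hc : Continuous (fun q : Y × K => f (q.2 • q.1)) := by fun_prop
  exact isCompact_univ.continuous_sSup (f := fun (y : Y) (k : K) => f (k • y)) hc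

theorem inv_sup_smul (f : Y → ℝ) (h : K) (y : Y) :
    sSup ((fun k : K => f (k • h • y)) '' univ) = sSup ((fun k : K => f (k • y)) '' univ) := by
  congr 1
  ext t
  constructor
  · rintro ⟨k, -, rfl⟩
    exact ⟨k * h, mem_univ _, by simp only [mul_smul]⟩
  · rintro ⟨k, -, rfl⟩
    exact ⟨k * h⁻¹, mem_univ _, by simp only [mul_smul, inv_smul_smul]⟩

theorem inv_sup_const (f : Y → ℝ) (y : Y) {c : ℝ} (h : ∀ k : K, f (k • y) = c) :
    sSup ((fun k : K => f (k • y)) '' univ) = c := by
  have : (fun k : K => f (k • y)) '' univ = {c} := by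
    ext t
    constructor
    · rintro ⟨k, -, rfl⟩
      exact h k
    · rintro rfl
      exact ⟨1, mem_univ _, h 1⟩
  rw [this, csSup_singleton]

/-- there is an eigenfunction without zeros on `A` -/
def Eig (g : K) (c : ℂ) (A : Set Y) : Prop :=
  ∃ Ψ : Y → ℂ, ContinuousOn Ψ A ∧ ∀ y ∈ A, Ψ y ≠ 0 ∧ Ψ (g • y) = c * Ψ y

theorem Eig.mono {g : K} {c : ℂ} {A B : Set Y} (h : Eig g c B) (hAB : A ⊆ B) : Eig g c A := by
  obtain ⟨Ψ, h1, h2⟩ := h
  exact ⟨Ψ, h1.mono hAB, fun y hy => h2 y (hAB hy)⟩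

/-- gluing of eigenfunctions -/
theorem glue {g : K} (hgK : (Subgroup.zpowers g).topologicalClosure = ⊤) {c : ℂ} (hc : c ≠ 0)
    {A B C : Set Y}
    (hA : IsClosed A) (hB : IsClosed B) (hAi : Inv K A) (hBi : Inv K B)
    (hCd : IsTotallyDisconnected C) (hABC : A ∩ B ⊆ C) (hEA : Eig g c A) (hEB : Eig g c B) :
    Eig g c (A ∪ B) := by
  classical
  obtain ⟨Ψ1, a1, a2⟩ := hEA
  obtain ⟨Ψ2, b1, b2⟩ := hEB
  have hABi : Inv K (A ∩ B) := hAi.inter hBi
  have hqc : ContinuousOn (fun y => Ψ1 y / Ψ2 y) (A ∩ B) :=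
    (a1.mono inter_subset_left).div (b1.mono inter_subset_right) fun y hy => (b2 y hy.2).1
  have hq0 : ∀ y ∈ A ∩ B, Ψ1 y / Ψ2 y ≠ 0 := fun y hy =>
    div_ne_zero (a2 y hy.1).1 (b2 y hy.2).1
  have hqg : ∀ y ∈ A ∩ B, Ψ1 (g • y) / Ψ2 (g • y) = Ψ1 y / Ψ2 y := by
    intro y hy
    rw [(a2 y hy.1).2, (b2 y hy.2).2, mul_div_mul_left _ _ hc]
  have hqK : ∀ k : K, ∀ y ∈ A ∩ B, Ψ1 (k • y) / Ψ2 (k • y) = Ψ1 y / Ψ2 y := by
    intro k y hy
    have h1 : IsClosed {k : K | Ψ1 (k • y) / Ψ2 (k • y) = Ψ1 y / Ψ2 y} := by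
      have h2 : Continuous (fun k : K => Ψ1 (k • y) / Ψ2 (k • y)) :=
        hqc.comp_continuous (f := fun k : K => k • y) (by fun_prop) fun k => hABi k y hy
      exact isClosed_eq h2 continuous_const
    have h2 : (k : K) ∈ ((Subgroup.zpowers g).topologicalClosure : Set K) := by
      rw [hgK]
      trivial
    rw [Subgroup.topologicalClosure_coe] at h2
    refine closure_minimal ?_ h1 h2
    rintro _ ⟨j, rfl⟩
    -- all powers
    have hz : ∀ j : ℤ, ∀ y ∈ A ∩ B, Ψ1 (g ^ j • y) / Ψ2 (g ^ j • y) = Ψ1 y / Ψ2 y := by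
      intro j
      induction j using Int.induction_on with
      | zero => intro y _; rw [zpow_zero, one_smul]
      | succ i ih =>
        intro y hy
        rw [zpow_add_one, mul_smul, ih _ (hABi g y hy), hqg y hy]
      | pred i ih =>
        intro y hy
        have h3 := hABi g⁻¹ y hy
        rw [zpow_sub_one, mul_smul, ih _ h3]
        have h4 := hqg _ h3
        rw [smul_inv_smul] at h4
        exact h4.symm
    exact hz j y hy
  obtain ⟨l, l1, l2, l3⟩ := inv_log (K := K) (hA.inter hB) hABi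
    (fun t ht hp => hCd t (ht.trans hABC) hp) hqc hq0 hqK
  -- extension
  obtain ⟨l', hl'⟩ := ContinuousMap.exists_restrict_eq (Y := ℂ) (hA.inter hB)
    ⟨(A ∩ B).domRestrict l, continuousOn_iff_continuous_domRestrict.1 l1⟩
  have hl'' : ∀ x ∈ A ∩ B, l' x = l x := by
    intro x hx
    have := DFunLike.congr_fun hl' ⟨x, hx⟩
    exact this
  set m : Y → ℂ := fun y => (sSup ((fun k : K => (l' (k • y)).re) '' univ) : ℝ) +
    (sSup ((fun k : K => (l' (k • y)).im) '' univ) : ℝ) * Complex.I with hm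
  have hmc : Continuous m := by
    have h1 := inv_sup (K := K) (fun y => (l' y).re) (Complex.continuous_re.comp l'.continuous)
    have h2 := inv_sup (K := K) (fun y => (l' y).im) (Complex.continuous_im.comp l'.continuous)
    exact (Complex.continuous_ofReal.comp h1).add
      ((Complex.continuous_ofReal.comp h2).mul continuous_const)
  have hmi : ∀ (k : K) y, m (k • y) = m y := by
    intro k y
    have h1 := inv_sup_smul (fun y => (l' y).re) k y
    have h2 := inv_sup_smul (fun y => (l' y).im) k y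
    simp only [hm, h1, h2]
  have hml : ∀ y ∈ A ∩ B, m y = l y := by
    intro y hy
    have h1 := inv_sup_const (K := K) (fun y => (l' y).re) y (c := (l y).re) (fun k => by
      simp only [hl'' _ (hABi k y hy), l3 k y hy])
    have h2 := inv_sup_const (K := K) (fun y => (l' y).im) y (c := (l y).im) (fun k => by
      simp only [hl'' _ (hABi k y hy), l3 k y hy])
    simp only [hm, h1, h2]
    exact Complex.re_add_im (l y)
  -- the glued function
  set Ψ : Y → ℂ := fun y => if y ∈ A then Ψ1 y else Complex.exp (m y) * Ψ2 y with hΨ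
  have hΨA : ∀ y ∈ A, Ψ y = Ψ1 y := fun y hy => if_pos hy
  have hΨB : ∀ y ∈ B, Ψ y = Complex.exp (m y) * Ψ2 y := by
    intro y hy
    by_cases hyA : y ∈ A
    · rw [hΨA y hyA, hml y ⟨hyA, hy⟩, l2 y ⟨hyA, hy⟩, div_mul_cancel₀ _ (b2 y hy).1]
    · exact if_neg hyA
  refine ⟨Ψ, ?_, ?_⟩
  · refine ContinuousOn.union_of_isClosed ?_ ?_ hA hB
    · exact a1.congr hΨA
    · exact ((Complex.continuous_exp.comp hmc).continuousOn.mul b1).congr hΨB
  · rintro y (hy | hy)
    · rw [hΨA y hy, hΨA _ (hAi g y hy)]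
      exact a2 y hy
    · rw [hΨB y hy, hΨB _ (hBi g y hy), hmi]
      refine ⟨mul_ne_zero (Complex.exp_ne_zero _) (b2 y hy).1, ?_⟩
      rw [(b2 y hy).2]
      ring

end

end Pool.Agent.H78HS
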