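import Pool.Agent.N512.HS.A8

/-!
# The closure of the infinite orbits is not contained in a tame set
-/

set_option autoImplicit false
set_option linter.unusedSectionVars false

open MeasureTheory Set Metric Filter Topology TopologicalSpace
open scoped ENNReal NNReal

namespace Pool.Agent.H78HS

open Pool.Agent.Y485.HS Pool.Agent.Y489.SP Pool.Agent.Y475.HS Pool.Agent.R775.HS
  Pool.Agent.R775.HC Pool.Agent.N512.HS

theorem proP_aux {S : Type} [Group S] [TopologicalSpace S] [IsTopologicalGroup S]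
    [CompactSpace S] [T2Space S] [TotallyDisconnectedSpace S] {p : ℕ} (hp : p.Prime) {g : S}
    (hg : Tendsto (fun j : ℕ => g ^ p ^ j) atTop (𝓝 1)) (D : Subgroup S)
    (hD : D = (Subgroup.zpowers g).topologicalClosure) : ProP p D := by
  intro U hU
  have hgD : g ∈ D := by
    rw [hD]
    exact Subgroup.le_topologicalClosure _ (Subgroup.mem_zpowers g)
  have hDc : IsClosed (D : Set S) := by
    rw [hD]
    exact Subgroup.isClosed_topologicalClosure _
  have hDcomp : CompactSpace D := isCompact_iff_compactSpace.1 hDc.isCompact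
  have hDle : ∀ d ∈ D, d ∈ (Subgroup.zpowers g).topologicalClosure := fun d hd => by
    rw [← hD]
    exact hd
  have hcomm : ∀ a b : D, a * b = b * a := fun a b =>
    Subtype.ext (comm_closure (hDle _ a.2) (hDle _ b.2))
  have hn : U.Normal := ⟨fun u hu d => by
    rw [hcomm d u, mul_inv_cancel_right]
    exact hu⟩
  set γ : D ⧸ U := ((⟨g, hgD⟩ : D) : D ⧸ U) with hγ
  -- all elements of the quotient are powers
  have hgen : ∀ q : D ⧸ U, q ∈ Subgroup.zpowers γ := by
    intro q
    obtain ⟨d, rfl⟩ := QuotientGroup.mk_surjective q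
    have hd : (d : S) ∈ (Subgroup.zpowers g).topologicalClosure := hDle _ d.2
    rw [← SetLike.mem_coe, Subgroup.topologicalClosure_coe] at hd
    have hd' : d ∈ closure ((Subgroup.zpowers (⟨g, hgD⟩ : D) : Subgroup D) : Set D) := by
      rw [closure_subtype]
      refine closure_mono ?_ hd
      rintro _ ⟨j, rfl⟩
      exact ⟨(⟨g, hgD⟩ : D) ^ j, ⟨j, rfl⟩, by simp⟩
    have hc2 : Continuous (fun u : D => u⁻¹ * d) := by fun_prop
    obtain ⟨_, h1, ⟨j, rfl⟩⟩ := _root_.mem_closure_iff.1 hd' _ (hU.preimage hc2) (by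
      show d⁻¹ * d ∈ (U : Set D)
      rw [inv_mul_cancel]
      exact U.one_mem)
    refine ⟨j, ?_⟩
    have h2 := (QuotientGroup.eq (s := U)).2 h1
    rw [← h2]
    simp [hγ]
  obtain ⟨j, hj⟩ : ∃ j : ℕ, (⟨g, hgD⟩ : D) ^ p ^ j ∈ U := by
    have h1 : Tendsto (fun j : ℕ => (⟨g, hgD⟩ : D) ^ p ^ j) atTop (𝓝 1) := by
      rw [tendsto_subtype_rng]
      exact hg
    exact (h1.eventually (hU.mem_nhds U.one_mem)).exists
  have hpow : γ ^ p ^ j = 1 := by
    rw [hγ, ← QuotientGroup.mk_pow, QuotientGroup.eq_one_iff]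
    exact hj
  have hdvd : orderOf γ ∣ p ^ j := orderOf_dvd_of_pow_eq_one hpow
  obtain ⟨i, -, hi⟩ := (Nat.dvd_prime_pow hp).1 hdvd
  refine ⟨i, ?_⟩
  rw [← hi, Subgroup.index, ← Nat.card_zpowers]
  have htop : Subgroup.zpowers γ = ⊤ := by
    rw [eq_top_iff]
    intro q _
    exact hgen q
  rw [htop]
  exact (Subgroup.card_top).symm

/-- the closure of the powers is a pro-`p` group -/
theorem proP_closure {S : Type} [Group S] [TopologicalSpace S] [IsTopologicalGroup S]
    [CompactSpace S] [T2Space S] [TotallyDisconnectedSpace S] {p : ℕ} (hp : p.Prime) {g : S}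
    (hg : Tendsto (fun j : ℕ => g ^ p ^ j) atTop (𝓝 1)) :
    ProP p (Subgroup.zpowers g).topologicalClosure := proP_aux hp hg _ rfl

section
variable {n : ℕ} {X : Type} [TopologicalSpace X] [T2Space X] {S : Type} [Group S]
  [TopologicalSpace S] [IsTopologicalGroup S] [CompactSpace S] [T2Space S]
  [TotallyDisconnectedSpace S] [MulAction S X] [ContinuousSMul S X]

/-- a power of `g` fixes a given connected set of points of finite orbit -/
theorem comp_fix (hn : 1 ≤ n) {p : ℕ} (hp : p.Prime) {g : S}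
    (hg : Tendsto (fun j : ℕ => g ^ p ^ j) atTop (𝓝 1)) {O : Set X} (hO : IsOpen O)
    (hOr : ∀ x ∈ O, ∃ φ : OpenPartialHomeomorph X (E n), x ∈ φ.source)
    (hOZ : ∀ x ∈ O, x ∉ closure {x : X | InfOrbit g x}) {C : Set X} (hC : IsPreconnected C)
    (hCO : C ⊆ O) : ∃ j : ℕ, ∀ x ∈ C, g ^ p ^ j • x = x := by
  let A : Set (OpenPartialHomeomorph X (E n)) := {φ | φ.source ⊆ O}
  have hA : Stable n A := by
    rintro φ h1 e -
    have hsub : (φ.trans e).source ⊆ φ.source := by
      rw [OpenPartialHomeomorph.trans_source]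
      exact inter_subset_left
    exact hsub.trans h1
  have hreg : ∀ x ∈ O, x ∈ RegA A := by
    intro x hx
    obtain ⟨φ, hφ⟩ := hOr x hx
    refine ⟨φ.restrOpen O hO, ?_, ?_⟩
    · show (φ.restrOpen O hO).source ⊆ O
      rw [OpenPartialHomeomorph.restrOpen_source]
      exact inter_subset_right
    · rw [OpenPartialHomeomorph.restrOpen_source]
      exact ⟨hφ, hx⟩
  -- the elements of the closures satisfy the criterion
  have hcritD : ∀ (D : Subgroup S), (∀ d ∈ D, d ∈ (Subgroup.zpowers g).topologicalClosure) →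
      ∀ h : D, Crit A h := by
    intro D hDg h p' _ _ hcomp φ hφ hs
    obtain ⟨F0, -, -, -, h4⟩ := exists_good_inf (H := D) hcomp hs
    apply h4
    intro y hy ε hε
    refine ⟨y, hy, by rwa [dist_self], ?_⟩
    intro C hC3 _ hCZ _ v hv
    exfalso
    have hvt : v ∈ φ.target := hs.1 (closedBall_subset_closedBall (by norm_num) (hC3 hv))
    have hsub : {x : X | InfOrbit h x} ⊆ {x : X | InfOrbit g x} := by
      intro x hx
      have hx' : InfOrbit (h : S) x := hx
      exact inf_of_mem (hDg _ h.2) hx'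
    exact hOZ _ (hφ (φ.map_target hvt)) (closure_mono hsub (hCZ v hv))
  have hlocal : ∀ x ∈ O, ∃ j : ℕ, ∀ᶠ y in 𝓝 x, g ^ p ^ j • y = y := by
    intro x hx
    set D : Subgroup S := (Subgroup.zpowers g).topologicalClosure with hD
    have hDc : IsClosed (D : Set S) := Subgroup.isClosed_topologicalClosure _
    have : CompactSpace D := isCompact_iff_compactSpace.1 hDc.isCompact
    obtain ⟨K, hKo, hKt⟩ := locTriv' hn hA (H := D) (hcritD D fun d hd => hd) (hreg x hx)
    have hgD : g ∈ D := Subgroup.le_topologicalClosure _ (Subgroup.mem_zpowers _)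
    have htend : Tendsto (fun j : ℕ => (⟨g, hgD⟩ : D) ^ p ^ j) atTop (𝓝 1) := by
      rw [tendsto_subtype_rng]
      exact hg
    obtain ⟨j, hj⟩ := (htend.eventually (hKo.mem_nhds K.one_mem)).exists
    exact ⟨j, hKt.mono fun y hy => hy _ hj⟩
  rcases C.eq_empty_or_nonempty with hCe | ⟨x0, hx0⟩
  · refine ⟨0, fun x hx => ?_⟩
    rw [hCe] at hx
    exact hx.elim
  obtain ⟨j, hj⟩ := hlocal x0 (hCO hx0)
  refine ⟨j, ?_⟩
  set U : Set X := {x | ∀ᶠ y in 𝓝 x, g ^ p ^ j • y = y} with hU
  have hUo : IsOpen U := by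
    rw [isOpen_iff_mem_nhds]
    intro x hx
    exact eventually_eventually_nhds.2 hx
  have hsub : C ⊆ U := by
    refine hC.subset_of_closure_inter_subset hUo ⟨x0, hx0, hj⟩ ?_
    rintro x ⟨hxU, hxC⟩
    -- Newman's theorem
    set P : Subgroup S := (Subgroup.zpowers (g ^ p ^ j)).topologicalClosure with hP
    have hPc : IsClosed (P : Set S) := Subgroup.isClosed_topologicalClosure _
    have : CompactSpace P := isCompact_iff_compactSpace.1 hPc.isCompact
    have hgj : Tendsto (fun i : ℕ => (g ^ p ^ j) ^ p ^ i) atTop (𝓝 1) := by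
      have h1 := (tendsto_add_atTop_iff_nat j).2 hg
      refine h1.congr fun i => ?_
      rw [← pow_mul, ← pow_add, add_comm]
    have hPp : ProP p P := proP_closure hp hgj
    have hgjD : g ^ p ^ j ∈ (Subgroup.zpowers g).topologicalClosure :=
      Subgroup.le_topologicalClosure _ (Subgroup.npow_mem_zpowers g _)
    have hPg : ∀ d ∈ P, d ∈ (Subgroup.zpowers g).topologicalClosure := by
      intro d hd
      exact Subgroup.topologicalClosure_minimal _ ((Subgroup.zpowers_le).2 hgjD)
        (Subgroup.isClosed_topologicalClosure _) hd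
    have hnews := news' hn hA (P := P) hp hPp (hcritD P hPg) (hreg x (hCO hxC)) (by
      intro V hV
      obtain ⟨a, haV, haU⟩ := mem_closure_iff_nhds.1 hxU V hV
      refine ⟨a, haV, ?_⟩
      have haU' : ∀ᶠ y in 𝓝 a, g ^ p ^ j • y = y := haU
      filter_upwards [haU'] with y hy k
      exact fix_closure k.2 hy)
    have hgP : g ^ p ^ j ∈ P := Subgroup.le_topologicalClosure _ (Subgroup.mem_zpowers _)
    exact hnews.mono fun y hy => hy ⟨_, hgP⟩
  exact fun x hx => (hsub hx).self_of_nhds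

/-- the closure of the set of the points of infinite orbit is not contained in a set whose
complement is dense and has finitely many components -/
theorem tame_contra (hn : 1 ≤ n) {p : ℕ} (hp : p.Prime) {g : S}
    (hg : Tendsto (fun j : ℕ => g ^ p ^ j) atTop (𝓝 1)) {W T : Set X} (hW : IsOpen W)
    (hWr : ∀ x ∈ W, ∃ φ : OpenPartialHomeomorph X (E n), x ∈ φ.source)
    (hWd : W ⊆ closure (W \ T)) {m : ℕ} {C : Fin m → Set X} (hC : ∀ i, IsPreconnected (C i))
    (hCW : W \ T = ⋃ i, C i) (hZ : ∀ x ∈ W, x ∈ closure {x : X | InfOrbit g x} → x ∈ T) {x : X}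
    (hx : x ∈ W) : x ∉ closure {x : X | InfOrbit g x} := by
  set O : Set X := W ∩ (closure {x : X | InfOrbit g x})ᶜ with hO
  have hOo : IsOpen O := hW.inter isClosed_closure.isOpen_compl
  have hCO : ∀ i, C i ⊆ O := by
    intro i z hz
    have h1 : z ∈ W \ T := by
      rw [hCW]
      exact mem_iUnion.2 ⟨i, hz⟩
    exact ⟨h1.1, fun h => h1.2 (hZ z h1.1 h)⟩
  have h1 : ∀ i, ∃ j : ℕ, ∀ x ∈ C i, g ^ p ^ j • x = x := fun i =>
    comp_fix hn hp hg hOo (fun x hx => hWr x hx.1) (fun x hx => hx.2) (hC i) (hCO i)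
  choose j hj using h1
  obtain ⟨J, hJ⟩ : ∃ J : ℕ, ∀ i, j i ≤ J := by
    refine ⟨Finset.univ.sup j, fun i => Finset.le_sup (Finset.mem_univ i)⟩
  have h2 : ∀ x ∈ W \ T, g ^ p ^ J • x = x := by
    intro x hx
    rw [hCW] at hx
    obtain ⟨i, hi⟩ := mem_iUnion.1 hx
    have h3 : g ^ p ^ j i ∈ MulAction.stabilizer S x := hj i x hi
    have h4 := (MulAction.stabilizer S x).pow_mem h3 (p ^ (J - j i))
    rw [← pow_mul, ← pow_add, Nat.add_sub_cancel' (hJ i)] at h4
    exact h4
  have h3 : ∀ x ∈ W, g ^ p ^ J • x = x := by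
    intro x hx
    have hcl : IsClosed {x : X | g ^ p ^ J • x = x} :=
      isClosed_eq (continuous_const_smul _) continuous_id
    exact closure_minimal (fun x hx => h2 x hx) hcl (hWd hx)
  intro hxZ
  obtain ⟨z, hzW, hz⟩ := mem_closure_iff_nhds.1 hxZ W (hW.mem_nhds hx)
  exact hz _ (pow_pos hp.pos J) (h3 z hzW)

end

end Pool.Agent.H78HS
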