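import Pool.Agent.H78HS.Coset2
import Pool.Agent.N512.HS.A8

/-!
# Elements which are regular somewhere along the infinite orbits

Adaptation of `Pool/Agent/R775/HS/Some.lean` and `Pool/Agent/N512/HS/A8.lean`.
-/

set_option autoImplicit false
set_option linter.unusedSectionVars false

open MeasureTheory Set Metric Filter Topology TopologicalSpace
open scoped ENNReal NNReal

namespace Pool.Agent.H78HS

open Pool.Agent.Y485.HS Pool.Agent.Y489.SP Pool.Agent.Y475.HS Pool.Agent.R775.HS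
  Pool.Agent.R775.HC Pool.Agent.N512.HS Pool.Agent.N512.CC

section
variable {n : ℕ} {X : Type} [TopologicalSpace X]

/-- the elements with small energies on `B ∩ Z` and with images of `B` in `B'` -/
def DZ {S : Type} [Group S] [MulAction S X] (ψ χ : OpenPartialHomeomorph X (E n)) (Z : Set X)
    (r b : ℕ → ℝ) (B B' : Set (E n)) (m : ℕ) : Set S :=
  {s | (IsCompact (closure B') ∧ closure B' ⊆ χ.target ∧ B ⊆ ψ.target ∧
      (∃ v ∈ B, ψ.symm v ∈ Z) ∧ IsOpen B) ∧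
    (∀ v ∈ B, s • ψ.symm v ∈ χ.symm '' closure B') ∧
    ∀ j, m ≤ j → En (n + 1) (zs ψ Z B) (r j) (b j) (fun v => χ (s • ψ.symm v))}

theorem isClosed_DZ [T2Space X] {S : Type} [Group S] [TopologicalSpace S] [MulAction S X]
    [ContinuousSMul S X] (ψ χ : OpenPartialHomeomorph X (E n)) (Z : Set X) (r b : ℕ → ℝ)
    (B B' : Set (E n)) (m : ℕ) : IsClosed (DZ (S := S) ψ χ Z r b B B' m) := by
  by_cases hc : IsCompact (closure B') ∧ closure B' ⊆ χ.target ∧ B ⊆ ψ.target ∧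
      (∃ v ∈ B, ψ.symm v ∈ Z) ∧ IsOpen B
  swap
  · have : DZ (S := S) ψ χ Z r b B B' m = ∅ := by
      ext s
      simp only [DZ, mem_ofPred_eq, mem_empty_iff_false, iff_false, not_and]
      intro h
      exact (hc h).elim
    rw [this]
    exact isClosed_empty
  obtain ⟨hc1, hc2, hc3, hc4⟩ := id hc
  set D1 : Set S := {s | ∀ v ∈ B, s • ψ.symm v ∈ χ.symm '' closure B'} with hD1
  have hcl : IsClosed (χ.symm '' closure B') :=
    (hc1.image_of_continuousOn (χ.continuousOn_symm.mono hc2)).isClosed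
  have hsrc : χ.symm '' closure B' ⊆ χ.source := by
    rintro _ ⟨v, hv, rfl⟩
    exact χ.map_target (hc2 hv)
  have hD1c : IsClosed D1 := by
    have h1 : D1 = ⋂ v ∈ B, {s : S | s • ψ.symm v ∈ χ.symm '' closure B'} := by
      ext s
      simp [D1]
    rw [h1]
    refine isClosed_biInter fun v _ => ?_
    have hcont : Continuous (fun s : S => s • ψ.symm v) := by fun_prop
    exact hcl.preimage hcont
  have hcont : ∀ v ∈ zs ψ Z B, ContinuousOn (fun s : S => χ (s • ψ.symm v)) D1 := by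
    intro v hv
    have h1 : Continuous (fun s : S => s • ψ.symm v) := by fun_prop
    exact χ.continuousOn.comp h1.continuousOn fun s hs => hsrc (hs v hv.1)
  have heq : DZ (S := S) ψ χ Z r b B B' m = D1 ∩ ⋂ (j : ℕ) (_ : m ≤ j) (A : Finset (E n))
      (x : E n → E n) (y : E n → E n)
      (_ : ∀ a ∈ A, a ∈ zs ψ Z B ∧ x a ∈ zs ψ Z B ∧ y a ∈ zs ψ Z B ∧
        dist (x a) a ≤ r j ∧ dist (y a) a ≤ r j)
      (_ : ∀ a ∈ A, ∀ a' ∈ A, a ≠ a' → r j ≤ dist a a'),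
      (D1 ∩ (fun s : S => ∑ a ∈ A, dist (χ (s • ψ.symm (x a))) (χ (s • ψ.symm (y a))) ^ (n + 1))
        ⁻¹' Iic (b j)) := by
    ext s
    simp only [DZ, mem_ofPred_eq, mem_inter_iff, mem_iInter, mem_preimage, mem_Iic, En, hD1]
    constructor
    · rintro ⟨-, h1, h2⟩
      exact ⟨h1, fun j hj A x y h3 h4 => ⟨h1, h2 j hj A x y h3 h4⟩⟩
    · rintro ⟨h1, h2⟩
      exact ⟨hc, h1, fun j hj A x y h3 h4 => (h2 j hj A x y h3 h4).2⟩
  rw [heq]
  refine hD1c.inter ?_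
  refine isClosed_iInter fun j => isClosed_iInter fun _ => isClosed_iInter fun A =>
    isClosed_iInter fun x => isClosed_iInter fun y => isClosed_iInter fun h1 =>
    isClosed_iInter fun _ => ?_
  refine ContinuousOn.preimage_isClosed_of_isClosed ?_ hD1c isClosed_Iic
  refine continuousOn_finsetSum _ fun a ha => ?_
  exact (continuous_dist.comp_continuousOn
    ((hcont _ (h1 a ha).2.1).prodMk (hcont _ (h1 a ha).2.2.1))).pow (n + 1)

theorem exists_DZ {S : Type} [Group S] [TopologicalSpace S] [MulAction S X]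
    [ContinuousSMul S X] (ψ χ : OpenPartialHomeomorph X (E n)) {Z : Set X} {r b : ℕ → ℝ} {s : S}
    {W : Set X} (hWo : IsOpen W) (hWn : ∃ x ∈ W, x ∈ Z) (hWs : W ⊆ ψ.source)
    (hsW : ∀ x ∈ W, s • x ∈ χ.source)
    {m : ℕ} (hE : ∀ j, m ≤ j →
      En (n + 1) (zs ψ Z (ψ '' W)) (r j) (b j) (fun v => χ (s • ψ.symm v))) :
    ∃ B ∈ countableBasis (E n), ∃ B' ∈ countableBasis (E n), s ∈ DZ ψ χ Z r b B B' m := by
  obtain ⟨x0, hx0, hx0Z⟩ := hWn
  have hw : χ (s • x0) ∈ χ.target := χ.map_source (hsW x0 hx0)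
  obtain ⟨ρ, hρ, hball⟩ := (nhds_basis_closedBall.mem_iff).1 (χ.open_target.mem_nhds hw)
  obtain ⟨B', hB', hwB', hB's⟩ := (isBasis_countableBasis (E n)).mem_nhds_iff.1
    (ball_mem_nhds (χ (s • x0)) hρ)
  have hclB' : closure B' ⊆ closedBall (χ (s • x0)) ρ :=
    closure_minimal (hB's.trans ball_subset_closedBall) isClosed_closedBall
  have hcomp : IsCompact (closure B') :=
    (isCompact_closedBall _ _).of_isClosed_subset isClosed_closure hclB'
  have hBo' : IsOpen B' := (isBasis_countableBasis (E n)).isOpen hB'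
  have hx0s := hWs hx0
  have hv0 : ψ x0 ∈ ψ.target := ψ.map_source hx0s
  have hct : ContinuousAt ψ.symm (ψ x0) := ψ.continuousAt_symm hv0
  have hleft : ψ.symm (ψ x0) = x0 := ψ.left_inv hx0s
  have h1 : ∀ᶠ v in 𝓝 (ψ x0), v ∈ ψ.target ∧ ψ.symm v ∈ W ∧ χ (s • ψ.symm v) ∈ B' := by
    have e1 : ∀ᶠ v in 𝓝 (ψ x0), v ∈ ψ.target := ψ.open_target.mem_nhds hv0
    have e2 : ∀ᶠ v in 𝓝 (ψ x0), ψ.symm v ∈ W :=
      hct.eventually_mem (by rw [hleft]; exact hWo.mem_nhds hx0)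
    have e3 : ContinuousAt (fun v => χ (s • ψ.symm v)) (ψ x0) := by
      have f1 : ContinuousAt (fun v => s • ψ.symm v) (ψ x0) := hct.const_smul s
      refine ContinuousAt.comp (g := χ) (f := fun v => s • ψ.symm v) ?_ f1
      simp only [hleft]
      exact χ.continuousAt (hsW x0 hx0)
    have e4 : ∀ᶠ v in 𝓝 (ψ x0), χ (s • ψ.symm v) ∈ B' :=
      e3.eventually_mem (by simp only [hleft]; exact hBo'.mem_nhds hwB')
    exact e1.and (e2.and e4)
  obtain ⟨B, hB, hvB, hBs⟩ := (isBasis_countableBasis (E n)).mem_nhds_iff.1 h1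
  refine ⟨B, hB, B', hB', ⟨hcomp, hclB'.trans hball, fun v hv => (hBs hv).1,
    ⟨_, hvB, by rw [hleft]; exact hx0Z⟩, (isBasis_countableBasis (E n)).isOpen hB⟩, ?_, ?_⟩
  · intro v hv
    obtain ⟨f1, f2, f3⟩ := hBs hv
    exact ⟨_, subset_closure f3, χ.left_inv (hsW _ f2)⟩
  · intro j hj
    refine en_mono (fun v hv => ?_) le_rfl (hE j hj)
    obtain ⟨f1, f2, f3⟩ := hBs hv.1
    exact ⟨⟨_, f2, ψ.right_inv f1⟩, hv.2⟩

/-- somewhere on `Z` the element has small energies -/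
def EnSome (Ψ : ℕ → OpenPartialHomeomorph X (E n)) (r' b' : ℕ → ℕ → ℝ) (Z : Set X) {S : Type}
    [Group S] [MulAction S X] (s : S) : Prop :=
  ∃ (i i' k : ℕ) (W : Set X), IsOpen W ∧ (∃ x ∈ W, x ∈ Z) ∧ W ⊆ (Ψ i).source ∧
    (∀ x ∈ W, s • x ∈ (Ψ i').source) ∧ ∃ m : ℕ, ∀ j, m ≤ j →
      En (n + 1) (zs (Ψ i) Z (Ψ i '' W)) (r' k j) (b' k j) (fun v => Ψ i' (s • (Ψ i).symm v))

/-- there are no points of infinite orbit -/
theorem no_inf_some (hn : 1 ≤ n) [T2Space X] (Ψ : ℕ → OpenPartialHomeomorph X (E n))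
    {S : Type} [Group S] [TopologicalSpace S] [IsTopologicalGroup S] [CompactSpace S] [T2Space S]
    [TotallyDisconnectedSpace S] [MulAction S X] [ContinuousSMul S X] {r' b' : ℕ → ℕ → ℝ}
    (hr' : ∀ k j, 0 < r' k j) (hrb' : ∀ k, Tendsto (fun j => r' k j * b' k j) atTop (𝓝 0))
    {p : ℕ} (hp : p.Prime) {g : S} (hg : Tendsto (fun j : ℕ => g ^ p ^ j) atTop (𝓝 1))
    (hreg : ¬ IsMeagre {d : (Subgroup.zpowers g).topologicalClosure | ∃ M : ℤ, M ≠ 0 ∧
      EnSome Ψ r' b' (closure {x : X | InfOrbit g x}) ((d : S) ^ M)}) : False := by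
  classical
  set Z : Set X := closure {x : X | InfOrbit g x} with hZ
  set D1 : Subgroup S := (Subgroup.zpowers g).topologicalClosure with hD1
  have hD1c : IsClosed (D1 : Set S) := Subgroup.isClosed_topologicalClosure _
  have hcD1 : CompactSpace D1 := isCompact_iff_compactSpace.1 hD1c.isCompact
  have hgg : g ∈ D1 := Subgroup.le_topologicalClosure _ (Subgroup.mem_zpowers g)
  -- Baire
  have hcount : (countableBasis (E n)).Countable := countable_countableBasis (E n)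
  have : Countable (countableBasis (E n)) := hcount.to_subtype
  let f : (countableBasis (E n)) × (countableBasis (E n)) × ℕ × ℕ × ℕ × ℕ × ℤ → Set D1 :=
    fun q => {d | q.2.2.2.2.2.2 ≠ 0 ∧ (d : S) ^ q.2.2.2.2.2.2 ∈
      DZ (Ψ q.2.2.1) (Ψ q.2.2.2.1) Z (r' q.2.2.2.2.1) (b' q.2.2.2.2.1) q.1 q.2.1 q.2.2.2.2.2.1}
  have hfc : ∀ q, IsClosed (f q) := by
    rintro ⟨B, B', i, i', k, m, M⟩
    by_cases hM : M ≠ 0
    · have h1 : f (B, B', i, i', k, m, M) = (fun d : D1 => (d : S) ^ M) ⁻¹'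
          (DZ (Ψ i) (Ψ i') Z (r' k) (b' k) B B' m) := by
        ext d
        exact ⟨fun h => h.2, fun h => ⟨hM, h⟩⟩
      rw [h1]
      have hc : Continuous (fun d : D1 => (d : S) ^ M) := by fun_prop
      exact (isClosed_DZ _ _ _ _ _ _ _ _).preimage hc
    · have h1 : f (B, B', i, i', k, m, M) = ∅ := by
        ext d
        simp only [mem_empty_iff_false, iff_false]
        exact fun h => hM h.1
      rw [h1]
      exact isClosed_empty
  have hfU : {d : D1 | ∃ M : ℤ, M ≠ 0 ∧ EnSome Ψ r' b' Z ((d : S) ^ M)} ⊆ ⋃ q, f q := by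
    rintro d ⟨M, hM, i, i', k, W, hWo, hWn, hWs, hsW, m, hE⟩
    obtain ⟨B, hB, B', hB', h⟩ := exists_DZ (Ψ i) (Ψ i') hWo hWn hWs hsW hE
    exact mem_iUnion.2 ⟨(⟨B, hB⟩, ⟨B', hB'⟩, i, i', k, m, M), hM, h⟩
  obtain ⟨⟨⟨B, hB⟩, ⟨B', hB'⟩, i0, i1, k0, m, M⟩, s0, hs0⟩ : ∃ q, (interior (f q)).Nonempty := by
    by_contra hcon
    push Not at hcon
    refine hreg ((isMeagre_iUnion fun q => IsNowhereDense.isMeagre ?_).mono hfU)
    rw [IsNowhereDense, (hfc q).closure_eq]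
    exact hcon q
  have hopen : IsOpen ((fun k : D1 => s0 * k) ⁻¹'
      (interior (f (⟨B, hB⟩, ⟨B', hB'⟩, i0, i1, k0, m, M)))) :=
    isOpen_interior.preimage (continuous_const.mul continuous_id)
  obtain ⟨U, hU⟩ := ProfiniteGrp.exist_openNormalSubgroup_sub_open_nhds_of_one hopen (by
    rw [mem_preimage, mul_one]; exact hs0)
  have hD : ∀ k ∈ U.toSubgroup, M ≠ 0 ∧ ((s0 * k : D1) : S) ^ M ∈
      DZ (Ψ i0) (Ψ i1) Z (r' k0) (b' k0) B B' m := by
    intro k hk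
    have h : s0 * k ∈ f (⟨B, hB⟩, ⟨B', hB'⟩, i0, i1, k0, m, M) := interior_subset (hU hk)
    exact h
  have hUo : IsOpen (U.toSubgroup : Set D1) := U.isOpen'
  have hUc : IsClosed (U.toSubgroup : Set D1) := Subgroup.isClosed_of_isOpen _ hUo
  have hcomm : ∀ a ∈ D1, ∀ b ∈ D1, Commute a b := fun a ha b hb => comm_closure ha hb
  obtain ⟨hM, ⟨hc1, hc2, hc3, ⟨v1, hv1, hv1Z⟩, hc5⟩, hc6, -⟩ := hD 1 U.toSubgroup.one_mem
  rw [mul_one] at hc6
  have hsrc : (Ψ i1).symm '' closure B' ⊆ (Ψ i1).source := by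
    rintro _ ⟨v, hv, rfl⟩
    exact (Ψ i1).map_target (hc2 hv)
  -- the subgroup of the powers
  let K : Subgroup S :=
    { carrier := {x | ∃ k : D1, k ∈ U.toSubgroup ∧ (k : S) ^ M = x}
      mul_mem' := by
        rintro _ _ ⟨a, ha, rfl⟩ ⟨b, hb, rfl⟩
        exact ⟨a * b, U.toSubgroup.mul_mem ha hb, (hcomm a a.2 b b.2).mul_zpow M⟩
      one_mem' := ⟨1, U.toSubgroup.one_mem, by simp⟩
      inv_mem' := by
        rintro _ ⟨a, ha, rfl⟩
        exact ⟨a⁻¹, U.toSubgroup.inv_mem ha, by simp⟩ }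
  have hKc : IsClosed (K : Set S) := by
    have h1 : (K : Set S) = (fun k : D1 => (k : S) ^ M) '' (U.toSubgroup : Set D1) := rfl
    rw [h1]
    have hc : Continuous (fun k : D1 => (k : S) ^ M) := by fun_prop
    exact (hUc.isCompact.image hc).isClosed
  have hKD : ∀ k ∈ K, k ∈ D1 := by
    rintro _ ⟨k, -, rfl⟩
    exact D1.zpow_mem k.2 M
  obtain ⟨K1, hK1o, hK1t⟩ := coset_triv hn (φ := Ψ i0) (χ := Ψ i1) (g := g)
    (s1 := (s0 : S) ^ M) hc5 hc3
    (fun v hv => hsrc (hc6 v hv)) (hr' k0) (hrb' k0) (m := m) hKc hKD (by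
      rintro _ ⟨k, hk, rfl⟩ j hj
      have h1 := (hD k hk).2.2.2 j hj
      have h2 : ((s0 * k : D1) : S) ^ M = (s0 : S) ^ M * (k : S) ^ M := by
        rw [Subgroup.coe_mul]
        exact (hcomm s0 s0.2 k k.2).mul_zpow M
      simp only [h2] at h1
      exact h1) hv1
  -- a power in `K1`
  have hg1p : ∀ j : ℕ, g ^ p ^ j ∈ D1 := fun j => Subgroup.pow_mem _ hgg _
  have ht1 : Tendsto (fun j : ℕ => (⟨g ^ p ^ j, hg1p j⟩ : D1)) atTop (𝓝 1) := by
    rw [tendsto_subtype_rng]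
    exact hg
  obtain ⟨j0, hj0⟩ := (ht1.eventually (hUo.mem_nhds U.toSubgroup.one_mem)).exists
  have heK : (g ^ p ^ j0) ^ M ∈ K := ⟨_, hj0, rfl⟩
  have ht2 : Tendsto (fun j : ℕ => (⟨(g ^ p ^ j0) ^ M, heK⟩ : K) ^ p ^ j) atTop (𝓝 1) := by
    rw [tendsto_subtype_rng]
    have h1 := ((tendsto_add_atTop_iff_nat j0).2 hg).zpow M
    rw [one_zpow] at h1
    refine h1.congr fun j => ?_
    simp only [SubmonoidClass.coe_pow]
    rw [add_comm, pow_add, pow_mul]
    exact zpow_comm_aux _ _ _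
  obtain ⟨j1, hj1⟩ := (ht2.eventually (hK1o.mem_nhds K1.one_mem)).exists
  obtain ⟨x, hxt, hx⟩ := mem_closure_iff_nhds.1 hv1Z _ hK1t
  have h1 : ((g ^ p ^ j0) ^ M) ^ p ^ j1 • x = x := hxt _ hj1
  have h3 : InfOrbit ((g ^ p ^ j0) ^ M) x :=
    (inf_zpow' hM).2 (inf_pow (pow_pos hp.pos _) hx)
  exact h3 _ (pow_pos hp.pos _) h1

end

end Pool.Agent.H78HS
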