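import Pool.Agent.H78HS.Some

/-!
# Locally effective actions which are fractionally regular somewhere
-/

set_option autoImplicit false
set_option linter.unusedSectionVars false

open MeasureTheory Set Metric Filter Topology TopologicalSpace
open scoped ENNReal NNReal

namespace Pool.Agent.H78HS

open Pool.Agent.Y485.HS Pool.Agent.Y489.SP Pool.Agent.Y475.HS Pool.Agent.R775.HS
  Pool.Agent.R775.HC Pool.Agent.N512.HS Pool.Agent.N512.CC
open Pool.Agent.W660.GY (NSS GY3)

section
variable {n : ℕ} {X : Type} [TopologicalSpace X]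

/-- for a locally effective action the points of infinite orbit are dense in the charts -/
theorem inf_dense [T2Space X] {S : Type} [Group S] [TopologicalSpace S] [MulAction S X]
    [ContinuousSMul S X] (φ : OpenPartialHomeomorph X (E n)) {g : S}
    (hLE : ∀ m : ℕ, 0 < m → ∀ W : Set X, IsOpen W → W.Nonempty → W ⊆ φ.source →
      ¬ ∀ x ∈ W, g ^ m • x = x) {W : Set X} (hWo : IsOpen W) (hWn : W.Nonempty)
    (hWs : W ⊆ φ.source) : ∃ x ∈ W, InfOrbit g x := by
  classical
  by_contra hcon
  push Not at hcon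
  set U : Set (E n) := φ '' W with hU
  have hUo : IsOpen U := φ.isOpen_image_of_subset_source hWo hWs
  have hUl : LocallyCompactSpace U := hUo.locallyCompactSpace
  have hUn : Nonempty U := by
    obtain ⟨x, hx⟩ := hWn
    exact ⟨⟨φ x, mem_image_of_mem _ hx⟩⟩
  have hsc : Continuous (fun v : U => φ.symm (v : E n)) := by
    refine φ.continuousOn_symm.comp_continuous continuous_subtype_val fun v => ?_
    obtain ⟨x, hx, hxv⟩ := v.2
    rw [← hxv]
    exact φ.map_source (hWs hx)
  have hmem : ∀ v : U, φ.symm (v : E n) ∈ W := by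
    intro v
    obtain ⟨x, hx, hxv⟩ := v.2
    rw [← hxv, φ.left_inv (hWs hx)]
    exact hx
  let f : ℕ → Set U := fun m => {v | g ^ (m + 1) • φ.symm (v : E n) = φ.symm v}
  have hfc : ∀ m, IsClosed (f m) := fun m => isClosed_eq (hsc.const_smul _) hsc
  have hfU : ⋃ m, f m = univ := by
    ext v
    simp only [mem_iUnion, mem_univ, iff_true]
    have h1 := hcon _ (hmem v)
    simp only [InfOrbit, not_forall, not_not] at h1
    obtain ⟨M, hM, h⟩ := h1
    refine ⟨M - 1, ?_⟩
    show g ^ (M - 1 + 1) • φ.symm (v : E n) = φ.symm v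
    rw [Nat.sub_add_cancel hM]
    exact h
  obtain ⟨m, v, hv⟩ := nonempty_interior_of_iUnion_of_closed (f := f) hfc hfU
  obtain ⟨O, hOs, hOo, hvO⟩ := mem_interior.1 hv
  obtain ⟨O', hO'o, hO'⟩ := isOpen_induced_iff.1 hOo
  set W' : Set X := W ∩ (φ.source ∩ φ ⁻¹' O') with hW'
  refine hLE (m + 1) (Nat.succ_pos m) W' (hWo.inter (φ.isOpen_inter_preimage hO'o)) ?_
    (inter_subset_left.trans hWs) ?_
  · refine ⟨φ.symm v, hmem v, hWs (hmem v), ?_⟩
    rw [mem_preimage, φ.right_inv]
    · rw [← hO'] at hvO
      exact hvO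
    · obtain ⟨x, hx, hxv⟩ := v.2
      rw [← hxv]
      exact φ.map_source (hWs hx)
  · rintro x ⟨hxW, hxs, hxO⟩
    have h1 : (⟨φ x, mem_image_of_mem _ hxW⟩ : U) ∈ O := by
      rw [← hO']
      exact hxO
    have h2 := hOs h1
    have h3 : g ^ (m + 1) • φ.symm (φ x) = φ.symm (φ x) := h2
    rwa [φ.left_inv hxs] at h3

/-- the closure of the powers under an injective homomorphism -/
theorem closure_homeo {S G : Type} [Group S] [TopologicalSpace S] [IsTopologicalGroup S]
    [CompactSpace S] [Group G] [TopologicalSpace G] [IsTopologicalGroup G] [T2Space G]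
    (i : S →* G) (hi : Continuous i) (hinj : Function.Injective i) (g : S) :
    ∃ e : (Subgroup.zpowers g).topologicalClosure ≃ₜ (Subgroup.zpowers (i g)).topologicalClosure,
      ∀ x, ((e x : (Subgroup.zpowers (i g)).topologicalClosure) : G) = i (x : S) := by
  have hemb : IsClosedEmbedding i := hi.isClosedEmbedding hinj
  have himg : i '' ((Subgroup.zpowers g).topologicalClosure : Set S) =
      ((Subgroup.zpowers (i g)).topologicalClosure : Set G) := by
    rw [Subgroup.topologicalClosure_coe, Subgroup.topologicalClosure_coe,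
      ← hemb.closure_image_eq]
    congr 1
    ext x
    constructor
    · rintro ⟨_, ⟨k, rfl⟩, rfl⟩
      exact ⟨k, (map_zpow i g k).symm⟩
    · rintro ⟨k, rfl⟩
      exact ⟨g ^ k, ⟨k, rfl⟩, map_zpow i g k⟩
  let e1 := hemb.isEmbedding.homeomorphImage ((Subgroup.zpowers g).topologicalClosure : Set S)
  let e2 := Homeomorph.setCongr himg
  exact ⟨e1.trans e2, fun x => rfl⟩

/-- the theorem for locally compact groups: faithful actions with charts covering a dense
connected set, or locally effective actions -/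
theorem lie_al (hn : 1 ≤ n) [T2Space X] (Ψ : ℕ → OpenPartialHomeomorph X (E n))
    {G : Type} [Group G] [TopologicalSpace G] [IsTopologicalGroup G] [LocallyCompactSpace G]
    [T2Space G] [MulAction G X] [ContinuousSMul G X] {V : Set G} (hV : V ∈ 𝓝 (1 : G))
    (hL : (FaithfulSMul G X ∧ Dense (⋃ k, (Ψ k).source) ∧ IsPreconnected (⋃ k, (Ψ k).source)) ∨
      ((∃ i, (Ψ i).source.Nonempty) ∧ ∀ g, SmallPow V g → ∀ (i : ℕ) (W : Set X), IsOpen W →
        W.Nonempty → W ⊆ (Ψ i).source → (∀ x ∈ W, g • x = x) → g = 1))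
    {r b : ℕ → ℕ → ℝ} (hr : ∀ k j, 0 < r k j)
    (hrb : ∀ k, Tendsto (fun j => r k j * b k j) atTop (𝓝 0))
    (hreg : ∀ (p : ℕ) (g : G), p.Prime → SmallPow V g →
      Tendsto (fun j : ℕ => g ^ p ^ j) atTop (𝓝 1) →
      (∃ x ∈ ⋃ k, (Ψ k).source, InfOrbit g x) →
      ¬ IsMeagre {s : (Subgroup.zpowers g).topologicalClosure | ∃ M : ℤ, M ≠ 0 ∧
        EnSome Ψ r b (closure {x : X | InfOrbit g x}) ((s : G) ^ M)}) :
    IsLie G := by
  have hN : NSS G := by
    refine nss_of_Z V hV ?_
    intro S _ _ _ _ _ _ i hi hinj hiV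
    let _ : MulAction S X := MulAction.compHom X i
    have _ : ContinuousSMul S X := ⟨by
      have h : Continuous (fun q : S × X => i q.1 • q.2) := by fun_prop
      exact h⟩
    have hact : ∀ (s : S) (x : X), s • x = i s • x := fun _ _ => rfl
    have hInf : ∀ (s : S) (x : X), InfOrbit s x ↔ InfOrbit (i s) x := by
      intro s x
      have h1 : ∀ m : ℕ, s ^ m • x = (i s) ^ m • x := by
        intro m
        rw [← map_pow]
        rfl
      simp only [InfOrbit, h1]
    -- the chart domains
    set R : Set X := ⋃ k, (Ψ k).source with hR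
    let A : Set (OpenPartialHomeomorph X (E n)) := {φ | φ.source ⊆ R}
    have hA : Stable n A := by
      rintro φ h1 e -
      have hsub : (φ.trans e).source ⊆ φ.source := by
        rw [OpenPartialHomeomorph.trans_source]
        exact inter_subset_left
      exact hsub.trans h1
    have hRA : RegA A = R := by
      ext x
      constructor
      · rintro ⟨φ, hφ, hx⟩
        exact hφ hx
      · intro hx
        obtain ⟨k, hk⟩ := mem_iUnion.1 hx
        exact ⟨Ψ k, subset_iUnion (fun k => (Ψ k).source) k, hk⟩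
    have hRo : IsOpen R := isOpen_iUnion fun k => (Ψ k).open_source
    -- no points of infinite orbit in `R`
    have hno : ∀ (p : ℕ) (g : S), p.Prime → Tendsto (fun j : ℕ => g ^ p ^ j) atTop (𝓝 1) →
        ∀ x ∈ R, ¬ InfOrbit g x := by
      intro p g hp hg x hx hxI
      refine no_inf_some hn Ψ hr hrb hp hg ?_
      intro hmeag
      refine hreg p (i g) hp (smallPow_of_hom i hi hiV g) ?_ ⟨x, hx, (hInf g x).1 hxI⟩ ?_
      · have h1 : Tendsto (fun j : ℕ => i (g ^ p ^ j)) atTop (𝓝 (i 1)) :=
          (hi.tendsto 1).comp hg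
        rw [map_one] at h1
        simpa only [map_pow] using h1
      · obtain ⟨e, he⟩ := closure_homeo i hi hinj g
        refine (hmeag.preimage_of_isOpenMap e.symm.continuous e.symm.isOpenMap).mono ?_
        rintro s ⟨M, hM, k, k', l, W, hWo, hWn, hWs, hsW, m, hE⟩
        have hs : i ((e.symm s : (Subgroup.zpowers g).topologicalClosure) : S) = (s : G) := by
          rw [← he, e.apply_symm_apply]
        rw [← hs, ← map_zpow] at hsW hE
        have hset : {x : X | InfOrbit g x} = {x : X | InfOrbit (i g) x} := by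
          ext x
          exact hInf g x
        refine ⟨M, hM, k, k', l, W, hWo, ?_, hWs, hsW, m, fun j hj => ?_⟩
        · rw [hset]
          exact hWn
        · rw [hset]
          exact hE j hj
    have hcrit : ∀ s : S, Crit A s := by
      intro s p hp hsp hcomp φ hφ hs
      obtain ⟨F0, -, -, -, h4⟩ := exists_good_inf hcomp hs
      apply h4
      intro y hy ε hε
      refine ⟨y, hy, by rwa [dist_self], ?_⟩
      intro C hC3 _ hCZ _ v hv
      exfalso
      have hvt : v ∈ φ.target := hs.1 (closedBall_subset_closedBall (by norm_num) (hC3 hv))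
      obtain ⟨x, hxR, hxI⟩ := mem_closure_iff_nhds.1 (hCZ v hv) R
        (hRo.mem_nhds (hφ (φ.map_target hvt)))
      exact hno p s hp hsp x hxR hxI
    obtain ⟨K, hKo, hbot⟩ : ∃ K : Subgroup S, IsOpen (K : Set S) ∧ K = ⊥ := by
      rcases hL with ⟨hF, hdense, hconn⟩ | ⟨⟨k0, x0, hx0⟩, hLE⟩
      · obtain ⟨K, hKo, hKt⟩ := profinite' (H := S) hn hA (by rw [hRA]; exact hdense)
          (by rw [hRA]; exact hconn) hcrit (fun K P _ q hq =>
          crit_of_hom (K.subtype.comp P.subtype)
            (continuous_subtype_val.comp continuous_subtype_val) (fun _ _ => rfl) q hq)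
        refine ⟨K, hKo, ?_⟩
        rw [eq_bot_iff]
        intro k hk
        rw [Subgroup.mem_bot]
        apply hinj
        refine eq_of_smul_eq_smul (α := X) fun x => ?_
        rw [map_one, one_smul]
        exact hKt k hk x
      · have hx0R : x0 ∈ RegA A := by
          rw [hRA]
          exact subset_iUnion (fun k => (Ψ k).source) k0 hx0
        obtain ⟨K, hKo, hKt⟩ := locTriv' hn hA (H := S) hcrit hx0R
        refine ⟨K, hKo, ?_⟩
        rw [eq_bot_iff]
        intro k hk
        rw [Subgroup.mem_bot]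
        obtain ⟨W, hWs, hWo, hxW⟩ := eventually_nhds_iff.1
          (hKt.and ((Ψ k0).open_source.mem_nhds hx0))
        apply hinj
        rw [map_one]
        exact hLE (i k) (smallPow_of_hom i hi hiV k) k0 W hWo ⟨x0, hxW⟩
          (fun x hx => (hWs x hx).2) fun x hx => (hWs x hx).1 k hk
    rw [hbot] at hKo
    refine discreteTopology_of_isOpen_singleton_one ?_
    convert hKo using 1
    ext x
    simp
  obtain ⟨E, i1, i2, i3, ⟨C⟩⟩ := Pool.Agent.Y328.HS.lga G hN
  let _ := i1
  let _ := i2
  have _ := i3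
  exact Pool.Agent.Y286.HS.lgb G E C

end

end Pool.Agent.H78HS
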