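import Pool.Agent.H78HS.Some2
import Pool.Agent.H78HS.Sob

/-!
# Regularity conditions somewhere along the infinite orbits
-/

set_option autoImplicit false
set_option linter.unusedSectionVars false

open MeasureTheory Set Metric Filter Topology TopologicalSpace
open scoped ENNReal NNReal

namespace Pool.Agent.H78HS

open Pool.Agent.Y485.HS Pool.Agent.Y489.SP Pool.Agent.Y475.HS Pool.Agent.R775.HS
  Pool.Agent.R775.HC Pool.Agent.N512.HS Pool.Agent.N512.CC

/-- fractional Sobolev maps on an open set -/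
def SobF {n : ℕ} (O : Set (E n)) (f : E n → E n) : Prop :=
  ∃ s q : ℝ, ((n : ℝ) - 1) / (n + 1) < s ∧ (n : ℝ) - 1 < s * q ∧
    ∃ h : E n → ℝ≥0∞, Measurable h ∧
      (∀ v ∈ O, ∀ w ∈ O, edist (f v) (f w) ≤ edist v w ^ s * (h v + h w)) ∧
      ∫⁻ v in O, h v ^ q < ∞

/-- Hölder at the point `v` with exponent bigger than `(n - 1) / (n + 1)`, tested against the
points of a set -/
def HolF {n : ℕ} (D : Set (E n)) (f : E n → E n) (v : E n) : Prop :=
  ∃ α C δ : ℝ, ((n : ℝ) - 1) / (n + 1) < α ∧ 0 < δ ∧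
    ∀ w ∈ D, dist w v < δ → dist (f w) (f v) ≤ C * dist w v ^ α

section
variable {n : ℕ} {X : Type} [TopologicalSpace X]

theorem en_of_sobF (hn : 2 ≤ n) {G : Type} [Group G] [TopologicalSpace G] [MulAction G X]
    [ContinuousSMul G X] (ψ χ : OpenPartialHomeomorph X (E n)) (g : G) {W : Set X}
    (hWo : IsOpen W) {x0 : X} (hx0 : x0 ∈ W) (hWs : W ⊆ ψ.source)
    (hgW : ∀ x ∈ W, g • x ∈ χ.source)
    (hS : SobF (ψ '' W) (fun v => χ (g • ψ.symm v))) :
    ∃ W' : Set X, IsOpen W' ∧ x0 ∈ W' ∧ W' ⊆ W ∧ ∃ m : ℕ, ∀ j, m ≤ j →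
      En (n + 1) (ψ '' W') ((1 / 2) ^ j) (2 ^ j / (j + 1)) (fun v => χ (g • ψ.symm v)) := by
  obtain ⟨s, q, hs, hq, h, hm, hH, hI⟩ := hS
  have hn2 : (2 : ℝ) ≤ n := by exact_mod_cast hn
  have hs0 : 0 < s := lt_of_le_of_lt (div_nonneg (by linarith) (by linarith)) hs
  have hq0 : 0 < q := by
    by_contra hcon
    have : s * q ≤ 0 := mul_nonpos_of_nonneg_of_nonpos hs0.le (not_lt.1 hcon)
    linarith
  have hs' : (n : ℝ) - 1 < s * (n + 1) := by
    rwa [div_lt_iff₀ (by linarith)] at hs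
  have hop : IsOpen (ψ '' W) := ψ.isOpen_image_of_subset_source hWo hWs
  obtain ⟨R, hR, hball⟩ := Metric.isOpen_iff.1 hop (ψ x0) (mem_image_of_mem _ hx0)
  set z0 : E n := ψ x0 with hz0
  set ρ : ℝ := R / 3 with hρdef
  have hρ : 0 < ρ := by positivity
  have hmem : ∀ v ∈ ball z0 R, v ∈ ψ.target ∧ ψ.symm v ∈ W := by
    intro v hv
    obtain ⟨x, hx, rfl⟩ := hball hv
    exact ⟨ψ.map_source (hWs hx), by rw [ψ.left_inv (hWs hx)]; exact hx⟩
  let u : OpenPartialHomeomorph (E n) (E n) :=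
    (ψ.symm.trans ((Homeomorph.smul g).toOpenPartialHomeomorph.trans χ)).restrOpen (ball z0 R)
      isOpen_ball
  have husrc : u.source = ball z0 R := by
    show (ψ.symm.trans ((Homeomorph.smul g).toOpenPartialHomeomorph.trans χ)).source ∩ ball z0 R =
      ball z0 R
    refine inter_eq_right.2 fun v hv => ?_
    obtain ⟨h1, h2⟩ := hmem v hv
    rw [OpenPartialHomeomorph.trans_source]
    refine ⟨h1, ?_⟩
    rw [mem_preimage, OpenPartialHomeomorph.trans_source]
    exact ⟨mem_univ _, hgW _ h2⟩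
  have hHaj : HajS s u.source u h := by
    intro v hv w hw
    rw [husrc] at hv hw
    exact hH v (hball hv) w (hball hw)
  have hfin : ∫⁻ x in u.source, h x ^ q < ∞ := by
    rw [husrc]
    exact lt_of_le_of_lt (lintegral_mono_set hball) hI
  obtain ⟨m, hm'⟩ := sob_enS hn u hq0 hq hs' hm hHaj hfin hρ (z0 := z0) (by
    rw [husrc]
    exact closedBall_subset_ball (by rw [hρdef]; linarith))
  refine ⟨W ∩ (ψ.source ∩ ψ ⁻¹' ball z0 ρ), hWo.inter (ψ.isOpen_inter_preimage isOpen_ball),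
    ⟨hx0, hWs hx0, mem_ball_self hρ⟩, inter_subset_left, m, fun j hj => ?_⟩
  refine en_mono ?_ le_rfl (hm' j hj)
  rintro _ ⟨x, hx, rfl⟩
  exact ball_subset_closedBall hx.2.2

/-- pointwise Hölder conditions on a set which is not meagre in the closure of `I` -/
theorem en_of_holF (hn : 2 ≤ n) {G : Type} [Group G] [TopologicalSpace G] [MulAction G X]
    [ContinuousSMul G X] (ψ χ : OpenPartialHomeomorph X (E n)) (g : G) {W I : Set X}
    (hWo : IsOpen W) (hWs : W ⊆ ψ.source) (hgW : ∀ x ∈ W, g • x ∈ χ.source)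
    (hS : ¬ IsMeagre {v : zs ψ (closure I) (ψ '' W) |
      HolF (ψ '' (W ∩ I)) (fun v => χ (g • ψ.symm v)) (v : E n)}) :
    ∃ W' : Set X, IsOpen W' ∧ (∃ x ∈ W', x ∈ closure I) ∧ W' ⊆ W ∧ ∃ m : ℕ, ∀ j, m ≤ j →
      En (n + 1) (zs ψ (closure I) (ψ '' W')) ((1 / 2) ^ j) (2 ^ j / (j + 1))
        (fun v => χ (g • ψ.symm v)) := by
  set f : E n → E n := fun v => χ (g • ψ.symm v) with hf
  set U : Set (E n) := ψ '' W with hU
  have hUo : IsOpen U := ψ.isOpen_image_of_subset_source hWo hWs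
  have hmem : ∀ v ∈ U, v ∈ ψ.target ∧ ψ.symm v ∈ W := by
    rintro _ ⟨x, hx, rfl⟩
    exact ⟨ψ.map_source (hWs hx), by rw [ψ.left_inv (hWs hx)]; exact hx⟩
  have hfc : ContinuousOn f U := by
    refine χ.continuousOn.comp ((ψ.continuousOn_symm.mono fun v hv => (hmem v hv).1).const_smul g)
      fun v hv => hgW _ (hmem v hv).2
  have hDU : ψ '' (W ∩ I) ⊆ U := image_mono inter_subset_left
  have hn2 : (2 : ℝ) ≤ n := by exact_mod_cast hn
  have hβ : 0 ≤ ((n : ℝ) - 1) / (n + 1) := div_nonneg (by linarith) (by linarith)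
  set β : ℝ := ((n : ℝ) - 1) / (n + 1) with hβd
  let Y : Type := zs ψ (closure I) U
  have hYU : ∀ v : Y, (v : E n) ∈ U := fun v => v.2.1
  let T : ℕ → Set Y := fun j => {v | ∀ w ∈ ψ '' (W ∩ I), dist w (v : E n) < 1 / ((j : ℝ) + 1) →
    dist (f w) (f (v : E n)) ≤ (j + 1) * dist w (v : E n) ^ (β + 1 / ((j : ℝ) + 1))}
  have hexp0 : ∀ j : ℕ, 0 < β + 1 / ((j : ℝ) + 1) := fun j => by positivity
  have hTc : ∀ j, IsClosed (T j) := by
    intro j
    have h1 : T j = ⋂ (w : E n) (_ : w ∈ ψ '' (W ∩ I)), {v : Y |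
        dist w (v : E n) < 1 / ((j : ℝ) + 1) →
        dist (f w) (f (v : E n)) ≤ (j + 1) * dist w (v : E n) ^ (β + 1 / ((j : ℝ) + 1))} := by
      ext v
      simp only [T, mem_ofPred_eq, mem_iInter]
    rw [h1]
    refine isClosed_iInter fun w => isClosed_iInter fun _ => ?_
    have hd : Continuous (fun v : Y => dist w (v : E n)) :=
      continuous_const.dist continuous_subtype_val
    refine isClosed_imp ?_ ?_
    · exact isOpen_lt hd continuous_const
    · refine isClosed_le ?_ ?_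
      · refine continuous_const.dist ?_
        exact hfc.comp_continuous continuous_subtype_val hYU
      · exact continuous_const.mul (hd.rpow_const fun _ => Or.inr (hexp0 j).le)
  have hcov : {v : Y | HolF (ψ '' (W ∩ I)) f (v : E n)} ⊆ ⋃ j, T j := by
    rintro v ⟨α, C, δ, hα, hδ, h⟩
    have hα0 : 0 < α := lt_of_le_of_lt hβ hα
    obtain ⟨j, hj⟩ := exists_nat_gt (max (1 / δ) (max (1 / (α - β)) |C|))
    have hj0 : (0 : ℝ) < (j : ℝ) + 1 := by positivity
    have hj1 : 1 / δ < j := lt_of_le_of_lt (le_max_left _ _) hj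
    have hj2 : 1 / (α - β) < j :=
      lt_of_le_of_lt ((le_max_left _ _).trans (le_max_right _ _)) hj
    have hj3 : |C| < j := lt_of_le_of_lt ((le_max_right _ _).trans (le_max_right _ _)) hj
    refine mem_iUnion.2 ⟨j, fun w hw hwv => ?_⟩
    have hwδ : dist w (v : E n) < δ := by
      refine hwv.trans ?_
      rw [div_lt_iff₀ hδ] at hj1
      rw [div_lt_iff₀ hj0]
      nlinarith
    have hd1 : dist w (v : E n) ≤ 1 := by
      refine hwv.le.trans ?_
      rw [div_le_one hj0]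
      have : (0 : ℝ) ≤ j := Nat.cast_nonneg j
      linarith
    have hexp : β + 1 / ((j : ℝ) + 1) ≤ α := by
      have h4 : 0 < α - β := by linarith
      rw [div_lt_iff₀ h4] at hj2
      have h5 : 1 / ((j : ℝ) + 1) ≤ α - β := by
        rw [div_le_iff₀ hj0]
        nlinarith
      linarith
    calc dist (f w) (f (v : E n)) ≤ C * dist w (v : E n) ^ α := h w hw hwδ
      _ ≤ |C| * dist w (v : E n) ^ α := by
          gcongr
          exact le_abs_self _
      _ ≤ (j + 1) * dist w (v : E n) ^ (β + 1 / ((j : ℝ) + 1)) := by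
          have h5 : dist w (v : E n) ^ α ≤ dist w (v : E n) ^ (β + 1 / ((j : ℝ) + 1)) :=
            Real.rpow_le_rpow_of_exponent_ge' dist_nonneg hd1 (hexp0 j).le hexp
          have h6 : 0 ≤ dist w (v : E n) ^ α := Real.rpow_nonneg dist_nonneg _
          have h7 : |C| ≤ j + 1 := by linarith
          exact mul_le_mul h7 h5 h6 hj0.le
  obtain ⟨j, v2, hv2⟩ : ∃ j, (interior (T j)).Nonempty := by
    by_contra hcon
    push Not at hcon
    refine hS ((isMeagre_iUnion fun j => IsNowhereDense.isMeagre ?_).mono hcov)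
    rw [IsNowhereDense, (hTc j).closure_eq]
    exact hcon j
  obtain ⟨O, hOo, hOT⟩ := isOpen_induced_iff.1 (isOpen_interior (s := T j))
  have hv2O : (v2 : E n) ∈ O := by
    rw [← hOT] at hv2
    exact hv2
  have hj0 : (0 : ℝ) < (j : ℝ) + 1 := by positivity
  have hj1 : (1 : ℝ) / ((j : ℝ) + 1) ≤ 1 := by
    rw [div_le_one hj0]
    have : (0 : ℝ) ≤ j := Nat.cast_nonneg j
    linarith
  set B : Set (E n) := O ∩ U ∩ ball (v2 : E n) (1 / ((j : ℝ) + 1) / 2) with hB
  have hBo : IsOpen B := (hOo.inter hUo).inter isOpen_ball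
  have hv2B : (v2 : E n) ∈ B := ⟨⟨hv2O, hYU v2⟩, mem_ball_self (by positivity)⟩
  have himg : ψ '' (W ∩ (ψ.source ∩ ψ ⁻¹' B)) ⊆ B := by
    rintro _ ⟨x, hx, rfl⟩
    exact hx.2.2
  refine ⟨W ∩ (ψ.source ∩ ψ ⁻¹' B), hWo.inter (ψ.isOpen_inter_preimage hBo), ?_,
    inter_subset_left, ?_⟩
  · have h1 := hmem v2 (hYU v2)
    refine ⟨ψ.symm v2, ⟨h1.2, hWs h1.2, ?_⟩, v2.2.2⟩
    rw [mem_preimage, ψ.right_inv h1.1]
    exact hv2B
  refine en_hol (by omega) (z := (v2 : E n)) (α := β + 1 / ((j : ℝ) + 1)) (C := j + 1)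
    ?_ ?_ hj0.le ?_
  · intro v hv
    have h1 : v ∈ ball (v2 : E n) (1 / ((j : ℝ) + 1) / 2) := (himg hv.1).2
    exact (ball_subset_closedBall.trans (closedBall_subset_closedBall (by linarith))) h1
  · have : 0 < 1 / ((j : ℝ) + 1) := by positivity
    linarith
  · intro w hw a ha
    have haB := himg ha.1
    have hwB := himg hw.1
    have haT : (⟨a, haB.1.2, ha.2⟩ : Y) ∈ T j := by
      refine interior_subset (s := T j) ?_
      rw [← hOT]
      exact haB.1.1
    have hwcl : w ∈ closure {w' | w' ∈ B ∧ w' ∈ ψ '' (W ∩ I)} := by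
      rw [mem_closure_iff_nhds]
      intro N hN
      have hwt := (hmem w hwB.1.2).1
      have h1 : W ∩ (ψ.source ∩ ψ ⁻¹' (interior N ∩ B)) ∈ 𝓝 (ψ.symm w) := by
        refine (hWo.inter (ψ.isOpen_inter_preimage (isOpen_interior.inter hBo))).mem_nhds ?_
        refine ⟨(hmem w hwB.1.2).2, ψ.map_target hwt, ?_⟩
        rw [mem_preimage, ψ.right_inv hwt]
        exact ⟨mem_interior_iff_mem_nhds.2 hN, hwB⟩
      obtain ⟨x, ⟨hxW, hx1, hx2⟩, hxI⟩ := mem_closure_iff_nhds.1 hw.2 _ h1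
      exact ⟨ψ x, interior_subset hx2.1, hx2.2, mem_image_of_mem _ ⟨hxW, hxI⟩⟩
    have hwU : U ∈ 𝓝 w := hUo.mem_nhds hwB.1.2
    refine ContinuousWithinAt.closure_le
      (f := fun w : E n => dist (f w) (f a))
      (g := fun w : E n => (j + 1 : ℝ) * dist w a ^ (β + 1 / ((j : ℝ) + 1)))
      hwcl ?_ ?_ ?_
    · have hca : ContinuousAt (fun w : E n => dist (f w) (f a)) w :=
        (hfc.continuousAt hwU).dist continuousAt_const
      exact hca.continuousWithinAt
    · have hd : Continuous (fun w : E n => (j + 1 : ℝ) * dist w a ^ (β + 1 / ((j : ℝ) + 1))) :=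
        continuous_const.mul ((continuous_id.dist continuous_const).rpow_const
          fun _ => Or.inr (hexp0 j).le)
      exact hd.continuousAt.continuousWithinAt
    · rintro w' ⟨hw'B, hw'I⟩
      refine haT w' hw'I ?_
      have e1 := hw'B.2
      have e2 := haB.2
      rw [mem_ball] at e1 e2
      calc dist w' a ≤ dist w' (v2 : E n) + dist a (v2 : E n) := dist_triangle_right _ _ _
        _ < 1 / ((j : ℝ) + 1) := by linarith

end

end Pool.Agent.H78HS
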