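import Pool.Agent.H78HS.Some3

/-!
# The theorem on actions whose generic elements are regular somewhere along the infinite orbits
-/

set_option autoImplicit false
set_option linter.unusedSectionVars false

open MeasureTheory Set Metric Filter Topology TopologicalSpace
open scoped ENNReal NNReal

namespace Pool.Agent.H78HS

open Pool.Agent.Y485.HS Pool.Agent.Y489.SP Pool.Agent.Y475.HS Pool.Agent.R775.HS
  Pool.Agent.R775.HC Pool.Agent.N512.HS Pool.Agent.N512.CC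

/-- the homeomorphism is regular somewhere along the set `I` -/
def RegAl {n : ℕ} {X : Type} [TopologicalSpace X]
    (Ψ : ℕ → OpenPartialHomeomorph X (E n)) (r b : ℕ → ℕ → ℝ) (I : Set X) {G : Type} [SMul G X]
    (h : G) : Prop :=
  ∃ (i i' : ℕ) (W : Set X), IsOpen W ∧ (∃ x ∈ W, x ∈ I) ∧ W ⊆ (Ψ i).source ∧
    (∀ x ∈ W, h • x ∈ (Ψ i').source) ∧
    (SobF (Ψ i '' W) (fun v => Ψ i' (h • (Ψ i).symm v)) ∨
      (¬ IsMeagre {v : zs (Ψ i) (closure I) (Ψ i '' W) |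
        HolF (Ψ i '' (W ∩ I)) (fun v => Ψ i' (h • (Ψ i).symm v)) (v : E n)}) ∨
      ∃ k m : ℕ, ∀ j, m ≤ j → En (n + 1) (zs (Ψ i) (closure I) (Ψ i '' W)) (r k j) (b k j)
        (fun v => Ψ i' (h • (Ψ i).symm v)))

/-- the sequences, with the standard pair added in front -/
noncomputable def shR (r : ℕ → ℕ → ℝ) : ℕ → ℕ → ℝ
  | 0, j => (1 / 2) ^ j
  | k + 1, j => r k j

/-- the sequences, with the standard pair added in front -/
noncomputable def shB (b : ℕ → ℕ → ℝ) : ℕ → ℕ → ℝ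
  | 0, j => 2 ^ j / (j + 1)
  | k + 1, j => b k j

section
variable {n : ℕ} {X : Type} [TopologicalSpace X]

theorem enSome_of_regAl (hn : 2 ≤ n) (Ψ : ℕ → OpenPartialHomeomorph X (E n)) {r b : ℕ → ℕ → ℝ}
    {I : Set X} {G : Type} [Group G] [TopologicalSpace G] [MulAction G X] [ContinuousSMul G X]
    {h : G} (hR : RegAl Ψ r b I h) : EnSome Ψ (shR r) (shB b) (closure I) h := by
  obtain ⟨i, i', W, hWo, ⟨x0, hx0, hx0I⟩, hWs, hsW, hcase⟩ := hR
  rcases hcase with hS | hM | ⟨k, m, hm⟩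
  · obtain ⟨W', h1, h2, h3, m, hm⟩ := en_of_sobF hn (Ψ i) (Ψ i') h hWo hx0 hWs hsW hS
    exact ⟨i, i', 0, W', h1, ⟨x0, h2, subset_closure hx0I⟩, h3.trans hWs,
      fun x hx => hsW x (h3 hx), m, fun j hj => en_mono (fun v hv => hv.1) le_rfl (hm j hj)⟩
  · obtain ⟨W', h1, h2, h3, m, hm⟩ := en_of_holF hn (Ψ i) (Ψ i') h hWo hWs hsW hM
    exact ⟨i, i', 0, W', h1, h2, h3.trans hWs, fun x hx => hsW x (h3 hx), m, hm⟩
  · exact ⟨i, i', k + 1, W, hWo, ⟨x0, hx0, subset_closure hx0I⟩, hWs, hsW, m, hm⟩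

/-- Actions whose generic elements are regular somewhere along the infinite orbits -/
theorem lie_generic (hn : 2 ≤ n) [T2Space X] (Ψ : ℕ → OpenPartialHomeomorph X (E n))
    {G : Type} [Group G] [TopologicalSpace G] [IsTopologicalGroup G] [LocallyCompactSpace G]
    [T2Space G] [MulAction G X] [ContinuousSMul G X] {V : Set G} (hV : V ∈ 𝓝 (1 : G))
    (hL : (FaithfulSMul G X ∧ Dense (⋃ k, (Ψ k).source) ∧ IsPreconnected (⋃ k, (Ψ k).source)) ∨
      ((∃ i, (Ψ i).source.Nonempty) ∧ ∀ g, SmallPow V g → ∀ (i : ℕ) (W : Set X), IsOpen W →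
        W.Nonempty → W ⊆ (Ψ i).source → (∀ x ∈ W, g • x = x) → g = 1))
    {r b : ℕ → ℕ → ℝ} (hr : ∀ k j, 0 < r k j)
    (hrb : ∀ k, Tendsto (fun j => r k j * b k j) atTop (𝓝 0))
    (hreg : ∀ (p : ℕ) (g : G), p.Prime → SmallPow V g →
      Tendsto (fun j : ℕ => g ^ p ^ j) atTop (𝓝 1) →
      (∃ x ∈ ⋃ k, (Ψ k).source, InfOrbit g x) →
      ¬ IsMeagre {s : (Subgroup.zpowers g).topologicalClosure | ∃ M : ℤ, M ≠ 0 ∧
        RegAl Ψ r b {x : X | InfOrbit g x} ((s : G) ^ M)}) :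
    IsLie G := by
  refine lie_al (by omega) Ψ hV hL (r := shR r) (b := shB b) ?_ ?_ ?_
  · intro k j
    rcases k with _ | k
    · show (0 : ℝ) < (1 / 2) ^ j
      positivity
    · exact hr k j
  · intro k
    rcases k with _ | k
    · have h1 : Tendsto (fun j : ℕ => 1 / ((j : ℝ) + 1)) atTop (𝓝 0) :=
        tendsto_one_div_add_atTop_nhds_zero_nat
      refine h1.congr fun j => ?_
      show 1 / ((j : ℝ) + 1) = (1 / 2) ^ j * (2 ^ j / (j + 1))
      have h2 : ((1 : ℝ) / 2) ^ j * 2 ^ j = 1 := by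
        rw [← mul_pow]
        norm_num
      rw [← mul_div_assoc, h2]
    · exact hrb k
  · intro p g hp hg hgp hgx hmeag
    refine hreg p g hp hg hgp hgx (hmeag.mono ?_)
    rintro s ⟨M, hM, hR⟩
    exact ⟨M, hM, enSome_of_regAl hn Ψ hR⟩

end

end Pool.Agent.H78HS
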